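import Pool.Agent.Helper72.Iso.Basic

open Polynomial

namespace Pool.Agent.Helper72.Iso

/-! ## Module ALG (algebraicity of the coefficients) -/

section Sys

variable {F L : Type*} [Field F] [Field L] [Algebra F L] {m : ℕ}

/-- the value of a monomial at `x` -/
noncomputable def monVal (x : Fin m → L) (a : Fin m →₀ ℕ) : L := ∏ i, x i ^ a i

theorem aeval_monomial_eq (x : Fin m → L) (a : Fin m →₀ ℕ) (c : F) :
    MvPolynomial.aeval x (MvPolynomial.monomial a c) = c • monVal x a := by
  rw [MvPolynomial.aeval_monomial, Algebra.smul_def, monVal,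
    Finsupp.prod_fintype _ _ (fun i => pow_zero _)]

theorem monVal_add (x : Fin m → L) (a b : Fin m →₀ ℕ) :
    monVal x (a + b) = monVal x a * monVal x b := by
  simp only [monVal, Finsupp.add_apply, pow_add, Finset.prod_mul_distrib]

theorem monVal_single (x : Fin m → L) (i : Fin m) (d : ℕ) :
    monVal x (Finsupp.single i d) = x i ^ d := by
  classical
  rw [monVal, Finset.prod_eq_single i]
  · rw [Finsupp.single_eq_same]
  · intro j _ hj
    rw [Finsupp.single_apply, if_neg (Ne.symm hj), pow_zero]
  · intro h; exact absurd (Finset.mem_univ i) h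

theorem monVal_mem {d : ℕ} (x : Fin m → L) (g : Fin m → MvPolynomial (Fin m) F)
    (hd : ∀ i, (g i).totalDegree < d) (h : ∀ i, x i ^ d = MvPolynomial.aeval x (g i)) (N : ℕ) :
    ∀ a : Fin m →₀ ℕ, a.degree = N → monVal x a ∈
      Submodule.span F (Set.range fun b : Fin m → Fin d => ∏ i, x i ^ (b i : ℕ)) := by
  induction N using Nat.strong_induction_on with
  | _ N ih =>
    intro a ha
    by_cases hlt : ∀ i, a i < d
    · exact Submodule.subset_span ⟨fun i => ⟨a i, hlt i⟩, rfl⟩
    · push Not at hlt
      obtain ⟨i, hi⟩ := hlt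
      have hle : Finsupp.single i d ≤ a := by
        rw [Finsupp.single_le_iff]; exact hi
      have hsplit : a = Finsupp.single i d + (a - Finsupp.single i d) :=
        (add_tsub_cancel_of_le hle).symm
      set a' := a - Finsupp.single i d with ha'
      have hdeg : a.degree = d + a'.degree := by
        conv_lhs => rw [hsplit]
        rw [map_add, Finsupp.degree_single]
      rw [hsplit, monVal_add, monVal_single, h i, (g i).as_sum, map_sum, Finset.sum_mul]
      refine Submodule.sum_mem _ fun b hb => ?_
      rw [aeval_monomial_eq, smul_mul_assoc, ← monVal_add]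
      refine Submodule.smul_mem _ _ ?_
      have hb' : b.degree ≤ (g i).totalDegree := by
        exact MvPolynomial.le_totalDegree hb
      refine ih (b + a').degree ?_ _ rfl
      rw [map_add]
      have := hd i
      omega

theorem isAlgebraic_of_system {F L : Type*} [Field F] [Field L] [Algebra F L] {m d : ℕ}
    (x : Fin m → L) (g : Fin m → MvPolynomial (Fin m) F) (hd : ∀ i, (g i).totalDegree < d)
    (h : ∀ i, x i ^ d = MvPolynomial.aeval x (g i)) (i : Fin m) : IsAlgebraic F (x i) := by
  set S := Submodule.span F (Set.range fun b : Fin m → Fin d => ∏ i, x i ^ (b i : ℕ)) with hS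
  have hfg : S.FG := Submodule.fg_span (Set.finite_range _)
  have hle : Subalgebra.toSubmodule (Algebra.adjoin F (Set.range x)) ≤ S := by
    intro y hy
    rw [Subalgebra.mem_toSubmodule, Algebra.adjoin_range_eq_range_aeval] at hy
    obtain ⟨p, rfl⟩ := hy
    show MvPolynomial.aeval x p ∈ S
    rw [p.as_sum, map_sum]
    refine Submodule.sum_mem _ fun b _ => ?_
    rw [aeval_monomial_eq]
    exact Submodule.smul_mem _ _ (monVal_mem x g hd h _ b rfl)
  have hge : S ≤ Subalgebra.toSubmodule (Algebra.adjoin F (Set.range x)) := by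
    refine Submodule.span_le.2 ?_
    rintro _ ⟨b, rfl⟩
    show ∏ i, x i ^ (b i : ℕ) ∈ Algebra.adjoin F (Set.range x)
    exact Subalgebra.prod_mem _ fun j _ => Subalgebra.pow_mem _
      (Algebra.subset_adjoin (Set.mem_range_self j)) _
  have heq := le_antisymm hle hge
  have hint : IsIntegral F (x i) := by
    refine IsIntegral.of_mem_of_fg (Algebra.adjoin F (Set.range x)) ?_ _
      (Algebra.subset_adjoin (Set.mem_range_self i))
    rw [heq]; exact hfg
  exact hint.isAlgebraic

end Sys

section Coeff

variable {F L : Type*} [Field F] [Field L] [Algebra F L]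

/-- the coefficients of a product of linear factors with algebraic roots are algebraic -/
theorem isAlgebraic_coeff_prod {m : ℕ} (x : Fin m → L) (hx : ∀ i, IsAlgebraic F (x i)) (k : ℕ) :
    IsAlgebraic F ((∏ i, (X - C (x i))).coeff k) := by
  have hx' : ∀ i, x i ∈ integralClosure F L := fun i => (hx i).isIntegral
  have h1 : (∏ i, (X - C (x i))) =
      (∏ i, (X - C (⟨x i, hx' i⟩ : integralClosure F L))).map
        (algebraMap (integralClosure F L) L) := by
    rw [Polynomial.map_prod]
    refine Finset.prod_congr rfl fun i _ => ?_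
    rw [Polynomial.map_sub, map_X, map_C]
    rfl
  rw [h1, coeff_map]
  exact IsIntegral.isAlgebraic (Subtype.property _)

theorem eval_bar_prod {m : ℕ} (x : Fin m → L) (y : L) :
    (bar m (∏ i, (X - C (x i)))).eval y = ∏ i, (y + x i) := by
  rw [bar, eval_mul, eval_pow, Polynomial.eval_neg, eval_one]
  rw [eval_neg, eval_prod]
  have h1 : ((-1 : L)) ^ m = ∏ _i : Fin m, (-1 : L) := by simp
  rw [h1, ← Finset.prod_mul_distrib]
  refine Finset.prod_congr rfl fun i _ => ?_
  simp only [eval_sub, eval_X, eval_C]
  ring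

/-- the polynomial `(1/2) v(X_i) ∏_j (X_i + X_j)` -/
noncomputable def gPoly (m : ℕ) (v : F[X]) (i : Fin m) : MvPolynomial (Fin m) F :=
  MvPolynomial.C (1 / 2) * (aeval (MvPolynomial.X i : MvPolynomial (Fin m) F) v *
    ∏ j, (MvPolynomial.X i + MvPolynomial.X j))

theorem totalDegree_gPoly (m : ℕ) (v : F[X]) (i : Fin m) :
    (gPoly m v i).totalDegree ≤ v.natDegree + m := by
  rw [gPoly]
  refine (MvPolynomial.totalDegree_mul _ _).trans ?_
  rw [MvPolynomial.totalDegree_C, zero_add]
  refine (MvPolynomial.totalDegree_mul _ _).trans (add_le_add ?_ ?_)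
  · rw [aeval_eq_sum_range]
    refine (MvPolynomial.totalDegree_finsetSum _ _).trans ?_
    refine Finset.sup_le fun k hk => ?_
    refine (MvPolynomial.totalDegree_smul_le _ _).trans ?_
    refine (MvPolynomial.totalDegree_pow _ _).trans ?_
    rw [MvPolynomial.totalDegree_X, mul_one]
    exact Nat.lt_succ_iff.1 (Finset.mem_range.1 hk)
  · refine (MvPolynomial.totalDegree_finsetProd _ _).trans ?_
    refine (Finset.sum_le_card_nsmul _ _ 1 fun j _ => ?_).trans ?_
    · refine (MvPolynomial.totalDegree_add _ _).trans ?_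
      rw [MvPolynomial.totalDegree_X, MvPolynomial.totalDegree_X, max_self]
    · simp

theorem aeval_gPoly {m : ℕ} (v : F[X]) (x : Fin m → L) (i : Fin m) :
    MvPolynomial.aeval x (gPoly m v i) =
      algebraMap F L (1 / 2) * ((v.map (algebraMap F L)).eval (x i) * ∏ j, (x i + x j)) := by
  rw [gPoly, map_mul, map_mul, map_prod, MvPolynomial.aeval_C]
  congr 2
  · rw [← Polynomial.aeval_algHom_apply, MvPolynomial.aeval_X, aeval_def, eval_map]
  · refine Finset.prod_congr rfl fun j _ => ?_
    rw [map_add, MvPolynomial.aeval_X, MvPolynomial.aeval_X]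

end Coeff

theorem exists_roots {L : Type*} [Field L] [IsAlgClosed L] {P : L[X]} (hP : P.Monic) {m : ℕ}
    (hm : P.natDegree = m) : ∃ x : Fin m → L, P = ∏ i, (X - C (x i)) := by
  have hs := IsAlgClosed.splits P
  have hcard : Multiset.card P.roots = m := by
    rw [← hm]; exact hs.natDegree_eq_card_roots.symm
  have hl : P.roots.toList.length = m := by rw [Multiset.length_toList, hcard]
  refine ⟨fun i => P.roots.toList.get (i.cast hl.symm), ?_⟩
  have h1 := hs.eq_prod_roots_of_monic hP
  conv_lhs => rw [h1, ← Multiset.coe_toList P.roots]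
  rw [Multiset.map_coe, Multiset.prod_coe]
  subst hl
  rw [← List.prod_ofFn]
  congr 1
  conv_lhs => rw [← List.ofFn_get P.roots.toList, List.map_ofFn]
  rfl

theorem isAlgebraic_coeff_C {F L : Type*} [Field F] [CharZero F] [Field L] [Algebra F L]
    {m n : ℕ} {v : F[X]} (hv : v.natDegree + m ≤ 2 * n) {P : L[X]} (hP : P.Monic)
    (hm : P.natDegree = m) (h : P * bar m P ∣ polyC m n (v.map (algebraMap F L)) P) (i : ℕ) :
    IsAlgebraic F (P.coeff i) := by
  let L' := AlgebraicClosure L
  let f : L →+* L' := algebraMap L L'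
  have hP' : (P.map f).Monic := hP.map f
  have hm' : (P.map f).natDegree = m := by rw [hP.natDegree_map, hm]
  have h' : P.map f * bar m (P.map f) ∣ polyC m n (v.map (algebraMap F L')) (P.map f) := by
    have h1 := Polynomial.map_dvd f h
    rw [Polynomial.map_mul, map_bar, map_polyC, Polynomial.map_map] at h1
    rwa [show f.comp (algebraMap F L) = algebraMap F L' from
      (IsScalarTower.algebraMap_eq F L L').symm] at h1
  obtain ⟨x, hx⟩ := exists_roots hP' hm'
  have h2 : (2 : F) ≠ 0 := two_ne_zero
  have hsys : ∀ i, x i ^ (2 * n + 1) = MvPolynomial.aeval x (gPoly m v i) := by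
    intro i
    have h3 : (polyC m n (v.map (algebraMap F L')) (P.map f)).eval (x i) = 0 := by
      obtain ⟨q, hq⟩ := h'
      rw [hq, eval_mul, eval_mul]
      have h4 : (P.map f).eval (x i) = 0 := by
        rw [hx, eval_prod]
        exact Finset.prod_eq_zero (Finset.mem_univ i) (by simp)
      rw [h4, zero_mul, zero_mul]
    have h4 : (P.map f).eval (x i) = 0 := by
      rw [hx, eval_prod]
      exact Finset.prod_eq_zero (Finset.mem_univ i) (by simp)
    rw [polyC, eval_add, eval_sub, eval_mul, eval_mul, eval_mul, eval_mul, h4, mul_zero, mul_zero,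
      add_zero, eval_pow, eval_X, hx, eval_bar_prod] at h3
    rw [aeval_gPoly]
    have h5 : algebraMap F L' (1 / 2) * 2 = 1 := by
      rw [← map_ofNat (algebraMap F L') 2, ← map_mul, one_div, inv_mul_cancel₀ h2, map_one]
    have h6 : (2 : L'[X]).eval (x i) = 2 := by simp
    rw [h6] at h3
    rw [← sub_eq_zero.1 h3, ← mul_assoc, h5, one_mul]
  have halg : ∀ i, IsAlgebraic F (x i) := fun i =>
    isAlgebraic_of_system x (gPoly m v) (d := 2 * n + 1)
      (fun i => (totalDegree_gPoly m v i).trans_lt (by omega)) hsys i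
  have h7 : IsAlgebraic F ((P.map f).coeff i) := by
    rw [hx]; exact isAlgebraic_coeff_prod x halg i
  rw [coeff_map] at h7
  exact (isAlgebraic_algebraMap_iff (algebraMap L L').injective).1 h7

theorem isAlgebraic_coeff_B {F L : Type*} [Field F] [CharZero F] [Field L] [Algebra F L]
    {m n : ℕ} {v : F[X]} (hv : v.natDegree + m < 2 * n) {P : L[X]} (hP : P.Monic)
    (hm : P.natDegree = m) (h : P * bar m P ∣ polyB m n (v.map (algebraMap F L)) P) (i : ℕ) :
    IsAlgebraic F (P.coeff i) := by
  let L' := AlgebraicClosure L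
  let f : L →+* L' := algebraMap L L'
  have hP' : (P.map f).Monic := hP.map f
  have hm' : (P.map f).natDegree = m := by rw [hP.natDegree_map, hm]
  have h' : P.map f * bar m (P.map f) ∣ polyB m n (v.map (algebraMap F L')) (P.map f) := by
    have h1 := Polynomial.map_dvd f h
    rw [Polynomial.map_mul, map_bar, map_polyB, Polynomial.map_map] at h1
    rwa [show f.comp (algebraMap F L) = algebraMap F L' from
      (IsScalarTower.algebraMap_eq F L L').symm] at h1
  obtain ⟨x, hx⟩ := exists_roots hP' hm'
  have h2 : (2 : F) ≠ 0 := two_ne_zero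
  have hsys : ∀ i, x i ^ (2 * n) = MvPolynomial.aeval x (gPoly m v i) := by
    intro i
    have h4 : (P.map f).eval (x i) = 0 := by
      rw [hx, eval_prod]
      exact Finset.prod_eq_zero (Finset.mem_univ i) (by simp)
    have h3 : (polyB m n (v.map (algebraMap F L')) (P.map f)).eval (x i) = 0 := by
      obtain ⟨q, hq⟩ := h'
      rw [hq, eval_mul, eval_mul, h4, zero_mul, zero_mul]
    rw [polyB, eval_sub, eval_sub, eval_mul, eval_mul, eval_mul, eval_mul, h4, mul_zero, mul_zero,
      sub_zero, eval_pow, eval_X, hx, eval_bar_prod] at h3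
    rw [aeval_gPoly]
    have h5 : algebraMap F L' (1 / 2) * 2 = 1 := by
      rw [← map_ofNat (algebraMap F L') 2, ← map_mul, one_div, inv_mul_cancel₀ h2, map_one]
    have h6 : (2 : L'[X]).eval (x i) = 2 := by simp
    rw [h6] at h3
    rw [← sub_eq_zero.1 h3, ← mul_assoc, h5, one_mul]
  have halg : ∀ i, IsAlgebraic F (x i) := fun i =>
    isAlgebraic_of_system x (gPoly m v) (d := 2 * n)
      (fun i => (totalDegree_gPoly m v i).trans_lt (by omega)) hsys i
  have h7 : IsAlgebraic F ((P.map f).coeff i) := by
    rw [hx]; exact isAlgebraic_coeff_prod x halg i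
  rw [coeff_map] at h7
  exact (isAlgebraic_algebraMap_iff (algebraMap L L').injective).1 h7

end Pool.Agent.Helper72.Iso
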