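import Pool.Agent.Helper72.Iso.Basic

open Polynomial

namespace Pool.Agent.Helper72.Iso

/-! ## Module ART (finiteness criterion) -/

theorem finite_of_points {F A : Type*} [Field F] [CommRing A] [Algebra F A]
    [Algebra.FiniteType F A]
    (h : ∀ (p : Ideal A) [p.IsPrime], Algebra.IsAlgebraic F (A ⧸ p)) : Module.Finite F A := by
  rw [Module.finite_iff_krullDimLE_zero, Ring.krullDimLE_zero_iff]
  intro I hI
  have h1 := h I
  have h2 : Algebra.IsIntegral F (A ⧸ I) := Algebra.isAlgebraic_iff_isIntegral.1 h1
  exact Ideal.Quotient.maximal_of_isField I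
    (isField_of_isIntegral_of_isField' (R := F) (Field.toIsField F))

end Pool.Agent.Helper72.Iso
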