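import Pool.Agent.Helper72.Iso.FldC

/-!
The algebra of type `B` is semisimple.
-/

open Polynomial

namespace Pool.Agent.Helper72.Iso

section shift

variable {A : Type*} [CommRing A]

theorem bar_X_mul (m : ℕ) (R : A[X]) : bar (m + 1) (X * R) = X * bar m R := by
  rw [bar, bar, neg_mul, neg_X]; ring

theorem polyB_X_mul (m n : ℕ) (v R : A[X]) :
    polyB (m + 1) (n + 1) v (X * R) = X * polyC m n v R := by
  rw [polyB, polyC, bar_X_mul]; ring

theorem dvd_polyC_of_zero {m n : ℕ} {v R : A[X]}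
    (h : X * R * bar (m + 1) (X * R) ∣ polyB (m + 1) (n + 1) v (X * R)) :
    R * bar m R ∣ polyC m n v R := by
  obtain ⟨Q, hQ⟩ := h
  rw [polyB_X_mul, bar_X_mul] at hQ
  have h1 : X * polyC m n v R = X * (R * bar m R * (X * Q)) := by rw [hQ]; ring
  have h2 := (monic_X (R := A)).isRegular.left h1
  exact ⟨X * Q, h2⟩

theorem exists_q {m n : ℕ} (hn : 1 ≤ n) {v P : A[X]} (h : P * bar m P ∣ polyB m n v P) :
    ∃ q : A, P.coeff 0 * (P.coeff 0 * q + 2 * v.coeff 0) = 0 := by
  obtain ⟨Q, hQ⟩ := h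
  refine ⟨Q.coeff 0, ?_⟩
  have h1 := congrArg (eval 0) hQ
  have h3 : (0 : A) ^ (2 * n) = 0 := zero_pow (by omega)
  have h4 : ((-1 : A) ^ m) * (-1) ^ m = 1 := by rw [← mul_pow]; simp
  simp only [polyB, bar, eval_sub, eval_mul, eval_pow, eval_X, eval_neg, h3,
    eval_neg, eval_one, mul_zero, zero_sub, _root_.neg_zero, ← coeff_zero_eq_eval_zero,
    Polynomial.eval_neg] at h1
  linear_combination (-(-1) ^ m) * h1 - (P.coeff 0 * (P.coeff 0 * Q.coeff 0 + 2 * v.coeff 0)) * h4

theorem monicPoly_succ_of_zero {m : ℕ} (y : Fin (m + 1) → A) (h0 : y 0 = 0) :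
    monicPoly (m + 1) y = X * monicPoly m fun i => y i.succ := by
  rw [monicPoly, monicPoly, Fin.sum_univ_succ, h0, mul_add, Finset.mul_sum]
  simp only [map_zero, zero_mul, zero_add, Fin.val_succ]
  congr 1
  · ring
  · exact Finset.sum_congr rfl fun i _ => by ring

end shift

theorem isSemisimpleRing_of_isField {R : Type*} [CommRing R] (h : IsField R) :
    IsSemisimpleRing R := by
  let _ := h.toField
  exact inferInstance

/-- a commutative ring splits along `a b = 0` with `a`, `b` coprime -/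
theorem isSemisimpleRing_of_split {A : Type*} [CommRing A] (a b : A) (hab : a * b = 0)
    (hc : IsCoprime a b) (h1 : IsSemisimpleRing (A ⧸ Ideal.span {a}))
    (h2 : IsSemisimpleRing (A ⧸ Ideal.span {b})) : IsSemisimpleRing A := by
  have hI : IsCoprime (Ideal.span {a}) (Ideal.span {b}) := by
    rwa [Ideal.isCoprime_span_singleton_iff]
  have h0 : Ideal.span {a} * Ideal.span {b} = (⊥ : Ideal A) := by
    rw [Ideal.span_singleton_mul_span_singleton, hab, Ideal.span_singleton_eq_bot]
  let e := (RingEquiv.quotientBot A).symm.trans ((Ideal.quotEquivOfEq h0.symm).trans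
    (Ideal.quotientMulEquivQuotientProd _ _ hI))
  exact e.symm.isSemisimpleRing

theorem aeval_mk_surjective {F A ι : Type*} [Field F] [CommRing A] [Algebra F A] (y : ι → A)
    (hy : Function.Surjective (MvPolynomial.aeval (R := F) y)) (I : Ideal A) :
    Function.Surjective (MvPolynomial.aeval (R := F) fun i => Ideal.Quotient.mk I (y i)) := by
  intro b
  obtain ⟨a, rfl⟩ := Ideal.Quotient.mk_surjective b
  obtain ⟨p, rfl⟩ := hy a
  refine ⟨p, ?_⟩
  have h := MvPolynomial.comp_aeval (R := F) (f := y) (Ideal.Quotient.mkₐ F I)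
  exact (congrArg (fun g => g p) h).symm

theorem relB_mk {F A : Type*} [Field F] [CommRing A] [Algebra F A] {m n : ℕ} {v : F[X]}
    {y : Fin m → A} (h : monicPoly m y * bar m (monicPoly m y) ∣
      polyB m n (v.map (algebraMap F A)) (monicPoly m y)) (I : Ideal A) :
    (monicPoly m fun i => Ideal.Quotient.mk I (y i)) *
        bar m (monicPoly m fun i => Ideal.Quotient.mk I (y i)) ∣
      polyB m n (v.map (algebraMap F (A ⧸ I))) (monicPoly m fun i => Ideal.Quotient.mk I (y i)) := by
  have h1 := Polynomial.map_dvd (Ideal.Quotient.mk I) h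
  rw [Polynomial.map_mul, map_bar, map_polyB, map_monicPoly, Polynomial.map_map] at h1
  exact h1

section quotient

variable {K : Type*} [Field K] [CharZero K] {s m n : ℕ} {A : Type*} [CommRing A]
  [Algebra (Par K s) A]

/-- the part `y_0 = 0` of type B is a quotient of type C -/
theorem isSemisimpleRing_quot_C (hms : m ≤ s) (hs : 1 ≤ s)
    (hn : s + m ≤ 2 * n + 1) (y : Fin (m + 1) → A)
    (hy : Function.Surjective (MvPolynomial.aeval (R := Par K s) y))
    (hrel : monicPoly (m + 1) y * bar (m + 1) (monicPoly (m + 1) y) ∣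
      polyB (m + 1) (n + 1) ((genV K s).map (algebraMap (Par K s) A)) (monicPoly (m + 1) y))
    (h0 : y 0 = 0) : IsSemisimpleRing A := by
  rw [monicPoly_succ_of_zero y h0] at hrel
  obtain ⟨φ, hφ, hφy⟩ := exists_ringHom_C (F := Par K s) (v := genV K s) (n := n) (m := m)
    (algebraMap (Par K s) A) (fun i => y i.succ) (dvd_polyC_of_zero hrel)
  have := isSemisimpleRing_of_isField (isField_AlgC (K := K) hms hs hn)
  refine RingHom.isSemisimpleRing_of_surjective φ fun a => ?_
  obtain ⟨p, rfl⟩ := hy a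
  induction p using MvPolynomial.induction_on with
  | C a => exact ⟨_, (hφ a).trans (MvPolynomial.aeval_C _ _).symm⟩
  | add p q hp hq =>
    obtain ⟨x, hx⟩ := hp
    obtain ⟨z, hz⟩ := hq
    exact ⟨x + z, by rw [map_add, map_add, hx, hz]⟩
  | mul_X p i hp =>
    obtain ⟨x, hx⟩ := hp
    rw [map_mul, MvPolynomial.aeval_X, ← hx]
    refine Fin.cases ?_ (fun j => ?_) i
    · exact ⟨0, by rw [h0, mul_zero, map_zero]⟩
    · exact ⟨x * yC _ _ _ _ j, by rw [map_mul, hφy]⟩

end quotient

section typeB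

variable {K : Type*} [Field K] [CharZero K] {m t n : ℕ} {A : Type*} [CommRing A]
  [Algebra (Par K (m + 1 + t)) A] [Algebra K A] [IsScalarTower K (Par K (m + 1 + t)) A]
  [Algebra.FiniteType (Par K (m + 1 + t)) A]

omit [CharZero K] in
theorem coeff_genV {s : ℕ} (hs : 0 < s) {B : Type*} [CommRing B] (f : Par K s →+* B) :
    ((genV K s).map f).coeff 0 = f (vF K s ⟨0, hs⟩) := by
  rw [genV_map, coeff_ofCoeffs, dif_pos hs]

theorem isSemisimpleRing_of_relB (hn : m + 1 + t + m ≤ 2 * n + 1) (y : Fin (m + 1) → A)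
    (hy : Function.Surjective (MvPolynomial.aeval (R := Par K (m + 1 + t)) y))
    (hrel : monicPoly (m + 1) y * bar (m + 1) (monicPoly (m + 1) y) ∣
      polyB (m + 1) (n + 1) ((genV K (m + 1 + t)).map (algebraMap (Par K (m + 1 + t)) A))
        (monicPoly (m + 1) y))
    (hs : 1 ≤ m + 1 + t) (hn' : m + 1 + t + (m + 1) ≤ 2 * (n + 1))
    (θ : A →+* RF K t (m + 1))
    (hθ : ∀ f, θ (algebraMap (Par K (m + 1 + t)) A f) = iB hs hn' f)
    (hθy : ∀ i, θ (y i) = yR K t (m + 1) i) : IsSemisimpleRing A := by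
  obtain ⟨q, hq⟩ := exists_q (by omega) hrel
  rw [show (monicPoly (m + 1) y).coeff 0 = y 0 from coeff_monicPoly y 0,
    coeff_genV (by omega)] at hq
  set v0 : A := algebraMap (Par K (m + 1 + t)) A (vF K (m + 1 + t) ⟨0, by omega⟩) with hv0
  have hv0u : IsUnit (2 * v0) := by
    refine (isUnit_two_of_algebra (Par K (m + 1 + t)) A).mul ?_
    rw [hv0]
    refine IsUnit.map _ (isUnit_iff_ne_zero.2 ?_)
    exact (algebraicIndependent_vF (K := K) (m + 1 + t)).ne_zero _
  refine isSemisimpleRing_of_split (y 0) (y 0 * q + 2 * v0) hq ?_ ?_ ?_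
  · obtain ⟨u, hu⟩ := hv0u
    refine ⟨-(↑u⁻¹ * q), ↑u⁻¹, ?_⟩
    have h1 : (↑u⁻¹ : A) * (2 * v0) = 1 := by rw [← hu, Units.inv_mul]
    linear_combination h1
  · set I := Ideal.span {y 0} with hI
    refine isSemisimpleRing_quot_C (K := K) (s := m + 1 + t) (n := n) (A := A ⧸ I) (by omega)
      (by omega) hn (fun i => Ideal.Quotient.mk I (y i)) ?_ ?_ ?_
    · exact aeval_mk_surjective y hy I
    · exact relB_mk hrel I
    · exact Ideal.Quotient.eq_zero_iff_mem.2 (Ideal.mem_span_singleton_self _)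
  · set J := Ideal.span {y 0 * q + 2 * v0} with hJ
    have hJ0 : θ (y 0 * q + 2 * v0) = 0 := by
      have h1 := congrArg θ hq
      rw [map_mul, map_zero, hθy] at h1
      exact (mul_eq_zero.1 h1).resolve_left
        ((algebraicIndependent_xy (K := K) (t := t) (m := m + 1)).ne_zero (Sum.inr 0))
    have hJθ : ∀ a ∈ J, θ a = 0 := by
      intro a ha
      obtain ⟨b, rfl⟩ := Ideal.mem_span_singleton'.1 ha
      rw [map_mul, hJ0, mul_zero]
    have hmk : Ideal.Quotient.mk J (y 0) * Ideal.Quotient.mk J q =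
        -Ideal.Quotient.mk J (2 * v0) := by
      have h1 : Ideal.Quotient.mk J (y 0 * q + 2 * v0) = 0 :=
        Ideal.Quotient.eq_zero_iff_mem.2 (Ideal.mem_span_singleton_self _)
      rw [map_add, map_mul] at h1
      linear_combination h1
    have hu : IsUnit (Ideal.Quotient.mk J (y 0)) := by
      refine isUnit_of_mul_isUnit_left (y := Ideal.Quotient.mk J q) ?_
      rw [hmk]
      exact (hv0u.map _).neg
    refine isSemisimpleRing_of_isField ?_
    refine isField_of_relB (K := K) (m := m + 1) (t := t) (n := n + 1) (A := A ⧸ J) hs hn'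
      (Nat.succ_pos m) (fun i => Ideal.Quotient.mk J (y i)) (aeval_mk_surjective y hy J)
      (relB_mk hrel J) hu (Ideal.Quotient.lift J θ hJθ) (fun f => ?_) (fun i => ?_)
    · exact (Ideal.Quotient.lift_mk J θ hJθ).trans (hθ f)
    · exact (Ideal.Quotient.lift_mk J θ hJθ).trans (hθy i)

end typeB

section main

variable {K : Type*} [Field K] [CharZero K]

theorem isSemisimpleRing_AlgB_aux {m t n : ℕ} (hn : m + 1 + t + (m + 1) ≤ 2 * (n + 1)) :
    IsSemisimpleRing (AlgB (Par K (m + 1 + t)) (m + 1) (n + 1) (genV K (m + 1 + t))) := by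
  have hs : 1 ≤ m + 1 + t := by omega
  have hex := exists_ringHom_B (F := Par K (m + 1 + t)) (v := genV K (m + 1 + t)) (n := n + 1)
    (m := m + 1) (iB hs hn) (yR K t (m + 1)) (relB_RF hs hn)
  have hrel := relB (F := Par K (m + 1 + t)) (v := genV K (m + 1 + t)) (n := n + 1) (m := m + 1)
  have hy := aeval_yB_surjective (F := Par K (m + 1 + t)) (v := genV K (m + 1 + t)) (n := n + 1)
    (m := m + 1)
  obtain ⟨θ, hθ, hθy⟩ := hex
  exact isSemisimpleRing_of_relB (by omega) (yB _ _ _ _) hy hrel hs hn θ hθ hθy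

theorem finite_AlgB {s m n : ℕ} (hs : 1 ≤ s) (hn : s + m ≤ 2 * n) :
    Module.Finite (Par K s) (AlgB (Par K s) m n (genV K s)) :=
  finite_of_relB (yB _ _ _ _) aeval_yB_surjective relB hs hn

/-- **Type B**: for `m ≤ s` and `s + m ≤ 2 n` the algebra of type B over
`K(v_0, …, v_{s-1})` is semisimple and finite. -/
theorem isSemisimpleRing_AlgB {s m n : ℕ} (hms : m ≤ s)
    (hs : 1 ≤ s) (hn : s + m ≤ 2 * n) :
    IsSemisimpleRing (AlgB (Par K s) m n (genV K s)) ∧
      Module.Finite (Par K s) (AlgB (Par K s) m n (genV K s)) := by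
  refine ⟨?_, finite_AlgB hs hn⟩
  rcases m with _ | m
  · -- a quotient of the field
    have hy := aeval_yB_surjective (F := Par K s) (v := genV K s) (n := n) (m := 0)
    refine RingHom.isSemisimpleRing_of_surjective
      (algebraMap (Par K s) (AlgB (Par K s) 0 n (genV K s))) fun a => ?_
    obtain ⟨p, rfl⟩ := hy a
    obtain ⟨c, rfl⟩ := MvPolynomial.C_surjective (R := Par K s) (Fin 0) p
    exact ⟨c, (MvPolynomial.aeval_C _ _).symm⟩
  · obtain ⟨t, rfl⟩ := Nat.exists_eq_add_of_le hms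
    obtain ⟨n, rfl⟩ : ∃ k, n = k + 1 := ⟨n - 1, by omega⟩
    exact isSemisimpleRing_AlgB_aux hn

end main

end Pool.Agent.Helper72.Iso
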