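import Pool.Agent.Helper72.Iso.Defs

open Polynomial

namespace Pool.Agent.Helper72.Iso

section Basic

variable {A B : Type*} [CommRing A] [CommRing B]

theorem neg_def (p : A[X]) : neg p = p.comp (-X) := rfl

@[simp] theorem neg_add (p q : A[X]) : neg (p + q) = neg p + neg q := by simp [neg]

@[simp] theorem neg_sub (p q : A[X]) : neg (p - q) = neg p - neg q := by simp [neg]

@[simp] theorem neg_mul (p q : A[X]) : neg (p * q) = neg p * neg q := by simp [neg]

@[simp] theorem neg_pow (p : A[X]) (k : ℕ) : neg (p ^ k) = neg p ^ k := by simp [neg]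

@[simp] theorem neg_X : neg (X : A[X]) = -X := by simp [neg]

@[simp] theorem neg_C (a : A) : neg (C a) = C a := by simp [neg]

@[simp] theorem neg_one : neg (1 : A[X]) = 1 := by simp [neg]

@[simp] theorem neg_zero : neg (0 : A[X]) = 0 := by simp [neg]

@[simp] theorem neg_two : neg (2 : A[X]) = 2 := by simp [neg]

@[simp] theorem neg_neg_poly (p : A[X]) : neg (neg p) = p := by
  simp [neg, comp_assoc]

theorem neg_uminus (p : A[X]) : neg (-p) = -neg p := by simp [neg]

theorem coeff_neg (p : A[X]) (k : ℕ) : (neg p).coeff k = (-1) ^ k * p.coeff k := by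
  induction p using Polynomial.induction_on' with
  | add p q hp hq => simp [hp, hq, mul_add]
  | monomial n a =>
    rw [← C_mul_X_pow_eq_monomial]
    simp only [neg_mul, neg_C, neg_pow, neg_X]
    rw [show (-X : A[X]) ^ n = C ((-1) ^ n) * X ^ n by
      rw [← neg_one_mul, mul_pow]; simp]
    rw [← mul_assoc, ← C_mul, coeff_C_mul_X_pow, coeff_C_mul_X_pow]
    split_ifs with h
    · subst h; ring
    · simp

@[simp] theorem eval_neg (p : A[X]) (x : A) : (neg p).eval x = p.eval (-x) := by
  simp [neg, eval_comp]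

theorem natDegree_neg_poly (p : A[X]) : (neg p).natDegree = p.natDegree := by
  have h : ∀ q : A[X], (neg q).natDegree ≤ q.natDegree := fun q => by
    refine natDegree_le_iff_coeff_eq_zero.2 fun k hk => ?_
    rw [coeff_neg, coeff_eq_zero_of_natDegree_lt hk, mul_zero]
  refine le_antisymm (h p) ?_
  simpa using h (neg p)

theorem map_neg_poly (f : A →+* B) (p : A[X]) : (neg p).map f = neg (p.map f) := by
  simp [neg, Polynomial.map_comp]

theorem map_bar (f : A →+* B) (m : ℕ) (p : A[X]) : (bar m p).map f = bar m (p.map f) := by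
  simp [bar, map_neg_poly]

theorem map_polyC (f : A →+* B) (m n : ℕ) (v p : A[X]) :
    (polyC m n v p).map f = polyC m n (v.map f) (p.map f) := by
  simp [polyC, map_bar, map_neg_poly]

theorem map_polyB (f : A →+* B) (m n : ℕ) (v p : A[X]) :
    (polyB m n v p).map f = polyB m n (v.map f) (p.map f) := by
  simp [polyB, map_bar, map_neg_poly]

theorem map_monicPoly (f : A →+* B) (m : ℕ) (y : Fin m → A) :
    (monicPoly m y).map f = monicPoly m fun i => f (y i) := by
  simp [monicPoly, Polynomial.map_sum]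

theorem map_ofCoeffs (f : A →+* B) {s : ℕ} (v : Fin s → A) :
    (ofCoeffs v).map f = ofCoeffs fun i => f (v i) := by
  simp [ofCoeffs, Polynomial.map_sum]

theorem coeff_ofCoeffs {s : ℕ} (v : Fin s → A) (k : ℕ) :
    (ofCoeffs v).coeff k = if h : k < s then v ⟨k, h⟩ else 0 := by
  simp only [ofCoeffs, finsetSum_coeff, coeff_C_mul_X_pow]
  split_ifs with h
  · rw [Finset.sum_eq_single ⟨k, h⟩]
    · simp
    · intro i _ hi
      rw [if_neg]
      intro h'
      exact hi (Fin.ext h'.symm)
    · simp
  · refine Finset.sum_eq_zero fun i _ => if_neg fun h' => h ?_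
    have := i.2
    omega

theorem degree_ofCoeffs_lt {s : ℕ} (v : Fin s → A) : (ofCoeffs v).degree < s := by
  refine (degree_lt_iff_coeff_zero _ _).2 fun k hk => ?_
  rw [coeff_ofCoeffs, dif_neg (not_lt.2 hk)]

theorem monicPoly_eq {m : ℕ} (y : Fin m → A) : monicPoly m y = X ^ m + ofCoeffs y := rfl

theorem monic_monicPoly {m : ℕ} (y : Fin m → A) : (monicPoly m y).Monic := by
  nontriviality A
  rw [monicPoly_eq]
  refine monic_X_pow_add ?_
  exact degree_ofCoeffs_lt y

theorem natDegree_monicPoly [Nontrivial A] {m : ℕ} (y : Fin m → A) :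
    (monicPoly m y).natDegree = m := by
  rw [monicPoly_eq]
  rw [natDegree_add_eq_left_of_degree_lt]
  · simp
  · rw [degree_X_pow]; exact degree_ofCoeffs_lt y

theorem coeff_monicPoly {m : ℕ} (y : Fin m → A) (i : Fin m) :
    (monicPoly m y).coeff i = y i := by
  rw [monicPoly_eq, coeff_add, coeff_X_pow, if_neg i.2.ne, zero_add, coeff_ofCoeffs, dif_pos i.2]

/-- A monic polynomial of degree `m` is `monicPoly m` of its coefficients. -/
theorem monicPoly_coeff {m : ℕ} {P : A[X]} (hP : P.Monic) (hm : P.natDegree = m) :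
    monicPoly m (fun i => P.coeff i) = P := by
  ext k
  rw [monicPoly_eq, coeff_add, coeff_X_pow, coeff_ofCoeffs]
  rcases lt_trichotomy k m with h | h | h
  · rw [if_neg h.ne, dif_pos h, zero_add]
  · subst h; rw [if_pos rfl, dif_neg (lt_irrefl _), add_zero, ← hm]; exact hP.symm
  · rw [if_neg h.ne', dif_neg (by omega), add_zero, coeff_eq_zero_of_natDegree_lt (by omega)]

theorem monic_neg_mul {P : A[X]} (hP : P.Monic) {m : ℕ} (hm : P.natDegree = m) :
    (bar m P).Monic := by
  nontriviality A
  rw [bar, Monic.def, leadingCoeff]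
  have h1 : ((-1 : A[X]) ^ m * neg P) = C ((-1) ^ m) * neg P := by simp
  have h2 : ((-1 : A[X]) ^ m * neg P).natDegree ≤ m := by
    rw [h1]; exact (natDegree_C_mul_le _ _).trans (by rw [natDegree_neg_poly, hm])
  have h3 : ((-1 : A[X]) ^ m * neg P).coeff m = 1 := by
    rw [h1, coeff_C_mul, coeff_neg, ← mul_assoc, ← pow_add, Even.neg_one_pow ⟨m, rfl⟩, one_mul, ← hm]
    exact hP
  have h4 : ((-1 : A[X]) ^ m * neg P).natDegree = m :=
    le_antisymm h2 (le_natDegree_of_ne_zero (by rw [h3]; exact one_ne_zero))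
  rw [h4, h3]

theorem monic_bar {P : A[X]} (hP : P.Monic) {m : ℕ} (hm : P.natDegree = m) :
    (bar m P).Monic := monic_neg_mul hP hm

theorem natDegree_bar [Nontrivial A] {P : A[X]} (hP : P.Monic) {m : ℕ} (hm : P.natDegree = m) :
    (bar m P).natDegree = m := by
  · rw [bar]
    have h1 : ((-1 : A[X]) ^ m * neg P) = C ((-1) ^ m) * neg P := by simp
    refine le_antisymm ?_ ?_
    · rw [h1]; exact (natDegree_C_mul_le _ _).trans (by rw [natDegree_neg_poly, hm])
    · refine le_natDegree_of_ne_zero ?_
      rw [h1, coeff_C_mul, coeff_neg, ← mul_assoc, ← pow_add, Even.neg_one_pow ⟨m, rfl⟩, one_mul,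
        ← hm]
      rw [show P.coeff P.natDegree = 1 from hP]
      exact one_ne_zero

theorem monic_mul_bar {P : A[X]} (hP : P.Monic) {m : ℕ} (hm : P.natDegree = m) :
    (P * bar m P).Monic := hP.mul (monic_bar hP hm)

end Basic

end Pool.Agent.Helper72.Iso
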