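import Pool.Agent.Helper72.Iso.TR

/-!
# Coprimality at generic parameters
-/

open Polynomial

namespace Pool.Agent.Helper72.Iso

theorem X_dvd_of_prime {E : Type*} [Field E] [CharZero E] {π : E[X]} (hπ : Prime π) {N : ℕ}
    (h : π ∣ 2 * X ^ N) : X ∣ π := by
  have h2 : IsUnit (2 : E[X]) := by
    have : (2 : E[X]) = C 2 := (C_ofNat 2).symm
    rw [this]
    exact isUnit_C.2 (isUnit_iff_ne_zero.2 two_ne_zero)
  have h1 : π ∣ X ^ N := by
    rcases hπ.dvd_or_dvd h with h3 | h3
    · exact absurd (isUnit_of_dvd_unit h3 h2) hπ.not_isUnit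
    · exact h3
  have h3 : π ∣ X := hπ.dvd_of_dvd_pow h1
  exact ((hπ.dvd_prime_iff_associated prime_X).1 h3).dvd'

theorem not_both {E : Type*} [Field E] {P Q : E[X]} (hP : P ≠ 0)
    (H : ∀ z : E[X], Prime z → z ∣ P → z ∣ Q → False) : IsCoprime P Q :=
  isCoprime_of_prime_dvd (fun h => hP h.1) fun z hz h1 h2 => H z hz h1 h2

theorem bar_dvd {A : Type*} [CommRing A] {m : ℕ} {P z : A[X]} (h : z ∣ neg P) : z ∣ bar m P :=
  h.mul_left _

theorem coprime_C {K E : Type*} [Field K] [CharZero K] [Field E] [Algebra K E] {s m n : ℕ}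
    {v : Fin s → E} (hv : AlgebraicIndependent K v) (hms : m ≤ s) (hmn : m ≤ n) {P : E[X]}
    (hP : P.Monic) (hm : P.natDegree = m) (h : P * bar m P ∣ polyC m n (ofCoeffs v) P) :
    IsCoprime P (neg P) := by
  have hchar : CharZero E := charZero_of_injective_algebraMap (algebraMap K E).injective
  have hP0 : P ≠ 0 := hP.ne_zero
  have key : ∀ z : E[X], Prime z → z ∣ P → z ∣ neg P → X ∣ z := by
    intro z hz h1 h2
    have h3 : z ∣ polyC m n (ofCoeffs v) P := (h1.mul_right _).trans h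
    have h4 : z ∣ (2 : E[X]) * X ^ (2 * n + 1) := by
      have h5 : (2 : E[X]) * X ^ (2 * n + 1) = polyC m n (ofCoeffs v) P +
          ofCoeffs v * bar m P - (-1) ^ m * (neg (ofCoeffs v) * P) := by
        rw [polyC]; ring
      rw [h5]
      exact dvd_sub (dvd_add h3 ((bar_dvd h2).mul_left _)) ((h1.mul_left _).mul_left _)
    exact X_dvd_of_prime hz h4
  refine not_both hP0 fun z hz h1 h2 => ?_
  have hXP : X ∣ P := (key z hz h1 h2).trans h1
  -- factor out the power of X
  obtain ⟨R, hPR, hR0⟩ := exists_eq_pow_rootMultiplicity_mul_and_not_dvd P hP0 0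
  rw [C_0, sub_zero] at hPR hR0
  set l := P.rootMultiplicity 0 with hl
  have hl1 : 1 ≤ l := by
    by_contra hl0
    have : l = 0 := by omega
    rw [this, pow_zero, one_mul] at hPR
    rw [hPR] at hXP
    exact hR0 hXP
  have hRm : R.Monic := by
    have h5 := hP
    rw [hPR] at h5
    exact (monic_X_pow l).of_mul_monic_left h5
  have hdeg : l + R.natDegree = m := by
    have h5 : P.natDegree = l + R.natDegree := by
      conv_lhs => rw [hPR]
      rw [(monic_X_pow l).natDegree_mul hRm, natDegree_X_pow]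
    omega
  have hRne : R ≠ 0 := hRm.ne_zero
  have hnR0 : neg R ≠ 0 := by
    intro h0
    apply hRne
    rw [← neg_neg_poly R, h0, neg_zero]
  have hcopR : IsCoprime R (neg R) := by
    refine not_both hRne fun z hz h1 h2 => ?_
    have h3 : z ∣ P := by rw [hPR]; exact h1.mul_left _
    have h4 : z ∣ neg P := by rw [hPR, neg_mul]; exact h2.mul_left _
    exact hR0 ((key z hz h3 h4).trans h1)
  set V := ofCoeffs v with hV
  obtain ⟨Q, hQ⟩ := h
  have hle : l ≤ 2 * n + 1 := by omega
  have hXl : (X : E[X]) ^ (2 * n + 1) = X ^ l * X ^ (2 * n + 1 - l) := by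
    rw [← pow_add]; congr 1; omega
  have hmain : 2 * X ^ (2 * n + 1 - l) + (-1) ^ m * (neg V * R - (-1) ^ l * (V * neg R)) =
      (-1) ^ (m + l) * (X ^ l * (R * neg R) * Q) := by
    have hXne : (X : E[X]) ^ l ≠ 0 := pow_ne_zero _ X_ne_zero
    apply mul_left_cancel₀ hXne
    have h5 : neg (X ^ l : E[X]) = (-1) ^ l * X ^ l := by
      rw [neg_pow, neg_X, ← neg_one_mul, mul_pow]
    rw [polyC, bar, hPR, neg_mul, h5] at hQ
    rw [hXl] at hQ
    rw [pow_add]
    linear_combination hQ
  rcases Nat.even_or_odd l with hev | hodd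
  · -- l even
    have h5 : ((-1 : E[X])) ^ l = 1 := hev.neg_one_pow
    rw [h5, one_mul, pow_add, h5, mul_one] at hmain
    have hm2 : ((-1 : E[X])) ^ m * (-1) ^ m = 1 := by
      rw [← pow_add, Even.neg_one_pow ⟨m, rfl⟩]
    have hl2 : 2 ≤ l := by
      obtain ⟨k, hk⟩ := hev
      omega
    have hXl2 : (X : E[X]) ^ l = X ^ 2 * X ^ (l - 2) := by
      rw [← pow_add]; congr 1; omega
    set Q2 : E[X] := X ^ (l - 2) * Q with hQ2
    have h6 : C (algebraMap K E ((-1) ^ m * 2)) * X ^ (2 * n + 1 - l) +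
        (neg V * R - V * neg R) = X ^ 2 * (R * neg R) * Q2 := by
      have hC : (C (algebraMap K E ((-1) ^ m * 2)) : E[X]) = (-1) ^ m * 2 := by
        rw [map_mul, map_mul, map_pow, map_pow, map_neg, map_neg, map_one, map_one, map_ofNat,
          C_ofNat]
      rw [hC, hQ2]
      rw [hXl2] at hmain
      linear_combination (-1) ^ m * hmain + (X ^ 2 * X ^ (l - 2) * (R * neg R) * Q -
        (neg V * R - V * neg R)) * hm2
    have hodd' : Odd (2 * n + 1 - l) := by
      obtain ⟨k, hk⟩ := hev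
      exact ⟨n - k, by omega⟩
    -- the left-hand side is odd
    have h7 := congrArg neg h6
    have h8 : neg (C (algebraMap K E ((-1) ^ m * 2)) * X ^ (2 * n + 1 - l) +
        (neg V * R - V * neg R)) = -(C (algebraMap K E ((-1) ^ m * 2)) * X ^ (2 * n + 1 - l) +
        (neg V * R - V * neg R)) := by
      rw [neg_add, neg_sub, neg_mul, neg_mul, neg_mul, neg_C, neg_pow, neg_X, hodd'.neg_pow,
        neg_neg_poly, neg_neg_poly]
      ring
    have h9 : neg (X ^ 2 * (R * neg R) * Q2) = X ^ 2 * (R * neg R) * neg Q2 := by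
      rw [neg_mul, neg_mul, neg_mul, neg_pow, neg_X, neg_neg_poly]
      ring
    rw [h8, h9, h6] at h7
    have h10 : neg Q2 = -Q2 := by
      have hne : (X : E[X]) ^ 2 * (R * neg R) ≠ 0 :=
        mul_ne_zero (pow_ne_zero _ X_ne_zero) (mul_ne_zero hRne hnR0)
      apply mul_left_cancel₀ hne
      linear_combination -h7
    have h11 : Q2.coeff 0 = 0 := by
      have := congrArg (fun p => coeff p 0) h10
      simp only [coeff_neg, pow_zero, one_mul, Polynomial.coeff_neg] at this
      have h12 : (2 : E) * Q2.coeff 0 = 0 := by linear_combination this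
      exact (mul_eq_zero.1 h12).resolve_left two_ne_zero
    obtain ⟨Q3, hQ3⟩ := X_dvd_iff.2 h11
    refine tr_false hv hRm (by omega) hcopR (N := 2 * n + 1 - l) (c := (-1) ^ m * 2) (Q := Q3) ?_
    rw [h6, hQ3]
    ring
  · -- l odd
    have h5 : ((-1 : E[X])) ^ l = -1 := hodd.neg_one_pow
    have h6 := congrArg (fun p => coeff p 0) hmain
    rw [h5] at h6
    have hs0 : 0 < s := by omega
    have hV0 : V.coeff 0 = v ⟨0, hs0⟩ := by rw [hV, coeff_ofCoeffs, dif_pos hs0]
    have h7 : (2 * X ^ (2 * n + 1 - l) : E[X]).coeff 0 = 0 := by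
      rw [mul_coeff_zero, coeff_X_pow, if_neg (by omega), mul_zero]
    have h8 : ((-1) ^ (m + l) * (X ^ l * (R * neg R) * Q) : E[X]).coeff 0 = 0 := by
      rw [mul_coeff_zero, mul_coeff_zero, mul_coeff_zero, coeff_X_pow, if_neg (by omega)]
      ring
    have h9 : ((-1) ^ m * (neg V * R - -1 * (V * neg R)) : E[X]).coeff 0 =
        (-1) ^ m * (2 * (V.coeff 0 * R.coeff 0)) := by
      rw [mul_coeff_zero, coeff_sub, mul_coeff_zero, mul_coeff_zero, mul_coeff_zero, coeff_neg,
        coeff_neg]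
      have h10 : ((-1 : E[X]) ^ m).coeff 0 = (-1) ^ m := by
        have : ((-1 : E[X]) ^ m) = C ((-1) ^ m) := by simp
        rw [this, coeff_C_zero]
      have h11 : (-1 : E[X]).coeff 0 = -1 := by simp
      rw [h10, h11]
      ring
    simp only [coeff_add] at h6
    rw [h7, h8, h9, zero_add, hV0] at h6
    have h12 : v ⟨0, hs0⟩ ≠ 0 := hv.ne_zero _
    have h13 : R.coeff 0 ≠ 0 := fun h0 => hR0 (X_dvd_iff.2 h0)
    exact absurd h6 (mul_ne_zero (pow_ne_zero _ (neg_ne_zero.2 one_ne_zero))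
      (mul_ne_zero two_ne_zero (mul_ne_zero h12 h13)))

theorem coprime_B {K E : Type*} [Field K] [CharZero K] [Field E] [Algebra K E] {s m n : ℕ}
    {v : Fin s → E} {P : E[X]} (hmn : m ≤ n)
    (hP : P.Monic) (hm : P.natDegree = m) (h0 : P.coeff 0 ≠ 0)
    (h : P * bar m P ∣ polyB m n (ofCoeffs v) P) : IsCoprime P (neg P) := by
  have hchar : CharZero E := charZero_of_injective_algebraMap (algebraMap K E).injective
  refine not_both hP.ne_zero fun z hz h1 h2 => ?_
  have h3 : z ∣ polyB m n (ofCoeffs v) P := (h1.mul_right _).trans h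
  have h4 : z ∣ (2 : E[X]) * X ^ (2 * n) := by
    have h5 : (2 : E[X]) * X ^ (2 * n) = polyB m n (ofCoeffs v) P +
        ofCoeffs v * bar m P + (-1) ^ m * (neg (ofCoeffs v) * P) := by
      rw [polyB]; ring
    rw [h5]
    exact dvd_add (dvd_add h3 ((bar_dvd h2).mul_left _)) ((h1.mul_left _).mul_left _)
  exact h0 (X_dvd_iff.1 ((X_dvd_of_prime hz h4).trans h1))

end Pool.Agent.Helper72.Iso
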