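import Pool.Agent.Helper72.Iso.Ind

/-!
Algebras over `K(v_0, …, v_{s-1})` satisfying the relation embed into a rational function field.
-/

open Polynomial

namespace Pool.Agent.Helper72.Iso

variable {K : Type*} [Field K] {m t : ℕ}

/-- the generic parameters -/
noncomputable def vF (K : Type*) [Field K] (s : ℕ) (i : Fin s) : Par K s :=
  algebraMap (MvPolynomial (Fin s) K) (Par K s) (MvPolynomial.X i)

theorem genV_eq (s : ℕ) : genV K s = ofCoeffs (vF K s) := rfl

theorem aeval_vF {s : ℕ} (g : MvPolynomial (Fin s) K) :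
    MvPolynomial.aeval (vF K s) g = algebraMap _ (Par K s) g := by
  have : (MvPolynomial.aeval (vF K s) : MvPolynomial (Fin s) K →ₐ[K] Par K s) =
      IsScalarTower.toAlgHom K _ _ := by
    refine MvPolynomial.algHom_ext fun i => ?_
    simp [vF]
  rw [this]; rfl

theorem algebraicIndependent_vF (s : ℕ) : AlgebraicIndependent K (vF K s) := by
  rw [algebraicIndependent_iff_injective_aeval]
  intro a b h
  rw [aeval_vF, aeval_vF] at h
  exact IsFractionRing.injective _ (Par K s) h

theorem algebraicIndependent_vE {s : ℕ} {E : Type*} [Field E] [Algebra K E] (f : Par K s →ₐ[K] E) :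
    AlgebraicIndependent K fun i => f (vF K s i) :=
  (algebraicIndependent_vF s).map' (f := f) f.toRingHom.injective

theorem injective_aeval_toRingHom {s : ℕ} {L : Type*} [Field L] [Algebra K L] {w : Fin s → L}
    (hw : AlgebraicIndependent K w) :
    Function.Injective (MvPolynomial.aeval w : MvPolynomial (Fin s) K →ₐ[K] L).toRingHom :=
  algebraicIndependent_iff_injective_aeval.1 hw

/-- the map `K(v) → RF` given by algebraically independent elements -/
noncomputable def iotaR {s : ℕ} {L : Type*} [Field L] [Algebra K L] {w : Fin s → L}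
    (hw : AlgebraicIndependent K w) : Par K s →+* L :=
  IsFractionRing.lift (A := MvPolynomial (Fin s) K)
    (g := (MvPolynomial.aeval w : MvPolynomial (Fin s) K →ₐ[K] L).toRingHom)
    (injective_aeval_toRingHom hw)

theorem iotaR_vF {s : ℕ} {L : Type*} [Field L] [Algebra K L] {w : Fin s → L}
    (hw : AlgebraicIndependent K w) (i : Fin s) : iotaR hw (vF K s i) = w i := by
  rw [iotaR, vF, IsFractionRing.lift_algebraMap]
  simp

theorem iotaR_algebraMap {s : ℕ} {L : Type*} [Field L] [Algebra K L] {w : Fin s → L}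
    (hw : AlgebraicIndependent K w) (a : K) :
    iotaR hw (algebraMap K (Par K s) a) = algebraMap K L a := by
  rw [IsScalarTower.algebraMap_apply K (MvPolynomial (Fin s) K) (Par K s), iotaR,
    IsFractionRing.lift_algebraMap]
  simp

section

variable {s : ℕ} {A : Type*} [CommRing A] [Algebra (Par K s) A] [Algebra K A]
  [IsScalarTower K (Par K s) A]

/-- the generic parameters in an algebra -/
noncomputable abbrev vA (K : Type*) [Field K] (s : ℕ) (A : Type*) [CommRing A]
    [Algebra (Par K s) A] (i : Fin s) : A := algebraMap (Par K s) A (vF K s i)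

theorem aeval_vA {ι : Type*} (y : ι → A) (g : MvPolynomial (Fin s) K) :
    MvPolynomial.aeval (Sum.elim (vA K s A) y) (MvPolynomial.rename Sum.inl g) =
      algebraMap (Par K s) A (algebraMap _ _ g) := by
  rw [MvPolynomial.aeval_rename, Sum.elim_comp_inl]
  have : (MvPolynomial.aeval (vA K s A) : MvPolynomial (Fin s) K →ₐ[K] A) =
      (IsScalarTower.toAlgHom K (Par K s) A).comp
        (MvPolynomial.aeval (vF K s) : MvPolynomial (Fin s) K →ₐ[K] Par K s) := by
    refine MvPolynomial.algHom_ext fun i => ?_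
    simp [vA]
  rw [this]
  simp only [AlgHom.comp_apply, aeval_vF]
  rfl

/-- clearing denominators -/
theorem exists_clear {ι : Type*} (y : ι → A) (p : MvPolynomial ι (Par K s)) :
    ∃ d : MvPolynomial (Fin s) K, d ≠ 0 ∧ ∃ g : MvPolynomial (Fin s ⊕ ι) K,
      algebraMap (Par K s) A (algebraMap _ _ d) * MvPolynomial.aeval y p =
        MvPolynomial.aeval (Sum.elim (vA K s A) y) g := by
  induction p using MvPolynomial.induction_on with
  | C a =>
    obtain ⟨n, d, hd, rfl⟩ := IsFractionRing.div_surjective (A := MvPolynomial (Fin s) K) a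
    have hd0 : d ≠ 0 := nonZeroDivisors.ne_zero hd
    refine ⟨d, hd0, MvPolynomial.rename Sum.inl n, ?_⟩
    rw [aeval_vA, MvPolynomial.aeval_C, ← map_mul, mul_div_cancel₀]
    exact (map_ne_zero_iff _ (IsFractionRing.injective _ (Par K s))).2 hd0
  | add p q hp hq =>
    obtain ⟨d, hd, g, hg⟩ := hp
    obtain ⟨d', hd', g', hg'⟩ := hq
    refine ⟨d * d', mul_ne_zero hd hd', MvPolynomial.rename Sum.inl d' * g +
      MvPolynomial.rename Sum.inl d * g', ?_⟩
    simp only [map_add, map_mul, aeval_vA]
    rw [← hg, ← hg']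
    ring
  | mul_X p i hp =>
    obtain ⟨d, hd, g, hg⟩ := hp
    refine ⟨d, hd, g * MvPolynomial.X (Sum.inr i), ?_⟩
    simp only [map_mul, MvPolynomial.aeval_X, Sum.elim_inr]
    rw [← hg]
    ring

end

section embed

variable {A : Type*} [CommRing A] [Algebra (Par K (m + t)) A] [Algebra K A]
  [IsScalarTower K (Par K (m + t)) A]

theorem injective_of_relation (e : K) {N δ : ℕ} (y : Fin m → A)
    (hrel : monicPoly m y * bar m (monicPoly m y) ∣
      polyG (algebraMap K A e) m N (ofCoeffs (vA K (m + t) A)) (monicPoly m y))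
    (hdet : IsUnit (linMat (algebraMap K A e) m δ (monicPoly m y)).det)
    (hgen : ∀ a : A, ∃ u : A, IsUnit u ∧ ∃ g : MvPolynomial (Fin (m + t) ⊕ Fin m) K,
      u * a = MvPolynomial.aeval (Sum.elim (vA K (m + t) A) y) g)
    {w : Fin (m + t) → RF K t m} (hw : AlgebraicIndependent K w)
    (hx : ∀ j, w (Fin.natAdd m j) = xR K t m j)
    (θ : A →+* RF K t m) (hθ : ∀ f, θ (algebraMap (Par K (m + t)) A f) = iotaR hw f)
    (hy : ∀ i, θ (y i) = yR K t m i) : Function.Injective θ := by
  rw [injective_iff_map_eq_zero]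
  intro a ha
  obtain ⟨u, hu, g, hg⟩ := hgen a
  obtain ⟨r, G, hG⟩ := exists_reduce (δ := δ) e (vA K (m + t) A) y hrel g
  have hK : ∀ c : K, θ (algebraMap K A c) = algebraMap K (RF K t m) c := by
    intro c
    rw [IsScalarTower.algebraMap_apply K (Par K (m + t)) A, hθ, iotaR_algebraMap]
  have h1 : ∀ G : Uni K t m, θ (MvPolynomial.aeval (Sum.elim
      (fun j => vA K (m + t) A (Fin.natAdd m j)) y) G) = algebraMap _ (RF K t m) G := by
    intro G
    rw [← aeval_xR_yR]
    let θ' : A →ₐ[K] RF K t m := { θ with commutes' := hK }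
    have h2 : (θ'.comp (MvPolynomial.aeval (Sum.elim
      (fun j => vA K (m + t) A (Fin.natAdd m j)) y) : Uni K t m →ₐ[K] A)) =
        MvPolynomial.aeval (Sum.elim (xR K t m) (yR K t m)) := by
      refine MvPolynomial.algHom_ext fun i => ?_
      rcases i with j | i
      · simp only [AlgHom.comp_apply, MvPolynomial.aeval_X, Sum.elim_inl]
        change θ _ = _
        rw [vA, hθ, iotaR_vF, hx]
      · simp only [AlgHom.comp_apply, MvPolynomial.aeval_X, Sum.elim_inr]
        exact hy i
    exact congrArg (fun f => f G) h2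
  rw [← hg, map_detU] at hG
  have h3 := congrArg θ hG
  rw [map_mul, map_mul, ha, mul_zero, mul_zero, h1] at h3
  have h4 : G = 0 := by
    refine (map_eq_zero_iff _ (IsFractionRing.injective (Uni K t m) (RF K t m))).1 h3.symm
  rw [h4, map_zero] at hG
  have h5 := (hdet.pow r).mul hu
  rw [← mul_assoc] at hG
  exact (h5.mul_right_eq_zero).1 hG

end embed

end Pool.Agent.Helper72.Iso
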