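import Pool.Agent.Helper72.Iso.Lin

/-!
Universal properties of the algebras of types `C` and `B`.
-/

open Polynomial

namespace Pool.Agent.Helper72.Iso

variable {F : Type*} [Field F] {m n : ℕ} {v : F[X]}

/-- the generators of `AlgC` -/
noncomputable def yC (F : Type*) [Field F] (m n : ℕ) (v : F[X]) (i : Fin m) : AlgC F m n v :=
  Ideal.Quotient.mk _ (MvPolynomial.X i)

/-- the generators of `AlgB` -/
noncomputable def yB (F : Type*) [Field F] (m n : ℕ) (v : F[X]) (i : Fin m) : AlgB F m n v :=
  Ideal.Quotient.mk _ (MvPolynomial.X i)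

theorem map_mk_genPoly (I : Ideal (MvPolynomial (Fin m) F)) :
    (genPoly F m).map (Ideal.Quotient.mk I) =
      monicPoly m fun i => Ideal.Quotient.mk I (MvPolynomial.X i) :=
  map_monicPoly _ _ _

theorem map_mk_C (I : Ideal (MvPolynomial (Fin m) F)) (v : F[X]) :
    (v.map MvPolynomial.C).map (Ideal.Quotient.mk I) =
      v.map (algebraMap F (MvPolynomial (Fin m) F ⧸ I)) := by
  rw [Polynomial.map_map]; rfl

theorem relC : monicPoly m (yC F m n v) * bar m (monicPoly m (yC F m n v)) ∣
    polyC m n (v.map (algebraMap F (AlgC F m n v))) (monicPoly m (yC F m n v)) := by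
  have hM := monic_mul_bar (monic_monicPoly (yC F m n v))
    (m := m) (P := monicPoly m (yC F m n v))
  rcases subsingleton_or_nontrivial (AlgC F m n v) with hs | hn
  · exact ⟨0, Subsingleton.elim _ _⟩
  · rw [← modByMonic_eq_zero_iff_dvd (hM (natDegree_monicPoly _))]
    have h1 : monicPoly m (yC F m n v) =
        (genPoly F m).map (Ideal.Quotient.mk (idealC F m n v)) := (map_mk_genPoly _).symm
    rw [h1, ← map_mk_C, ← map_bar, ← Polynomial.map_mul, ← map_polyC,
      ← map_modByMonic _ (monic_mul_bar (monic_monicPoly _) (natDegree_monicPoly _))]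
    ext j
    rw [coeff_map, coeff_zero, Ideal.Quotient.eq_zero_iff_mem]
    exact Ideal.subset_span ⟨j, rfl⟩

theorem relB : monicPoly m (yB F m n v) * bar m (monicPoly m (yB F m n v)) ∣
    polyB m n (v.map (algebraMap F (AlgB F m n v))) (monicPoly m (yB F m n v)) := by
  have hM := monic_mul_bar (monic_monicPoly (yB F m n v))
    (m := m) (P := monicPoly m (yB F m n v))
  rcases subsingleton_or_nontrivial (AlgB F m n v) with hs | hn
  · exact ⟨0, Subsingleton.elim _ _⟩
  · rw [← modByMonic_eq_zero_iff_dvd (hM (natDegree_monicPoly _))]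
    have h1 : monicPoly m (yB F m n v) =
        (genPoly F m).map (Ideal.Quotient.mk (idealB F m n v)) := (map_mk_genPoly _).symm
    rw [h1, ← map_mk_C, ← map_bar, ← Polynomial.map_mul, ← map_polyB,
      ← map_modByMonic _ (monic_mul_bar (monic_monicPoly _) (natDegree_monicPoly _))]
    ext j
    rw [coeff_map, coeff_zero, Ideal.Quotient.eq_zero_iff_mem]
    exact Ideal.subset_span ⟨j, rfl⟩

/-- A ring homomorphism out of `AlgC`, semilinear over `ι : F → A`. -/
theorem exists_ringHom_C {A : Type*} [CommRing A] (ι : F →+* A) (y : Fin m → A)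
    (h : monicPoly m y * bar m (monicPoly m y) ∣ polyC m n (v.map ι) (monicPoly m y)) :
    ∃ φ : AlgC F m n v →+* A, (∀ f, φ (algebraMap F _ f) = ι f) ∧ ∀ i, φ (yC F m n v i) = y i := by
  set ψ : MvPolynomial (Fin m) F →+* A := MvPolynomial.eval₂Hom ι y with hψ
  have hψC : ∀ f, ψ (MvPolynomial.C f) = ι f := fun f => by simp [hψ]
  have hψX : ∀ i, ψ (MvPolynomial.X i) = y i := fun i => by simp [hψ]
  have hP : (genPoly F m).map ψ = monicPoly m y := by
    rw [genPoly, map_monicPoly]; congr 1; ext i; exact hψX i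
  have hv : (v.map MvPolynomial.C).map ψ = v.map ι := by
    rw [Polynomial.map_map]; congr 1; ext f; exact hψC f
  have hI : ∀ a ∈ idealC F m n v, ψ a = 0 := by
    intro a ha
    refine Submodule.span_induction (p := fun a _ => ψ a = 0) ?_ (map_zero _) ?_ ?_ ha
    · rintro _ ⟨j, rfl⟩
      simp only
      rw [← coeff_map, map_modByMonic _ (monic_mul_bar (monic_monicPoly _)
        (natDegree_monicPoly _)), map_polyC, Polynomial.map_mul, map_bar, hP, hv]
      nontriviality A
      rw [(modByMonic_eq_zero_iff_dvd (monic_mul_bar (monic_monicPoly _)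
        (natDegree_monicPoly _))).2 h, coeff_zero]
    · intro a b _ _ ha hb; rw [map_add, ha, hb, add_zero]
    · intro a b _ hb; rw [smul_eq_mul, map_mul, hb, mul_zero]
  refine ⟨Ideal.Quotient.lift _ ψ hI, fun f => ?_, fun i => ?_⟩
  · exact (Ideal.Quotient.lift_mk _ ψ hI).trans (hψC f)
  · exact (Ideal.Quotient.lift_mk _ ψ hI).trans (hψX i)

/-- A ring homomorphism out of `AlgB`, semilinear over `ι : F → A`. -/
theorem exists_ringHom_B {A : Type*} [CommRing A] (ι : F →+* A) (y : Fin m → A)
    (h : monicPoly m y * bar m (monicPoly m y) ∣ polyB m n (v.map ι) (monicPoly m y)) :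
    ∃ φ : AlgB F m n v →+* A, (∀ f, φ (algebraMap F _ f) = ι f) ∧ ∀ i, φ (yB F m n v i) = y i := by
  set ψ : MvPolynomial (Fin m) F →+* A := MvPolynomial.eval₂Hom ι y with hψ
  have hψC : ∀ f, ψ (MvPolynomial.C f) = ι f := fun f => by simp [hψ]
  have hψX : ∀ i, ψ (MvPolynomial.X i) = y i := fun i => by simp [hψ]
  have hP : (genPoly F m).map ψ = monicPoly m y := by
    rw [genPoly, map_monicPoly]; congr 1; ext i; exact hψX i
  have hv : (v.map MvPolynomial.C).map ψ = v.map ι := by
    rw [Polynomial.map_map]; congr 1; ext f; exact hψC f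
  have hI : ∀ a ∈ idealB F m n v, ψ a = 0 := by
    intro a ha
    refine Submodule.span_induction (p := fun a _ => ψ a = 0) ?_ (map_zero _) ?_ ?_ ha
    · rintro _ ⟨j, rfl⟩
      simp only
      rw [← coeff_map, map_modByMonic _ (monic_mul_bar (monic_monicPoly _)
        (natDegree_monicPoly _)), map_polyB, Polynomial.map_mul, map_bar, hP, hv]
      nontriviality A
      rw [(modByMonic_eq_zero_iff_dvd (monic_mul_bar (monic_monicPoly _)
        (natDegree_monicPoly _))).2 h, coeff_zero]
    · intro a b _ _ ha hb; rw [map_add, ha, hb, add_zero]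
    · intro a b _ hb; rw [smul_eq_mul, map_mul, hb, mul_zero]
  refine ⟨Ideal.Quotient.lift _ ψ hI, fun f => ?_, fun i => ?_⟩
  · exact (Ideal.Quotient.lift_mk _ ψ hI).trans (hψC f)
  · exact (Ideal.Quotient.lift_mk _ ψ hI).trans (hψX i)

theorem aeval_yC_surjective : Function.Surjective (MvPolynomial.aeval (R := F) (yC F m n v)) := by
  intro a
  obtain ⟨p, rfl⟩ := Ideal.Quotient.mk_surjective a
  refine ⟨p, ?_⟩
  have : (MvPolynomial.aeval (yC F m n v) : MvPolynomial (Fin m) F →ₐ[F] _) =
      Ideal.Quotient.mkₐ F (idealC F m n v) := by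
    refine MvPolynomial.algHom_ext fun i => ?_
    simp [yC]
  rw [this]; rfl

theorem aeval_yB_surjective : Function.Surjective (MvPolynomial.aeval (R := F) (yB F m n v)) := by
  intro a
  obtain ⟨p, rfl⟩ := Ideal.Quotient.mk_surjective a
  refine ⟨p, ?_⟩
  have : (MvPolynomial.aeval (yB F m n v) : MvPolynomial (Fin m) F →ₐ[F] _) =
      Ideal.Quotient.mkₐ F (idealB F m n v) := by
    refine MvPolynomial.algHom_ext fun i => ?_
    simp [yB]
  rw [this]; rfl

end Pool.Agent.Helper72.Iso
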