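import Pool.Agent.Helper72.Iso.COP
import Pool.Agent.Helper72.Iso.Univ
import Pool.Agent.Helper72.Iso.Fld

/-!
Type `D`: the relation, its two branches `y_0 = 0` and `z_0 = 0`, and quadratic extensions of
semisimple rings.
-/

open Polynomial

namespace Pool.Agent.Helper72.Iso

/-! ### Quadratic extensions of semisimple rings -/

section quad

variable {B : Type*} [CommRing B] {u : B}

theorem isReduced_quad [IsReduced B] (hu : IsUnit u) (h2 : IsUnit (2 : B)) :
    IsReduced (QuadraticAlgebra B u 0) := by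
  rw [isReduced_iff_pow_one_lt 2 one_lt_two]
  rintro ⟨a, b⟩ hx
  rw [sq] at hx
  have h1 := congrArg QuadraticAlgebra.re hx
  have h3 := congrArg QuadraticAlgebra.im hx
  rw [QuadraticAlgebra.re_mul] at h1
  rw [QuadraticAlgebra.im_mul] at h3
  simp only [QuadraticAlgebra.re_zero, QuadraticAlgebra.im_zero] at h1 h3
  have h4 : a * b = 0 := by
    have : (2 : B) * (a * b) = 0 := by linear_combination h3
    exact (h2.mul_right_eq_zero).1 this
  have ha : a = 0 := by
    have : a ^ 3 = 0 := by linear_combination a * h1 - u * b * h4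
    exact eq_zero_of_pow_eq_zero this
  have hb : b = 0 := by
    have : u * b ^ 2 = 0 := by linear_combination h1 - a * ha
    exact eq_zero_of_pow_eq_zero ((hu.mul_right_eq_zero).1 this)
  rw [ha, hb]
  rfl

theorem isSemisimpleRing_quad [IsSemisimpleRing B] (hu : IsUnit u) (h2 : IsUnit (2 : B)) :
    IsSemisimpleRing (QuadraticAlgebra B u 0) := by
  have h3 : IsReduced (QuadraticAlgebra B u 0) := isReduced_quad hu h2
  have h4 : IsArtinianRing (QuadraticAlgebra B u 0) := IsArtinianRing.of_finite B _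
  exact IsArtinianRing.isSemisimpleRing_of_isReduced _

/-- the map out of a quadratic extension -/
def quadLift {S : Type*} [CommRing S] (ψ : B →+* S) (w : S) (hw : w * w = ψ u) :
    QuadraticAlgebra B u 0 →+* S where
  toFun x := ψ x.re + ψ x.im * w
  map_zero' := by simp
  map_one' := by
    simp only [QuadraticAlgebra.re_one, QuadraticAlgebra.im_one, map_one, map_zero]
    ring
  map_add' x y := by
    simp only [QuadraticAlgebra.re_add, QuadraticAlgebra.im_add, map_add]
    ring
  map_mul' x y := by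
    simp only [QuadraticAlgebra.re_mul, QuadraticAlgebra.im_mul, map_add, map_mul, map_zero]
    linear_combination (-(ψ x.im * ψ y.im)) * hw

end quad

/-! ### The relation -/

section rel

variable {A S : Type*} [CommRing A] [CommRing S]

theorem monicPoly_succ {k : ℕ} (y : Fin (k + 1) → A) :
    monicPoly (k + 1) y = X * monicPoly k (fun i => y i.succ) + C (y 0) := by
  rw [monicPoly, monicPoly, Fin.sum_univ_succ, mul_add, Finset.mul_sum]
  have : ∀ i : Fin k, C (y i.succ) * X ^ ((i.succ : Fin (k + 1)) : ℕ) =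
      X * (C (y i.succ) * X ^ (i : ℕ)) := fun i => by
    rw [Fin.val_succ, pow_succ]; ring
  rw [Finset.sum_congr rfl fun i _ => this i]
  simp only [Fin.val_zero, pow_zero, mul_one]
  ring

theorem eulerPoly_succ {k : ℕ} (z : Fin (k + 1) → A) :
    eulerPoly (k + 1) z = X * monicPoly k (fun i => z i.succ) + C ((-1) ^ (k + 1) * z 0 ^ 2) := by
  rw [eulerPoly, monicPoly, Fin.sum_univ_succ, mul_add, Finset.mul_sum]
  have : ∀ i : Fin k, (if ((i.succ : Fin (k + 1)) : ℕ) = 0 then
      C ((-1) ^ (k + 1) * z i.succ ^ 2) else C (z i.succ) * X ^ ((i.succ : Fin (k + 1)) : ℕ)) =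
      X * (C (z i.succ) * X ^ (i : ℕ)) := fun i => by
    rw [if_neg (by rw [Fin.val_succ]; exact Nat.succ_ne_zero _), Fin.val_succ, pow_succ]; ring
  rw [Finset.sum_congr rfl fun i _ => this i, if_pos (by rfl)]
  ring

theorem map_eulerPoly (f : A →+* S) (r : ℕ) (z : Fin r → A) :
    (eulerPoly r z).map f = eulerPoly r fun i => f (z i) := by
  cases r with
  | zero => simp [eulerPoly]
  | succ k =>
    rw [eulerPoly_succ, eulerPoly_succ, Polynomial.map_add, Polynomial.map_mul, map_X,
      map_monicPoly, map_C, map_mul, map_pow, map_pow, map_neg, map_one]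

theorem bar_succ_X_mul (m : ℕ) (R : A[X]) : bar (m + 1) (X * R) = X * bar m R := by
  rw [bar, bar, neg_mul, neg_X]; ring

theorem polyC_succ_X_mul (m n : ℕ) (V R : A[X]) :
    polyC (m + 1) n V (X * R) = X * polyB m n V R := by
  rw [polyC, polyB, bar_succ_X_mul]; ring

/-- The relation of type `D`. -/
def RelD (m r : ℕ) (V : A[X]) (y : Fin m → A) (z : Fin r → A) : Prop :=
  2 * (monicPoly m y * bar m (monicPoly m y) * (eulerPoly r z).comp (X ^ 2)) -
      2 * X ^ (2 * (m + r)) +
        X * (V * bar m (monicPoly m y) - (-1) ^ m * (neg V * monicPoly m y)) = 0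

theorem RelD.map {m r : ℕ} {V : A[X]} {y : Fin m → A} {z : Fin r → A} (h : RelD m r V y z)
    (f : A →+* S) : RelD m r (V.map f) (fun i => f (y i)) (fun j => f (z j)) := by
  have h1 := congrArg (Polynomial.map f) h
  simp only [Polynomial.map_add, Polynomial.map_sub, Polynomial.map_mul, Polynomial.map_pow,
    Polynomial.map_comp, map_X, map_bar, map_neg_poly, map_monicPoly, map_eulerPoly,
    Polynomial.map_neg, Polynomial.map_one, Polynomial.map_zero, Polynomial.map_ofNat] at h1
  exact h1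

theorem RelD.z0 {m k : ℕ} {V : A[X]} {y : Fin m → A} {z : Fin (k + 1) → A}
    (h : RelD m (k + 1) V y z) (hz : z 0 = 0) :
    monicPoly m y * bar m (monicPoly m y) *
      (2 * (X * (monicPoly k fun i => z i.succ).comp (X ^ 2))) =
        polyC m (m + k) V (monicPoly m y) := by
  have hX : IsLeftRegular (X : A[X]) := monic_X.isRegular.left
  apply hX
  change X * _ = X * _
  rw [RelD, eulerPoly_succ, hz] at h
  have h1 : (C ((-1) ^ (k + 1) * (0 : A) ^ 2) : A[X]) = 0 := by simp
  rw [h1, add_zero, mul_comp, X_comp] at h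
  rw [polyC]
  linear_combination h

theorem RelD.y0 {m k : ℕ} {V : A[X]} {y : Fin (m + 1) → A} {z : Fin (k + 1) → A}
    (h : RelD (m + 1) (k + 1) V y z) (hy : y 0 = 0) :
    (monicPoly m fun i => y i.succ) * bar m (monicPoly m fun i => y i.succ) *
      (2 * (eulerPoly (k + 1) z).comp (X ^ 2)) =
        polyB m (m + k + 1) V (monicPoly m fun i => y i.succ) := by
  have hX : IsLeftRegular (X ^ 2 : A[X]) := (monic_X_pow 2).isRegular.left
  apply hX
  change X ^ 2 * _ = X ^ 2 * _
  rw [RelD, monicPoly_succ y, hy, C_0, add_zero, bar_succ_X_mul] at h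
  rw [polyB]
  linear_combination h

end rel

/-! ### Nonvanishing -/

theorem noz_C {K E : Type*} [Field K] [CharZero K] [Field E] [Algebra K E] {s m n : ℕ}
    {v : Fin s → E} (hv : AlgebraicIndependent K v) (hms : m ≤ s) (hmn : m ≤ n) {P : E[X]}
    (hP : P.Monic) (hm : P.natDegree = m) (h : P * bar m P ∣ polyC m n (ofCoeffs v) P)
    (hX : X ∣ P) : False := by
  have hc := coprime_C hv hms hmn hP hm h
  have h1 : (X : E[X]) ∣ neg P := by
    obtain ⟨R, rfl⟩ := hX
    rw [neg_mul, neg_X]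
    exact ⟨-neg R, by ring⟩
  exact not_isUnit_X (hc.isUnit_of_dvd' hX h1)

theorem noz_B {K E : Type*} [Field K] [CharZero K] [Field E] [Algebra K E] {s m n : ℕ}
    {v : Fin s → E} (hv : AlgebraicIndependent K v) (hms : m + 1 ≤ s) (hmn : m + 1 ≤ n)
    {R Q : E[X]} (hR : R.Monic) (hm : R.natDegree = m)
    (h : polyB m n (ofCoeffs v) R = R * bar m R * Q) : Q.coeff 0 ≠ 0 := by
  have hchar : CharZero E := charZero_of_injective_algebraMap (algebraMap K E).injective
  intro h0
  set V := ofCoeffs v with hV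
  have hm2 : ((-1 : E[X])) ^ m * (-1) ^ m = 1 := by
    rw [← pow_add, Even.neg_one_pow ⟨m, rfl⟩]
  have hnbar : neg (bar m R) = (-1) ^ m * R := by
    rw [bar, neg_mul, neg_pow, neg_uminus, neg_one, neg_neg_poly]
  have hmon : (R * bar m R).Monic := monic_mul_bar hR hm
  have hQ : neg Q = Q := by
    have h1 := congrArg neg h
    rw [neg_mul, neg_mul, hnbar, polyB, neg_sub, neg_sub, neg_mul, neg_mul, neg_mul, neg_mul,
      neg_neg_poly, neg_two, neg_pow, neg_X, Even.neg_pow ⟨n, by ring⟩, hnbar, neg_pow,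
      neg_uminus, neg_one] at h1
    have h2 := h
    rw [polyB] at h2
    apply hmon.isRegular.left
    change R * bar m R * neg Q = R * bar m R * Q
    rw [bar] at h2 ⊢
    linear_combination h2 - h1
  have h1 : Q.coeff 1 = 0 := by
    have h3 := congrArg (fun p => coeff p 1) hQ
    simp only [coeff_neg, pow_one] at h3
    have h4 : (2 : E) * Q.coeff 1 = 0 := by linear_combination -h3
    exact (mul_eq_zero.1 h4).resolve_left two_ne_zero
  obtain ⟨Q', hQ'⟩ : X ^ 2 ∣ Q := by
    rw [X_pow_dvd_iff]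
    intro d hd
    have : d = 0 ∨ d = 1 := by omega
    rcases this with rfl | rfl
    · exact h0
    · exact h1
  refine noz_C hv hms hmn (P := X * R) (monic_X.mul hR) ?_ ?_ (dvd_mul_right _ _)
  · rw [monic_X.natDegree_mul hR, natDegree_X, hm, add_comm]
  · rw [polyC_succ_X_mul, h, bar_succ_X_mul, hQ']
    exact ⟨X * Q', by ring⟩

theorem noz_C' {K E : Type*} [Field K] [CharZero K] [Field E] {s m n : ℕ} (g : Par K s →+* E)
    (hms : m ≤ s) (hmn : m ≤ n) {P : E[X]} (hP : P.Monic) (hm : P.natDegree = m)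
    (h : P * bar m P ∣ polyC m n ((genV K s).map g) P) (hX : X ∣ P) : False := by
  let _ : Algebra K E := (g.comp (algebraMap K (Par K s))).toAlgebra
  let f : Par K s →ₐ[K] E := { g with commutes' := fun _ => rfl }
  have hv := algebraicIndependent_vE f
  rw [genV_eq, map_ofCoeffs] at h
  exact noz_C hv hms hmn hP hm h hX

theorem noz_B' {K E : Type*} [Field K] [CharZero K] [Field E] {s m n : ℕ} (g : Par K s →+* E)
    (hms : m + 1 ≤ s) (hmn : m + 1 ≤ n) {R Q : E[X]} (hR : R.Monic) (hm : R.natDegree = m)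
    (h : polyB m n ((genV K s).map g) R = R * bar m R * Q) : Q.coeff 0 ≠ 0 := by
  let _ : Algebra K E := (g.comp (algebraMap K (Par K s))).toAlgebra
  let f : Par K s →ₐ[K] E := { g with commutes' := fun _ => rfl }
  have hv := algebraicIndependent_vE f
  rw [genV_eq, map_ofCoeffs] at h
  exact noz_B hv hms hmn hR hm h

/-! ### Coefficients of `D(X²)` -/

section coeffs

variable {A : Type*} [CommRing A]

theorem coeff_comp_sq (p : A[X]) (j : ℕ) : (p.comp (X ^ 2)).coeff (2 * j) = p.coeff j := by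
  rw [← expand_eq_comp_X_pow, mul_comm, coeff_expand_mul two_pos]

theorem coeff_two_mul_X_comp {k : ℕ} (z : Fin k → A) (j : Fin k) :
    (2 * (X * (monicPoly k z).comp (X ^ 2)) : A[X]).coeff (2 * j + 1) = 2 * z j := by
  rw [coeff_ofNat_mul, coeff_X_mul, coeff_comp_sq, coeff_monicPoly]

theorem coeff_two_mul_euler_zero {k : ℕ} (z : Fin (k + 1) → A) :
    (2 * (eulerPoly (k + 1) z).comp (X ^ 2) : A[X]).coeff 0 = 2 * ((-1) ^ (k + 1) * z 0 ^ 2) := by
  have h := coeff_comp_sq (eulerPoly (k + 1) z) 0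
  rw [mul_zero] at h
  rw [coeff_ofNat_mul, h, eulerPoly_succ, coeff_add, mul_coeff_zero, coeff_X_zero, zero_mul,
    coeff_C_zero, zero_add]

theorem coeff_two_mul_euler_succ {k : ℕ} (z : Fin (k + 1) → A) (j : Fin k) :
    (2 * (eulerPoly (k + 1) z).comp (X ^ 2) : A[X]).coeff (2 * (j + 1)) = 2 * z j.succ := by
  rw [coeff_ofNat_mul, coeff_comp_sq, eulerPoly_succ, coeff_add, coeff_X_mul, coeff_C_succ,
    add_zero, coeff_monicPoly]

end coeffs

/-! ### The algebra of type `D` -/

section algD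

variable {F : Type*} [Field F] {m r : ℕ} {v : F[X]}

/-- the first generators of `AlgD` -/
noncomputable def yD (F : Type*) [Field F] (m r : ℕ) (v : F[X]) (i : Fin m) : AlgD F m r v :=
  Ideal.Quotient.mk _ (MvPolynomial.X (Sum.inl i))

/-- the second generators of `AlgD` -/
noncomputable def zD (F : Type*) [Field F] (m r : ℕ) (v : F[X]) (i : Fin r) : AlgD F m r v :=
  Ideal.Quotient.mk _ (MvPolynomial.X (Sum.inr i))

theorem relD : RelD m r (v.map (algebraMap F (AlgD F m r v))) (yD F m r v) (zD F m r v) := by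
  have h : (2 * (monicPoly m (fun i => (MvPolynomial.X (Sum.inl i) :
      MvPolynomial (Fin m ⊕ Fin r) F)) * bar m (monicPoly m fun i => MvPolynomial.X (Sum.inl i)) *
      (eulerPoly r fun i => MvPolynomial.X (Sum.inr i)).comp (X ^ 2)) - 2 * X ^ (2 * (m + r)) +
      X * (v.map MvPolynomial.C * bar m (monicPoly m fun i => MvPolynomial.X (Sum.inl i)) -
        (-1) ^ m * (neg (v.map MvPolynomial.C) *
          monicPoly m fun i => MvPolynomial.X (Sum.inl i)))).map
      (Ideal.Quotient.mk (idealD F m r v)) = 0 := by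
    ext j
    rw [coeff_map, coeff_zero, Ideal.Quotient.eq_zero_iff_mem]
    exact Ideal.mem_sup_left (Ideal.subset_span ⟨j, rfl⟩)
  simp only [Polynomial.map_add, Polynomial.map_sub, Polynomial.map_mul, Polynomial.map_pow,
    Polynomial.map_comp, map_X, map_bar, map_neg_poly, map_monicPoly, map_eulerPoly,
    Polynomial.map_neg, Polynomial.map_one, Polynomial.map_ofNat, Polynomial.map_map] at h
  exact h

theorem yz_zero {m k : ℕ} : yD F (m + 1) (k + 1) v 0 * zD F (m + 1) (k + 1) v 0 = 0 := by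
  rw [yD, zD, ← map_mul, Ideal.Quotient.eq_zero_iff_mem]
  exact Ideal.mem_sup_right (Ideal.subset_span ⟨0, 0, rfl, rfl, rfl⟩)

theorem mem_of_gens {S : Type*} [CommRing S] (q : AlgD F m r v →+* S)
    (hq : Function.Surjective q) (T : Subring S) (h1 : ∀ f : F, q (algebraMap F _ f) ∈ T)
    (h2 : ∀ i, q (yD F m r v i) ∈ T) (h3 : ∀ j, q (zD F m r v j) ∈ T) (a : S) : a ∈ T := by
  obtain ⟨b, rfl⟩ := hq a
  obtain ⟨p, rfl⟩ := Ideal.Quotient.mk_surjective b
  induction p using MvPolynomial.induction_on with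
  | C f => exact h1 f
  | add p q' hp hq' => rw [map_add, map_add]; exact T.add_mem hp hq'
  | mul_X p i hp =>
    rw [map_mul, map_mul]
    refine T.mul_mem hp ?_
    rcases i with i | j
    · exact h2 i
    · exact h3 j

theorem surj_C [CharZero F] {k : ℕ} {S : Type*} [CommRing S] (q : AlgD F m (k + 1) v →+* S)
    (hq : Function.Surjective q) (hz : q (zD F m (k + 1) v 0) = 0) :
    ∃ φ : AlgC F m (m + k) v →+* S, (∀ f : F, φ (algebraMap F _ f) = q (algebraMap F _ f)) ∧
      Function.Surjective φ := by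
  have hrel := (relD (F := F) (m := m) (r := k + 1) (v := v)).map q
  have h0 := hrel.z0 hz
  set ι : F →+* S := q.comp (algebraMap F _) with hι
  have hV : (v.map (algebraMap F (AlgD F m (k + 1) v))).map q = v.map ι := by
    rw [Polynomial.map_map]
  rw [hV] at h0
  obtain ⟨φ, hφ1, hφ2⟩ := exists_ringHom_C ι (fun i => q (yD F m (k + 1) v i)) ⟨_, h0.symm⟩
  refine ⟨φ, hφ1, ?_⟩
  rcases subsingleton_or_nontrivial S with hs | hn
  · exact fun a => ⟨0, Subsingleton.elim _ _⟩
  obtain ⟨Q, hQ⟩ := relC (F := F) (m := m) (n := m + k) (v := v)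
  have hQ' := congrArg (Polynomial.map φ) hQ
  rw [map_polyC, Polynomial.map_mul, Polynomial.map_mul, map_bar, map_monicPoly,
    Polynomial.map_map, show φ.comp (algebraMap F _) = ι from RingHom.ext hφ1] at hQ'
  simp only [hφ2] at hQ'
  have hmon := monic_mul_bar (monic_monicPoly fun i => q (yD F m (k + 1) v i))
    (natDegree_monicPoly _)
  have hcan : Q.map φ = 2 * (X * (monicPoly k fun i => q (zD F m (k + 1) v i.succ)).comp
      (X ^ 2)) := by
    apply hmon.isRegular.left
    exact hQ'.symm.trans h0.symm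
  have h2 : (2 : F) ≠ 0 := two_ne_zero
  intro a
  refine mem_of_gens q hq φ.range (fun f => ⟨_, hφ1 f⟩) (fun i => ⟨_, hφ2 i⟩) (fun j => ?_) a
  induction j using Fin.cases with
  | zero => rw [hz]; exact zero_mem _
  | succ j =>
    refine ⟨algebraMap F _ (1 / 2) * Q.coeff (2 * j + 1), ?_⟩
    rw [map_mul, hφ1, ← coeff_map, hcan, coeff_two_mul_X_comp, ← mul_assoc]
    have h3 : ι (1 / 2) * 2 = 1 := by
      rw [← map_ofNat ι 2, ← map_mul, one_div, inv_mul_cancel₀ h2, map_one]
    rw [h3, one_mul]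

theorem surj_B [CharZero F] {k : ℕ} {S : Type*} [CommRing S]
    (q : AlgD F (m + 1) (k + 1) v →+* S) (hq : Function.Surjective q)
    (hy : q (yD F (m + 1) (k + 1) v 0) = 0) {Q : (AlgB F m (m + k + 1) v)[X]}
    (hQ : polyB m (m + k + 1) (v.map (algebraMap F (AlgB F m (m + k + 1) v)))
      (monicPoly m (yB F m (m + k + 1) v)) = monicPoly m (yB F m (m + k + 1) v) *
        bar m (monicPoly m (yB F m (m + k + 1) v)) * Q) :
    ∃ φ : QuadraticAlgebra (AlgB F m (m + k + 1) v)
      (algebraMap F (AlgB F m (m + k + 1) v) ((-1) ^ (k + 1) * (1 / 2)) * Q.coeff 0) 0 →+* S,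
      (∀ f : F, φ (algebraMap F _ f) = q (algebraMap F _ f)) ∧ Function.Surjective φ := by
  have hrel := (relD (F := F) (m := m + 1) (r := k + 1) (v := v)).map q
  have h0 := hrel.y0 hy
  set ι : F →+* S := q.comp (algebraMap F _) with hι
  have hV : (v.map (algebraMap F (AlgD F (m + 1) (k + 1) v))).map q = v.map ι := by
    rw [Polynomial.map_map]
  rw [hV] at h0
  obtain ⟨ψ, hψ1, hψ2⟩ := exists_ringHom_B ι (fun i => q (yD F (m + 1) (k + 1) v i.succ))
    ⟨_, h0.symm⟩
  rcases subsingleton_or_nontrivial S with hs | hn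
  · refine ⟨quadLift ψ 0 (Subsingleton.elim _ _), fun f => Subsingleton.elim _ _,
      fun a => ⟨0, Subsingleton.elim _ _⟩⟩
  have hQ' := congrArg (Polynomial.map ψ) hQ
  rw [map_polyB, Polynomial.map_mul, Polynomial.map_mul, map_bar, map_monicPoly,
    Polynomial.map_map, show ψ.comp (algebraMap F _) = ι from RingHom.ext hψ1] at hQ'
  simp only [hψ2] at hQ'
  have hmon := monic_mul_bar (monic_monicPoly fun i => q (yD F (m + 1) (k + 1) v i.succ))
    (natDegree_monicPoly _)
  have hcan : Q.map ψ = 2 * (eulerPoly (k + 1) fun i => q (zD F (m + 1) (k + 1) v i)).comp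
      (X ^ 2) := by
    apply hmon.isRegular.left
    exact hQ'.symm.trans h0.symm
  have h2 : (2 : F) ≠ 0 := two_ne_zero
  have h3 : ι (1 / 2) * 2 = 1 := by
    rw [← map_ofNat ι 2, ← map_mul, one_div, inv_mul_cancel₀ h2, map_one]
  have hs2 : ((-1 : S)) ^ (k + 1) * (-1) ^ (k + 1) = 1 := by
    rw [← pow_add, Even.neg_one_pow ⟨k + 1, rfl⟩]
  have hw : q (zD F (m + 1) (k + 1) v 0) * q (zD F (m + 1) (k + 1) v 0) =
      ψ (algebraMap F (AlgB F m (m + k + 1) v) ((-1) ^ (k + 1) * (1 / 2)) * Q.coeff 0) := by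
    rw [map_mul, hψ1, ← coeff_map, hcan, coeff_two_mul_euler_zero, map_mul, map_pow, map_neg,
      map_one]
    linear_combination (-(q (zD F (m + 1) (k + 1) v 0)) ^ 2) * (ι (1 / 2) * 2) * hs2 -
      (q (zD F (m + 1) (k + 1) v 0)) ^ 2 * h3
  refine ⟨quadLift ψ _ hw, fun f => ?_, fun a => ?_⟩
  · change ψ (algebraMap F _ f) + ψ 0 * _ = _
    rw [map_zero, zero_mul, add_zero, hψ1]
    rfl
  · have hψr : ∀ b, ψ b ∈ (quadLift ψ _ hw).range := by
      intro b
      refine ⟨⟨b, 0⟩, ?_⟩
      change ψ b + ψ 0 * _ = _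
      rw [map_zero, zero_mul, add_zero]
    refine mem_of_gens q hq (quadLift ψ _ hw).range (fun f => ?_) (fun i => ?_) (fun j => ?_) a
    · have := hψr (algebraMap F _ f)
      rw [hψ1] at this
      exact this
    · induction i using Fin.cases with
      | zero => rw [hy]; exact zero_mem _
      | succ i =>
        have := hψr (yB F m (m + k + 1) v i)
        rw [hψ2] at this
        exact this
    · induction j using Fin.cases with
      | zero =>
        refine ⟨⟨0, 1⟩, ?_⟩
        change ψ 0 + ψ 1 * _ = _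
        rw [map_zero, map_one, zero_add, one_mul]
      | succ j =>
        have h5 : ψ (algebraMap F _ (1 / 2) * Q.coeff (2 * (j + 1))) =
            q (zD F (m + 1) (k + 1) v j.succ) := by
          rw [map_mul, hψ1, ← coeff_map, hcan, coeff_two_mul_euler_succ, ← mul_assoc, h3,
            one_mul]
        rw [← h5]
        exact hψr _

end algD

/-! ### Generic parameters -/

section generic

variable {K : Type*} [Field K] [CharZero K] {m k : ℕ}

theorem isUnit_coeff_zero {Q : (AlgB (Par K (m + 1)) m (m + k + 1) (genV K (m + 1)))[X]}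
    (hQ : polyB m (m + k + 1) ((genV K (m + 1)).map
      (algebraMap _ (AlgB (Par K (m + 1)) m (m + k + 1) (genV K (m + 1)))))
      (monicPoly m (yB (Par K (m + 1)) m (m + k + 1) (genV K (m + 1)))) =
        monicPoly m (yB (Par K (m + 1)) m (m + k + 1) (genV K (m + 1))) *
        bar m (monicPoly m (yB (Par K (m + 1)) m (m + k + 1) (genV K (m + 1)))) * Q) :
    IsUnit (Q.coeff 0) := by
  by_contra hu
  obtain ⟨p, hp, hmem⟩ := exists_max_ideal_of_mem_nonunits hu
  let _ : Field (AlgB (Par K (m + 1)) m (m + k + 1) (genV K (m + 1)) ⧸ p) :=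
    Ideal.Quotient.field p
  have h1 := congrArg (Polynomial.map (Ideal.Quotient.mk p)) hQ
  rw [map_polyB, Polynomial.map_mul, Polynomial.map_mul, map_bar, map_monicPoly,
    Polynomial.map_map] at h1
  refine noz_B' (E := AlgB (Par K (m + 1)) m (m + k + 1) (genV K (m + 1)) ⧸ p) _ le_rfl
    (by omega) (monic_monicPoly _) (natDegree_monicPoly _) h1 ?_
  rw [coeff_map]
  exact Ideal.Quotient.eq_zero_iff_mem.2 hmem

theorem isCoprime_yz_gen {A : Type*} [CommRing A] (g : Par K (m + 1) →+* A)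
    {y : Fin (m + 1) → A} {z : Fin (k + 1) → A}
    (h : RelD (m + 1) (k + 1) ((genV K (m + 1)).map g) y z) :
    IsCoprime (Ideal.span {y 0}) (Ideal.span {z 0}) := by
  rw [Ideal.isCoprime_iff_sup_eq]
  by_contra hne
  obtain ⟨p, hp, hle⟩ := Ideal.exists_le_maximal _ hne
  have hy : Ideal.Quotient.mk p (y 0) = 0 :=
    Ideal.Quotient.eq_zero_iff_mem.2 (hle (Ideal.mem_sup_left (Ideal.mem_span_singleton_self _)))
  have hz : Ideal.Quotient.mk p (z 0) = 0 :=
    Ideal.Quotient.eq_zero_iff_mem.2 (hle (Ideal.mem_sup_right (Ideal.mem_span_singleton_self _)))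
  have hrel := (h.map (Ideal.Quotient.mk p)).z0 hz
  let _ : Field (A ⧸ p) := Ideal.Quotient.field p
  rw [Polynomial.map_map] at hrel
  refine noz_C' (E := A ⧸ p) _ le_rfl
    (by omega) (monic_monicPoly _) (natDegree_monicPoly _) ⟨_, hrel.symm⟩ ?_
  rw [monicPoly_succ, hy, C_0, add_zero]
  exact dvd_mul_right _ _

theorem isCoprime_yz : IsCoprime
    (Ideal.span {yD (Par K (m + 1)) (m + 1) (k + 1) (genV K (m + 1)) 0})
    (Ideal.span {zD (Par K (m + 1)) (m + 1) (k + 1) (genV K (m + 1)) 0}) :=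
  isCoprime_yz_gen _ relD

end generic

/-! ### Chinese remainders -/

section crt

variable {F A : Type*} [Field F] [CommRing A] [Algebra F A]

theorem semisimple_finite_of_crt {y z : A} (hyz : y * z = 0)
    (hc : IsCoprime (Ideal.span {y}) (Ideal.span {z}))
    {S T : Type*} [CommRing S] [CommRing T] [Algebra F S] [Algebra F T]
    (φ : S →+* A ⧸ Ideal.span {y}) (hφ : Function.Surjective φ)
    (hφF : ∀ f : F, φ (algebraMap F S f) = algebraMap F _ f)
    (ψ : T →+* A ⧸ Ideal.span {z}) (hψ : Function.Surjective ψ)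
    (hψF : ∀ f : F, ψ (algebraMap F T f) = algebraMap F _ f)
    [IsSemisimpleRing S] [IsSemisimpleRing T] [Module.Finite F S] [Module.Finite F T] :
    IsSemisimpleRing A ∧ Module.Finite F A := by
  have h1 : IsSemisimpleRing (A ⧸ Ideal.span {y}) := φ.isSemisimpleRing_of_surjective hφ
  have h2 : IsSemisimpleRing (A ⧸ Ideal.span {z}) := ψ.isSemisimpleRing_of_surjective hψ
  have hmul : Ideal.span {y} * Ideal.span {z} = (⊥ : Ideal A) := by
    rw [Ideal.span_singleton_mul_span_singleton, hyz, Ideal.span_singleton_eq_bot]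
  have hinf : Ideal.span {y} ⊓ Ideal.span {z} = (⊥ : Ideal A) := by
    rw [← Ideal.mul_eq_inf_of_isCoprime hc, hmul]
  constructor
  · let e := Ideal.quotientMulEquivQuotientProd _ _ hc
    let e1 : (A ⧸ (Ideal.span {y} * Ideal.span {z})) ≃+* A :=
      (Ideal.quotEquivOfEq hmul).trans (RingEquiv.quotientBot A)
    exact RingHom.isSemisimpleRing_of_surjective (e.symm.trans e1).toRingHom
      (e.symm.trans e1).surjective
  · have h3 : Module.Finite F (A ⧸ Ideal.span {y}) :=
      Module.Finite.of_surjective ({ φ with commutes' := hφF } : S →ₐ[F] _).toLinearMap hφ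
    have h4 : Module.Finite F (A ⧸ Ideal.span {z}) :=
      Module.Finite.of_surjective ({ ψ with commutes' := hψF } : T →ₐ[F] _).toLinearMap hψ
    refine Module.Finite.of_injective (((Ideal.Quotient.mkₐ F (Ideal.span {y})).toLinearMap).prod
      ((Ideal.Quotient.mkₐ F (Ideal.span {z})).toLinearMap)) ?_
    rw [injective_iff_map_eq_zero]
    intro a ha
    have h5 : a ∈ Ideal.span {y} := Ideal.Quotient.eq_zero_iff_mem.1 (congrArg Prod.fst ha)
    have h6 : a ∈ Ideal.span {z} := Ideal.Quotient.eq_zero_iff_mem.1 (congrArg Prod.snd ha)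
    have h7 : a ∈ (⊥ : Ideal A) := by rw [← hinf]; exact ⟨h5, h6⟩
    exact h7

end crt

theorem algD_core {K : Type*} [Field K] [CharZero K] {m k : ℕ}
    [IsSemisimpleRing (AlgC (Par K (m + 1)) (m + 1) (m + 1 + k) (genV K (m + 1)))]
    [Module.Finite (Par K (m + 1)) (AlgC (Par K (m + 1)) (m + 1) (m + 1 + k) (genV K (m + 1)))]
    [IsSemisimpleRing (AlgB (Par K (m + 1)) m (m + k + 1) (genV K (m + 1)))]
    [Module.Finite (Par K (m + 1)) (AlgB (Par K (m + 1)) m (m + k + 1) (genV K (m + 1)))] :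
    IsSemisimpleRing (AlgD (Par K (m + 1)) (m + 1) (k + 1) (genV K (m + 1))) ∧
      Module.Finite (Par K (m + 1)) (AlgD (Par K (m + 1)) (m + 1) (k + 1) (genV K (m + 1))) := by
  have hchar : CharZero (Par K (m + 1)) :=
    charZero_of_injective_algebraMap (algebraMap K (Par K (m + 1))).injective
  obtain ⟨Q, hQ⟩ := relB (F := Par K (m + 1)) (m := m) (n := m + k + 1) (v := genV K (m + 1))
  have hu := isUnit_coeff_zero hQ
  have h2 : (2 : Par K (m + 1)) ≠ 0 := two_ne_zero
  have hu' : IsUnit (algebraMap (Par K (m + 1)) (AlgB (Par K (m + 1)) m (m + k + 1)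
      (genV K (m + 1))) ((-1) ^ (k + 1) * (1 / 2)) * Q.coeff 0) := by
    refine IsUnit.mul (IsUnit.map _ (isUnit_iff_ne_zero.2 ?_)) hu
    exact mul_ne_zero (pow_ne_zero _ (neg_ne_zero.2 one_ne_zero)) (one_div_ne_zero h2)
  have h2' : IsUnit (2 : AlgB (Par K (m + 1)) m (m + k + 1) (genV K (m + 1))) := by
    have := IsUnit.map (algebraMap (Par K (m + 1)) (AlgB (Par K (m + 1)) m (m + k + 1)
      (genV K (m + 1)))) (isUnit_iff_ne_zero.2 h2)
    rwa [map_ofNat] at this
  have hss := isSemisimpleRing_quad hu' h2'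
  have hfin : Module.Finite (Par K (m + 1)) (QuadraticAlgebra (AlgB (Par K (m + 1)) m (m + k + 1)
      (genV K (m + 1))) (algebraMap (Par K (m + 1)) (AlgB (Par K (m + 1)) m (m + k + 1)
      (genV K (m + 1))) ((-1) ^ (k + 1) * (1 / 2)) * Q.coeff 0) 0) :=
    Module.Finite.trans (AlgB (Par K (m + 1)) m (m + k + 1) (genV K (m + 1))) _
  have hy0 : Ideal.Quotient.mk (Ideal.span {yD (Par K (m + 1)) (m + 1) (k + 1)
      (genV K (m + 1)) 0}) (yD (Par K (m + 1)) (m + 1) (k + 1) (genV K (m + 1)) 0) = 0 :=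
    Ideal.Quotient.eq_zero_iff_mem.2 (Ideal.mem_span_singleton_self _)
  have hz0 : Ideal.Quotient.mk (Ideal.span {zD (Par K (m + 1)) (m + 1) (k + 1)
      (genV K (m + 1)) 0}) (zD (Par K (m + 1)) (m + 1) (k + 1) (genV K (m + 1)) 0) = 0 :=
    Ideal.Quotient.eq_zero_iff_mem.2 (Ideal.mem_span_singleton_self _)
  obtain ⟨φ, hφ1, hφ2⟩ := surj_B (S := AlgD (Par K (m + 1)) (m + 1) (k + 1) (genV K (m + 1)) ⧸
    Ideal.span {yD (Par K (m + 1)) (m + 1) (k + 1) (genV K (m + 1)) 0}) (Ideal.Quotient.mk _)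
    Ideal.Quotient.mk_surjective hy0 hQ
  obtain ⟨ψ, hψ1, hψ2⟩ := surj_C (S := AlgD (Par K (m + 1)) (m + 1) (k + 1) (genV K (m + 1)) ⧸
    Ideal.span {zD (Par K (m + 1)) (m + 1) (k + 1) (genV K (m + 1)) 0}) (Ideal.Quotient.mk _)
    Ideal.Quotient.mk_surjective hz0
  exact semisimple_finite_of_crt yz_zero isCoprime_yz φ hφ2 hφ1 ψ hψ2 hψ1

end Pool.Agent.Helper72.Iso
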