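import Pool.Agent.Helper72.Iso.Fld
import Pool.Agent.Helper72.Iso.Univ
import Pool.Agent.Helper72.Iso.ALG
import Pool.Agent.Helper72.Iso.ART
import Pool.Agent.Helper72.Iso.COP

/-!
The algebra of type `C` is a finite field extension of `K(v)`.
-/

open Polynomial

namespace Pool.Agent.Helper72.Iso

theorem natDegree_ofCoeffs_le {A : Type*} [CommRing A] {s : ℕ} (v : Fin s → A) :
    (ofCoeffs v).natDegree ≤ s - 1 := by
  refine natDegree_le_iff_degree_le.2 ?_
  have h := degree_ofCoeffs_lt v
  by_cases h0 : ofCoeffs v = 0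
  · rw [h0]; simp
  · rw [degree_eq_natDegree h0] at h ⊢
    have h1 : (ofCoeffs v).natDegree < s := by exact_mod_cast h
    exact_mod_cast (by omega : (ofCoeffs v).natDegree ≤ s - 1)

/-- algebraicity of a quotient domain from that of the generators -/
theorem isAlgebraic_quotient {F A ι : Type*} [Field F] [CommRing A] [Algebra F A] (y : ι → A)
    (hy : Function.Surjective (MvPolynomial.aeval (R := F) y)) (p : Ideal A) [p.IsPrime]
    (h : ∀ i, IsAlgebraic F
      (algebraMap (A ⧸ p) (FractionRing (A ⧸ p)) (Ideal.Quotient.mk p (y i)))) :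
    Algebra.IsAlgebraic F (A ⧸ p) := by
  refine ⟨fun b => ?_⟩
  obtain ⟨a, rfl⟩ := Ideal.Quotient.mk_surjective b
  obtain ⟨q, rfl⟩ := hy a
  rw [← isAlgebraic_algebraMap_iff (A := FractionRing (A ⧸ p))
    (IsFractionRing.injective (A ⧸ p) (FractionRing (A ⧸ p)))]
  induction q using MvPolynomial.induction_on with
  | C a =>
    rw [MvPolynomial.aeval_C, ← Ideal.Quotient.algebraMap_eq,
      ← IsScalarTower.algebraMap_apply F A (A ⧸ p),
      ← IsScalarTower.algebraMap_apply F (A ⧸ p) (FractionRing (A ⧸ p))]
    exact isAlgebraic_algebraMap _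
  | add p q hp hq => rw [map_add, map_add, map_add]; exact hp.add hq
  | mul_X p i hp =>
    rw [map_mul, map_mul, map_mul, MvPolynomial.aeval_X]
    exact hp.mul (h i)

/-- `K(v)`-algebra: unit determinant from coprimality at the maximal ideals -/
theorem isUnit_det_linMat {A : Type*} [CommRing A] {m δ : ℕ} {e : A} (he : e * e = 1)
    (h2 : IsUnit (2 : A)) (hδ : δ < 2) (hd : (-1 : A) ^ δ = -e) {P : A[X]} (hP : P.Monic)
    (hm : P.natDegree = m)
    (hcop : ∀ p : Ideal A, p.IsMaximal →
      IsCoprime (P.map (Ideal.Quotient.mk p)) (neg (P.map (Ideal.Quotient.mk p)))) :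
    IsUnit (linMat e m δ P).det := by
  by_contra hu
  obtain ⟨p, hp, hmem⟩ := exists_max_ideal_of_mem_nonunits (mem_nonunits_iff.2 hu)
  let _ : Field (A ⧸ p) := Ideal.Quotient.field p
  set f : A →+* A ⧸ p := Ideal.Quotient.mk p with hf
  have h3 : f (linMat e m δ P).det = 0 := Ideal.Quotient.eq_zero_iff_mem.2 hmem
  rw [RingHom.map_det, RingHom.mapMatrix_apply, map_linMat] at h3
  refine det_linMat_ne_zero (e := f e) ?_ ?_ hδ ?_ (hP.map f) ?_ (hcop p hp) h3
  · have h4 := (h2.map f).ne_zero
    rwa [map_ofNat] at h4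
  · rw [← map_mul, he, map_one]
  · have := congrArg f hd
    simpa using this
  · rw [hP.natDegree_map, hm]

section general

variable {K : Type*} [Field K] {s m n : ℕ} {A : Type*} [CommRing A] [Algebra (Par K s) A]

instance (R : Type*) [Field R] [CharZero R] (s : ℕ) : CharZero (Par R s) :=
  charZero_of_injective_algebraMap (algebraMap R (Par R s)).injective

theorem genV_map {B : Type*} [CommRing B] (f : Par K s →+* B) :
    (genV K s).map f = ofCoeffs fun i => f (vF K s i) := by
  rw [genV_eq, map_ofCoeffs]

theorem isUnit_two_of_algebra (F A : Type*) [Field F] [CharZero F] [CommRing A] [Algebra F A] :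
    IsUnit (2 : A) := by
  have h : IsUnit (2 : F) := isUnit_iff_ne_zero.2 two_ne_zero
  have := h.map (algebraMap F A)
  rwa [map_ofNat] at this

theorem finite_of_relC [CharZero K] [Algebra.FiniteType (Par K s) A] (y : Fin m → A)
    (hy : Function.Surjective (MvPolynomial.aeval (R := Par K s) y))
    (h : monicPoly m y * bar m (monicPoly m y) ∣
      polyC m n ((genV K s).map (algebraMap (Par K s) A)) (monicPoly m y))
    (hs : 1 ≤ s) (hn : s + m ≤ 2 * n + 1) :
    Module.Finite (Par K s) A := by
  refine finite_of_points fun p _ => isAlgebraic_quotient y hy p fun i => ?_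
  set L := FractionRing (A ⧸ p) with hL
  set f : A →+* L := (algebraMap (A ⧸ p) L).comp (Ideal.Quotient.mk p) with hf
  have h1 := Polynomial.map_dvd f h
  rw [Polynomial.map_mul, map_bar, map_polyC, map_monicPoly, Polynomial.map_map] at h1
  have h2 : f.comp (algebraMap (Par K s) A) = algebraMap (Par K s) L := by
    ext a
    rw [IsScalarTower.algebraMap_apply (Par K s) (A ⧸ p) L,
      IsScalarTower.algebraMap_apply (Par K s) A (A ⧸ p)]
    rfl
  rw [h2] at h1
  have h3 := isAlgebraic_coeff_C (F := Par K s) (L := L) (m := m) (n := n) (v := genV K s)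
    (by
      have := natDegree_ofCoeffs_le (vF K s)
      rw [← genV_eq] at this
      omega) (monic_monicPoly _) (natDegree_monicPoly _) h1 i
  rw [coeff_monicPoly] at h3
  exact h3

theorem finite_of_relB [CharZero K] [Algebra.FiniteType (Par K s) A] (y : Fin m → A)
    (hy : Function.Surjective (MvPolynomial.aeval (R := Par K s) y))
    (h : monicPoly m y * bar m (monicPoly m y) ∣
      polyB m n ((genV K s).map (algebraMap (Par K s) A)) (monicPoly m y))
    (hs : 1 ≤ s) (hn : s + m ≤ 2 * n) :
    Module.Finite (Par K s) A := by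
  refine finite_of_points fun p _ => isAlgebraic_quotient y hy p fun i => ?_
  set L := FractionRing (A ⧸ p) with hL
  set f : A →+* L := (algebraMap (A ⧸ p) L).comp (Ideal.Quotient.mk p) with hf
  have h1 := Polynomial.map_dvd f h
  rw [Polynomial.map_mul, map_bar, map_polyB, map_monicPoly, Polynomial.map_map] at h1
  have h2 : f.comp (algebraMap (Par K s) A) = algebraMap (Par K s) L := by
    ext a
    rw [IsScalarTower.algebraMap_apply (Par K s) (A ⧸ p) L,
      IsScalarTower.algebraMap_apply (Par K s) A (A ⧸ p)]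
    rfl
  rw [h2] at h1
  have h3 := isAlgebraic_coeff_B (F := Par K s) (L := L) (m := m) (n := n) (v := genV K s)
    (by
      have := natDegree_ofCoeffs_le (vF K s)
      rw [← genV_eq] at this
      omega) (monic_monicPoly _) (natDegree_monicPoly _) h1 i
  rw [coeff_monicPoly] at h3
  exact h3

variable [Algebra K A] [IsScalarTower K (Par K s) A]

/-- the image of the generic relation at a maximal ideal is coprime -/
theorem coprime_at_C [CharZero K] (y : Fin m → A)
    (h : monicPoly m y * bar m (monicPoly m y) ∣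
      polyC m n ((genV K s).map (algebraMap (Par K s) A)) (monicPoly m y))
    (hms : m ≤ s) (hmn : m ≤ n) (p : Ideal A) (hp : p.IsMaximal) :
    IsCoprime ((monicPoly m y).map (Ideal.Quotient.mk p))
      (neg ((monicPoly m y).map (Ideal.Quotient.mk p))) := by
  let _ : Field (A ⧸ p) := Ideal.Quotient.field p
  have h1 := Polynomial.map_dvd (Ideal.Quotient.mk p) h
  rw [Polynomial.map_mul, map_bar, map_polyC, Polynomial.map_map, genV_map] at h1
  refine coprime_C (K := K) (s := s) (E := A ⧸ p)
    (algebraicIndependent_vE (K := K) (s := s) (IsScalarTower.toAlgHom K (Par K s) (A ⧸ p)))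
    hms hmn ((monic_monicPoly _).map _) ?_ h1
  have hA : Nontrivial A := (Ideal.Quotient.mk p).domain_nontrivial
  rw [(monic_monicPoly _).natDegree_map, natDegree_monicPoly]

omit [IsScalarTower K (Par K s) A] in
/-- the image of the generic relation at a maximal ideal is coprime -/
theorem coprime_at_B [CharZero K] (hm : 0 < m) (y : Fin m → A)
    (h : monicPoly m y * bar m (monicPoly m y) ∣
      polyB m n ((genV K s).map (algebraMap (Par K s) A)) (monicPoly m y))
    (hy : IsUnit (y ⟨0, hm⟩)) (hmn : m ≤ n) (p : Ideal A) (hp : p.IsMaximal) :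
    IsCoprime ((monicPoly m y).map (Ideal.Quotient.mk p))
      (neg ((monicPoly m y).map (Ideal.Quotient.mk p))) := by
  let _ : Field (A ⧸ p) := Ideal.Quotient.field p
  have h1 := Polynomial.map_dvd (Ideal.Quotient.mk p) h
  rw [Polynomial.map_mul, map_bar, map_polyB, Polynomial.map_map, genV_map] at h1
  have hA : Nontrivial A := (Ideal.Quotient.mk p).domain_nontrivial
  refine coprime_B (K := K) (s := s) (E := A ⧸ p)
    hmn ((monic_monicPoly _).map _) ?_ ?_ h1
  · rw [(monic_monicPoly _).natDegree_map, natDegree_monicPoly]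
  · rw [coeff_map, coeff_monicPoly y ⟨0, hm⟩]
    exact (hy.map (Ideal.Quotient.mk p)).ne_zero

end general

section field

variable {K : Type*} [Field K] {m t n : ℕ} {A : Type*} [CommRing A] [Algebra (Par K (m + t)) A]
  [Algebra K A] [IsScalarTower K (Par K (m + t)) A]

/-- clearing denominators in an algebra generated by `y` -/
theorem exists_unit_mul (y : Fin m → A)
    (hy : Function.Surjective (MvPolynomial.aeval (R := Par K (m + t)) y)) (a : A) :
    ∃ u : A, IsUnit u ∧ ∃ g : MvPolynomial (Fin (m + t) ⊕ Fin m) K,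
      u * a = MvPolynomial.aeval (Sum.elim (vA K (m + t) A) y) g := by
  obtain ⟨p, rfl⟩ := hy a
  obtain ⟨d, hd, g, hg⟩ := exists_clear y p
  refine ⟨_, ?_, g, hg⟩
  have h1 : IsUnit (algebraMap (MvPolynomial (Fin (m + t)) K) (Par K (m + t)) d) :=
    isUnit_iff_ne_zero.2 ((map_ne_zero_iff _
      (IsFractionRing.injective (MvPolynomial (Fin (m + t)) K) (Par K (m + t)))).2 hd)
  exact h1.map _

/-- A finite algebra with an injective ring homomorphism to a field is a field. -/
theorem isField_of_injective {F A E : Type*} [Field F] [CommRing A] [Algebra F A]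
    [Module.Finite F A] [Field E] (θ : A →+* E) (hθ : Function.Injective θ) : IsField A := by
  have h1 : Nontrivial A := θ.domain_nontrivial
  have h2 : IsDomain A := hθ.isDomain θ
  exact isField_of_isIntegral_of_isField' (R := F) (Field.toIsField F)

/-- The relation of type C over the adjoined parameters gives algebraic independence. -/
theorem algebraicIndependent_wC [CharZero K] (hs : 1 ≤ m + t) (hn : m + t + m ≤ 2 * n + 1) :
    AlgebraicIndependent K (wR K 1 (2 * n + 1) 1 t m) := by
  refine algebraicIndependent_of_algebraic (fun j => by simp [wR]) fun i => ?_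
  set w := wR K 1 (2 * n + 1) 1 t m with hw
  set F' := IntermediateField.adjoin K (Set.range w) with hF'
  have hmem : ∀ k, w k ∈ F' := fun k => IntermediateField.subset_adjoin _ _ ⟨k, rfl⟩
  have h1 := dvd_wR (K := K) (t := t) (m := m) (e := 1) (N := 2 * n + 1) (δ := 1) (by ring)
    (by norm_num) (by rw [pow_succ, pow_mul]; simp) (by simp)
  rw [map_one, ← polyC_eq] at h1
  have h2 : ofCoeffs w = (ofCoeffs fun k => (⟨w k, hmem k⟩ : F')).map
      (algebraMap F' (RF K t m)) := by
    rw [map_ofCoeffs]; rfl
  rw [← hw, h2] at h1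
  have h3 := isAlgebraic_coeff_C (F := F') (L := RF K t m) (m := m) (n := n)
    (by
      have := natDegree_ofCoeffs_le (fun k => (⟨w k, hmem k⟩ : F'))
      omega) (monic_monicPoly _) (natDegree_monicPoly _) h1 i
  rwa [coeff_monicPoly] at h3

theorem algebraicIndependent_wB [CharZero K] (hs : 1 ≤ m + t) (hn : m + t + m ≤ 2 * n) :
    AlgebraicIndependent K (wR K (-1) (2 * n) 0 t m) := by
  refine algebraicIndependent_of_algebraic (fun j => by simp [wR]) fun i => ?_
  set w := wR K (-1) (2 * n) 0 t m with hw
  set F' := IntermediateField.adjoin K (Set.range w) with hF'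
  have hmem : ∀ k, w k ∈ F' := fun k => IntermediateField.subset_adjoin _ _ ⟨k, rfl⟩
  have h1 := dvd_wR (K := K) (t := t) (m := m) (e := -1) (N := 2 * n) (δ := 0) (by ring)
    (by norm_num) (by rw [pow_mul]; simp) (by simp)
  rw [map_neg, map_one, ← polyB_eq] at h1
  have h2 : ofCoeffs w = (ofCoeffs fun k => (⟨w k, hmem k⟩ : F')).map
      (algebraMap F' (RF K t m)) := by
    rw [map_ofCoeffs]; rfl
  rw [← hw, h2] at h1
  have h3 := isAlgebraic_coeff_B (F := F') (L := RF K t m) (m := m) (n := n)
    (by
      have := natDegree_ofCoeffs_le (fun k => (⟨w k, hmem k⟩ : F'))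
      omega) (monic_monicPoly _) (natDegree_monicPoly _) h1 i
  rwa [coeff_monicPoly] at h3

/-- the embedding of the parameters, type C -/
noncomputable def iC [CharZero K] (hs : 1 ≤ m + t) (hn : m + t + m ≤ 2 * n + 1) :
    Par K (m + t) →+* RF K t m := iotaR (algebraicIndependent_wC hs hn)

/-- the embedding of the parameters, type B -/
noncomputable def iB [CharZero K] (hs : 1 ≤ m + t) (hn : m + t + m ≤ 2 * n) :
    Par K (m + t) →+* RF K t m := iotaR (algebraicIndependent_wB hs hn)

/-- the point of `AlgC` with values in the rational function field -/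
theorem relC_RF [CharZero K] (hs : 1 ≤ m + t) (hn : m + t + m ≤ 2 * n + 1) :
    monicPoly m (yR K t m) * bar m (monicPoly m (yR K t m)) ∣
      polyC m n ((genV K (m + t)).map (iC hs hn))
        (monicPoly m (yR K t m)) := by
  have h1 := dvd_wR (K := K) (t := t) (m := m) (e := 1) (N := 2 * n + 1) (δ := 1) (by ring)
    (by norm_num) (by rw [pow_succ, pow_mul]; simp) (by simp)
  rw [map_one, ← polyC_eq] at h1
  rw [genV_map]
  simp only [iC, iotaR_vF]
  exact h1

theorem relB_RF [CharZero K] (hs : 1 ≤ m + t) (hn : m + t + m ≤ 2 * n) :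
    monicPoly m (yR K t m) * bar m (monicPoly m (yR K t m)) ∣
      polyB m n ((genV K (m + t)).map (iB hs hn))
        (monicPoly m (yR K t m)) := by
  have h1 := dvd_wR (K := K) (t := t) (m := m) (e := -1) (N := 2 * n) (δ := 0) (by ring)
    (by norm_num) (by rw [pow_mul]; simp) (by simp)
  rw [map_neg, map_one, ← polyB_eq] at h1
  rw [genV_map]
  simp only [iB, iotaR_vF]
  exact h1

theorem isField_of_relC [CharZero K] [Algebra.FiniteType (Par K (m + t)) A]
    (hs : 1 ≤ m + t) (hn : m + t + m ≤ 2 * n + 1) (y : Fin m → A)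
    (hy : Function.Surjective (MvPolynomial.aeval (R := Par K (m + t)) y))
    (hrel : monicPoly m y * bar m (monicPoly m y) ∣
      polyC m n ((genV K (m + t)).map (algebraMap (Par K (m + t)) A)) (monicPoly m y))
    (θ : A →+* RF K t m)
    (hθ : ∀ f, θ (algebraMap (Par K (m + t)) A f) = iC hs hn f)
    (hθy : ∀ i, θ (y i) = yR K t m i) : IsField A := by
  have hfin : Module.Finite (Par K (m + t)) A := finite_of_relC y hy hrel hs hn
  have hA : Nontrivial A := θ.domain_nontrivial
  have h2 : IsUnit (2 : A) := isUnit_two_of_algebra (Par K (m + t)) A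
  have hinj : Function.Injective θ := by
    refine injective_of_relation (1 : K) (N := 2 * n + 1) (δ := 1) y ?_ ?_
      (exists_unit_mul y hy) (algebraicIndependent_wC hs hn) (fun j => by simp [wR]) θ hθ hθy
    · rw [map_one, ← polyC_eq]
      rw [genV_map] at hrel
      exact hrel
    · refine isUnit_det_linMat (by simp) h2 (by norm_num) (by simp) (monic_monicPoly _)
        (natDegree_monicPoly _) fun p hp => ?_
      exact coprime_at_C y hrel (by omega) (by omega) p hp
  exact isField_of_injective (F := Par K (m + t)) θ hinj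

theorem isField_of_relB [CharZero K] [Algebra.FiniteType (Par K (m + t)) A]
    (hs : 1 ≤ m + t) (hn : m + t + m ≤ 2 * n) (hm : 0 < m) (y : Fin m → A)
    (hy : Function.Surjective (MvPolynomial.aeval (R := Par K (m + t)) y))
    (hrel : monicPoly m y * bar m (monicPoly m y) ∣
      polyB m n ((genV K (m + t)).map (algebraMap (Par K (m + t)) A)) (monicPoly m y))
    (hy0 : IsUnit (y ⟨0, hm⟩)) (θ : A →+* RF K t m)
    (hθ : ∀ f, θ (algebraMap (Par K (m + t)) A f) = iB hs hn f)
    (hθy : ∀ i, θ (y i) = yR K t m i) : IsField A := by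
  have hfin : Module.Finite (Par K (m + t)) A := finite_of_relB y hy hrel hs hn
  have hA : Nontrivial A := θ.domain_nontrivial
  have h2 : IsUnit (2 : A) := isUnit_two_of_algebra (Par K (m + t)) A
  have hinj : Function.Injective θ := by
    refine injective_of_relation (-1 : K) (N := 2 * n) (δ := 0) y ?_ ?_
      (exists_unit_mul y hy) (algebraicIndependent_wB hs hn) (fun j => by simp [wR]) θ hθ hθy
    · rw [map_neg, map_one, ← polyB_eq]
      rw [genV_map] at hrel
      exact hrel
    · refine isUnit_det_linMat (by simp) h2 (by norm_num) (by simp) (monic_monicPoly _)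
        (natDegree_monicPoly _) fun p hp => ?_
      exact coprime_at_B hm y hrel hy0 (by omega) p hp
  exact isField_of_injective (F := Par K (m + t)) θ hinj

end field

section typeC

variable {K : Type*} [Field K] [CharZero K]

theorem isField_AlgC_aux {m t n : ℕ} (hs : 1 ≤ m + t) (hn : m + t + m ≤ 2 * n + 1) :
    IsField (AlgC (Par K (m + t)) m n (genV K (m + t))) := by
  have hex := exists_ringHom_C (F := Par K (m + t)) (v := genV K (m + t)) (n := n) (m := m)
    (iC hs hn) (yR K t m) (relC_RF hs hn)
  have hrel := relC (F := Par K (m + t)) (v := genV K (m + t)) (n := n) (m := m)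
  have hy := aeval_yC_surjective (F := Par K (m + t)) (v := genV K (m + t)) (n := n) (m := m)
  obtain ⟨θ, hθ, hθy⟩ := hex
  exact isField_of_relC hs hn (yC _ _ _ _) hy hrel θ hθ hθy

/-- **Type C**: for `m ≤ s` and `s + m ≤ 2 n + 1` the algebra of type C over
`K(v_0, …, v_{s-1})` is a field. -/
theorem isField_AlgC {s m n : ℕ} (hms : m ≤ s) (hs : 1 ≤ s)
    (hn : s + m ≤ 2 * n + 1) : IsField (AlgC (Par K s) m n (genV K s)) := by
  obtain ⟨t, rfl⟩ := Nat.exists_eq_add_of_le hms
  exact isField_AlgC_aux hs hn

theorem finite_AlgC {s m n : ℕ} (hs : 1 ≤ s)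
    (hn : s + m ≤ 2 * n + 1) :
    Module.Finite (Par K s) (AlgC (Par K s) m n (genV K s)) :=
  finite_of_relC (yC _ _ _ _) aeval_yC_surjective relC hs hn

end typeC

end Pool.Agent.Helper72.Iso
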