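import Pool.Agent.Helper72.Iso.DD1
import Pool.Agent.Helper72.Iso.FldC
import Pool.Agent.Helper72.Iso.BBB

/-!
The algebra of type `D` at generic parameters is semisimple.
-/

open Polynomial

namespace Pool.Agent.Helper72.Iso

theorem isSemisimpleRing_AlgD' {K : Type*} [Field K] [CharZero K] {m r : ℕ} (hm : 1 ≤ m)
    (hr : 1 ≤ r) :
    IsSemisimpleRing (AlgD (Par K m) m r (genV K m)) ∧
      Module.Finite (Par K m) (AlgD (Par K m) m r (genV K m)) := by
  obtain ⟨m, rfl⟩ : ∃ m', m = m' + 1 := ⟨m - 1, by omega⟩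
  obtain ⟨k, rfl⟩ : ∃ k, r = k + 1 := ⟨r - 1, by omega⟩
  have hC : IsField (AlgC (Par K (m + 1)) (m + 1) (m + 1 + k) (genV K (m + 1))) :=
    isField_AlgC le_rfl hm (by omega)
  have hCf : Module.Finite (Par K (m + 1))
      (AlgC (Par K (m + 1)) (m + 1) (m + 1 + k) (genV K (m + 1))) :=
    finite_AlgC hm (by omega)
  have hCs : IsSemisimpleRing (AlgC (Par K (m + 1)) (m + 1) (m + 1 + k) (genV K (m + 1))) := by
    let _ := hC.toField
    infer_instance
  obtain ⟨hB, hBf⟩ := isSemisimpleRing_AlgB (K := K) (s := m + 1) (m := m) (n := m + k + 1)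
    (by omega) hm (by omega)
  exact algD_core

theorem isSemisimpleRing_AlgD {K : Type*} [Field K] [CharZero K] {m r : ℕ} (hm : 1 ≤ m)
    (hr : 2 ≤ r) :
    IsSemisimpleRing (AlgD (Par K m) m r (genV K m)) ∧
      Module.Finite (Par K m) (AlgD (Par K m) m r (genV K m)) :=
  isSemisimpleRing_AlgD' hm (by omega)

end Pool.Agent.Helper72.Iso
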