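import Pool.Agent.Helper72.Iso.DefsD
import Pool.Agent.Helper72.Iso.DD1
import Pool.Agent.Helper72.Iso.FldC
import Pool.Agent.Helper72.Iso.BBB

/-!
The invariant part of the algebra of type `D` at generic parameters is semisimple.
-/

open Polynomial

namespace Pool.Agent.Helper72.Iso

section basic

variable {A S : Type*} [CommRing A] [CommRing S]

theorem polyD_succ (m n : ℕ) (V P : A[X]) : polyD m (n + 1) V P = X * polyC m n V P := by
  rw [polyD, polyC]; ring

theorem map_polyD (f : A →+* S) (m n : ℕ) (V P : A[X]) :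
    (polyD m n V P).map f = polyD m n (V.map f) (P.map f) := by
  simp [polyD, map_bar, map_neg_poly]

end basic

/-- If `P P⁻ Q = X polyC` and `Q` vanishes at `0` to even order. -/
theorem noz_D {K E : Type*} [Field K] [CharZero K] [Field E] {s m n : ℕ} (g : Par K s →+* E)
    (hms : m ≤ s) (hmn : m ≤ n) {P Q : E[X]} (hP : P.Monic) (hm : P.natDegree = m)
    (h : X * polyC m n ((genV K s).map g) P = P * bar m P * Q) (hX : X ∣ P)
    (h0 : Q.coeff 0 = 0) : False := by
  have hcharP : CharZero (Par K s) :=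
    charZero_of_injective_algebraMap (algebraMap K (Par K s)).injective
  have hchar : CharZero E := (RingHom.charZero_iff g.injective).1 hcharP
  set V := (genV K s).map g with hV
  have hm2 : ((-1 : E[X])) ^ m * (-1) ^ m = 1 := by
    rw [← pow_add, Even.neg_one_pow ⟨m, rfl⟩]
  have hnbar : neg (bar m P) = (-1) ^ m * P := by
    rw [bar, neg_mul, neg_pow, neg_uminus, neg_one, neg_neg_poly]
  have hmon : (P * bar m P).Monic := monic_mul_bar hP hm
  have hQ : neg Q = Q := by
    have h1 := congrArg neg h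
    rw [neg_mul, neg_mul, neg_mul, hnbar, polyC, neg_add, neg_sub, neg_mul, neg_mul, neg_mul,
      neg_mul, neg_neg_poly, neg_two, neg_pow, neg_X, Odd.neg_pow ⟨n, rfl⟩, hnbar, neg_pow,
      neg_uminus, neg_one] at h1
    have h2 := h
    rw [polyC] at h2
    apply hmon.isRegular.left
    change P * bar m P * neg Q = P * bar m P * Q
    rw [bar] at h2 ⊢
    linear_combination h2 - h1
  have h1 : Q.coeff 1 = 0 := by
    have h3 := congrArg (fun p => coeff p 1) hQ
    simp only [coeff_neg, pow_one] at h3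
    have h4 : (2 : E) * Q.coeff 1 = 0 := by linear_combination -h3
    exact (mul_eq_zero.1 h4).resolve_left two_ne_zero
  obtain ⟨Q', hQ'⟩ : X ^ 2 ∣ Q := by
    rw [X_pow_dvd_iff]
    intro d hd
    have : d = 0 ∨ d = 1 := by omega
    rcases this with rfl | rfl
    · exact h0
    · exact h1
  refine noz_C' g hms hmn hP hm ⟨X * Q', ?_⟩ hX
  have hXr : IsLeftRegular (X : E[X]) := monic_X.isRegular.left
  apply hXr
  change X * _ = X * _
  rw [h, hQ']
  ring

section algDp

variable {F : Type*} [Field F] {m n : ℕ} {v : F[X]}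

/-- the generators of `AlgDp` -/
noncomputable def yDp (F : Type*) [Field F] (m n : ℕ) (v : F[X]) (i : Fin m) : AlgDp F m n v :=
  Ideal.Quotient.mk _ (MvPolynomial.X i)

/-- the quotient polynomial in `AlgDp` -/
noncomputable def QDp (F : Type*) [Field F] (m n : ℕ) (v : F[X]) : (AlgDp F m n v)[X] :=
  (polyD m n (v.map MvPolynomial.C) (genPoly F m) /ₘ
    (genPoly F m * bar m (genPoly F m))).map (Ideal.Quotient.mk (idealDp F m n v))

theorem relDp : polyD m n (v.map (algebraMap F (AlgDp F m n v))) (monicPoly m (yDp F m n v)) =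
    monicPoly m (yDp F m n v) * bar m (monicPoly m (yDp F m n v)) * QDp F m n v := by
  have h1 : monicPoly m (yDp F m n v) =
      (genPoly F m).map (Ideal.Quotient.mk (idealDp F m n v)) := (map_mk_genPoly _).symm
  have h2 := congrArg (Polynomial.map (Ideal.Quotient.mk (idealDp F m n v)))
    (modByMonic_add_div (polyD m n (v.map MvPolynomial.C) (genPoly F m))
      (genPoly F m * bar m (genPoly F m)))
  have h3 : (polyD m n (v.map MvPolynomial.C) (genPoly F m) %ₘ
      (genPoly F m * bar m (genPoly F m))).map (Ideal.Quotient.mk (idealDp F m n v)) = 0 := by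
    ext j
    rw [coeff_map, coeff_zero, Ideal.Quotient.eq_zero_iff_mem]
    exact Ideal.mem_sup_left (Ideal.subset_span ⟨j, rfl⟩)
  rw [Polynomial.map_add, h3, zero_add, Polynomial.map_mul, Polynomial.map_mul, map_bar,
    map_polyD, ← h1, map_mk_C] at h2
  exact h2.symm

theorem coeff_relDp : (monicPoly m (yDp F m n v)).coeff 0 * (QDp F m n v).coeff 0 = 0 := by
  have h1 : monicPoly m (yDp F m n v) =
      (genPoly F m).map (Ideal.Quotient.mk (idealDp F m n v)) := (map_mk_genPoly _).symm
  rw [h1, QDp, coeff_map, coeff_map, ← map_mul, Ideal.Quotient.eq_zero_iff_mem]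
  exact Ideal.mem_sup_right (Ideal.mem_span_singleton_self _)

theorem mem_of_gens_Dp {S : Type*} [CommRing S] (q : AlgDp F m n v →+* S)
    (hq : Function.Surjective q) (T : Subring S) (h1 : ∀ f : F, q (algebraMap F _ f) ∈ T)
    (h2 : ∀ i, q (yDp F m n v i) ∈ T) (a : S) : a ∈ T := by
  obtain ⟨b, rfl⟩ := hq a
  obtain ⟨p, rfl⟩ := Ideal.Quotient.mk_surjective b
  induction p using MvPolynomial.induction_on with
  | C f => exact h1 f
  | add p q' hp hq' => rw [map_add, map_add]; exact T.add_mem hp hq'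
  | mul_X p i hp =>
    rw [map_mul, map_mul]
    exact T.mul_mem hp (h2 i)

/-- the branch `Q(0) = 0` -/
theorem surj_Dp_C {S : Type*} [CommRing S] (q : AlgDp F m (n + 1) v →+* S)
    (hq : Function.Surjective q) (hz : q ((QDp F m (n + 1) v).coeff 0) = 0) :
    ∃ φ : AlgC F m n v →+* S, (∀ f : F, φ (algebraMap F _ f) = q (algebraMap F _ f)) ∧
      Function.Surjective φ := by
  have h1 := congrArg (Polynomial.map q) (relDp (F := F) (m := m) (n := n + 1) (v := v))
  rw [map_polyD, Polynomial.map_mul, Polynomial.map_mul, map_bar, map_monicPoly,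
    Polynomial.map_map, polyD_succ] at h1
  obtain ⟨Q', hQ'⟩ : X ∣ (QDp F m (n + 1) v).map q := by
    rw [X_dvd_iff, coeff_map, hz]
  have h2 : polyC m n (v.map (q.comp (algebraMap F _)))
      (monicPoly m fun i => q (yDp F m (n + 1) v i)) =
      (monicPoly m fun i => q (yDp F m (n + 1) v i)) *
        bar m (monicPoly m fun i => q (yDp F m (n + 1) v i)) * Q' := by
    have hXr : IsLeftRegular (X : S[X]) := monic_X.isRegular.left
    apply hXr
    change X * _ = X * _
    rw [h1, hQ']
    ring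
  obtain ⟨φ, hφ1, hφ2⟩ := exists_ringHom_C (F := F) (m := m) (n := n) (v := v)
    (q.comp (algebraMap F _)) (fun i => q (yDp F m (n + 1) v i)) ⟨Q', h2⟩
  exact ⟨φ, hφ1, fun a => mem_of_gens_Dp q hq φ.range (fun f => ⟨_, hφ1 f⟩)
    (fun i => ⟨_, hφ2 i⟩) a⟩

/-- the branch `P(0) = 0` -/
theorem surj_Dp_B {S : Type*} [CommRing S] (q : AlgDp F (m + 1) (n + 1) v →+* S)
    (hq : Function.Surjective q) (hy : q (yDp F (m + 1) (n + 1) v 0) = 0) :
    ∃ φ : AlgB F m n v →+* S, (∀ f : F, φ (algebraMap F _ f) = q (algebraMap F _ f)) ∧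
      Function.Surjective φ := by
  have h1 := congrArg (Polynomial.map q) (relDp (F := F) (m := m + 1) (n := n + 1) (v := v))
  rw [map_polyD, Polynomial.map_mul, Polynomial.map_mul, map_bar, map_monicPoly,
    Polynomial.map_map, polyD_succ, monicPoly_succ, hy, C_0, add_zero, polyC_succ_X_mul,
    bar_succ_X_mul] at h1
  have h2 : polyB m n (v.map (q.comp (algebraMap F _)))
      (monicPoly m fun i : Fin m => q (yDp F (m + 1) (n + 1) v i.succ)) =
      (monicPoly m fun i : Fin m => q (yDp F (m + 1) (n + 1) v i.succ)) *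
        bar m (monicPoly m fun i : Fin m => q (yDp F (m + 1) (n + 1) v i.succ)) *
          (QDp F (m + 1) (n + 1) v).map q := by
    have hXr : IsLeftRegular (X ^ 2 : S[X]) := (monic_X_pow 2).isRegular.left
    apply hXr
    change X ^ 2 * _ = X ^ 2 * _
    linear_combination h1
  obtain ⟨φ, hφ1, hφ2⟩ := exists_ringHom_B (F := F) (m := m) (n := n) (v := v)
    (q.comp (algebraMap F _)) (fun i : Fin m => q (yDp F (m + 1) (n + 1) v i.succ)) ⟨_, h2⟩
  refine ⟨φ, hφ1, fun a => mem_of_gens_Dp q hq φ.range (fun f => ⟨_, hφ1 f⟩) (fun i => ?_) a⟩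
  induction i using Fin.cases with
  | zero => rw [hy]; exact zero_mem _
  | succ i => exact ⟨_, hφ2 i⟩

/-- A ring homomorphism out of `AlgDp`, semilinear over `ι : F → A`. -/
theorem exists_ringHom_Dp {A : Type*} [CommRing A] (ι : F →+* A) (y : Fin m → A) (Q : A[X])
    (h : polyD m n (v.map ι) (monicPoly m y) = monicPoly m y * bar m (monicPoly m y) * Q)
    (h0 : (monicPoly m y).coeff 0 * Q.coeff 0 = 0) :
    ∃ φ : AlgDp F m n v →+* A, (∀ f, φ (algebraMap F _ f) = ι f) ∧
      ∀ i, φ (yDp F m n v i) = y i := by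
  set ψ : MvPolynomial (Fin m) F →+* A := MvPolynomial.eval₂Hom ι y with hψ
  have hψC : ∀ f, ψ (MvPolynomial.C f) = ι f := fun f => by simp [hψ]
  have hψX : ∀ i, ψ (MvPolynomial.X i) = y i := fun i => by simp [hψ]
  have hP : (genPoly F m).map ψ = monicPoly m y := by
    rw [genPoly, map_monicPoly]; congr 1; ext i; exact hψX i
  have hv : (v.map MvPolynomial.C).map ψ = v.map ι := by
    rw [Polynomial.map_map]; congr 1; ext f; exact hψC f
  have hI : ∀ a ∈ idealDp F m n v, ψ a = 0 := by
    rcases subsingleton_or_nontrivial A with hs | hn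
    · exact fun a _ => Subsingleton.elim _ _
    have hmon := monic_mul_bar (monic_monicPoly (A := MvPolynomial (Fin m) F) MvPolynomial.X)
      (natDegree_monicPoly _)
    have hmonA := monic_mul_bar (monic_monicPoly y) (natDegree_monicPoly _)
    have hle : idealDp F m n v ≤ RingHom.ker ψ := by
      refine sup_le (Ideal.span_le.2 ?_) (Ideal.span_le.2 ?_)
      · rintro _ ⟨j, rfl⟩
        change ψ _ = 0
        rw [← coeff_map, map_modByMonic _ hmon, map_polyD, Polynomial.map_mul, map_bar, hP, hv,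
          (modByMonic_eq_zero_iff_dvd hmonA).2 ⟨Q, h⟩, coeff_zero]
      · rintro _ rfl
        change ψ _ = 0
        rw [map_mul, ← coeff_map, ← coeff_map, map_divByMonic _ hmon, map_polyD,
          Polynomial.map_mul, map_bar, hP, hv, h, mul_divByMonic_cancel_left _ hmonA]
        exact h0
    exact fun a ha => hle ha
  refine ⟨Ideal.Quotient.lift _ ψ hI, fun f => ?_, fun i => ?_⟩
  · exact (Ideal.Quotient.lift_mk _ ψ hI).trans (hψC f)
  · exact (Ideal.Quotient.lift_mk _ ψ hI).trans (hψX i)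

end algDp

theorem isCoprime_Dp_gen {K A : Type*} [Field K] [CharZero K] [CommRing A] {s m n : ℕ}
    (g : Par K s →+* A) (hms : m + 1 ≤ s) (hmn : m + 1 ≤ n) {y : Fin (m + 1) → A} {Q : A[X]}
    (h : polyD (m + 1) (n + 1) ((genV K s).map g) (monicPoly (m + 1) y) =
      monicPoly (m + 1) y * bar (m + 1) (monicPoly (m + 1) y) * Q) :
    IsCoprime (Ideal.span {y 0}) (Ideal.span {Q.coeff 0}) := by
  rw [Ideal.isCoprime_iff_sup_eq]
  by_contra hne
  obtain ⟨p, hp, hle⟩ := Ideal.exists_le_maximal _ hne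
  have hy : Ideal.Quotient.mk p (y 0) = 0 :=
    Ideal.Quotient.eq_zero_iff_mem.2 (hle (Ideal.mem_sup_left (Ideal.mem_span_singleton_self _)))
  have hz : Ideal.Quotient.mk p (Q.coeff 0) = 0 :=
    Ideal.Quotient.eq_zero_iff_mem.2 (hle (Ideal.mem_sup_right (Ideal.mem_span_singleton_self _)))
  have h1 := congrArg (Polynomial.map (Ideal.Quotient.mk p)) h
  rw [map_polyD, Polynomial.map_mul, Polynomial.map_mul, map_bar, map_monicPoly,
    Polynomial.map_map, polyD_succ] at h1
  let _ : Field (A ⧸ p) := Ideal.Quotient.field p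
  refine noz_D (E := A ⧸ p) _ hms hmn (monic_monicPoly _) (natDegree_monicPoly _) h1 ?_ ?_
  · rw [monicPoly_succ, hy, C_0, add_zero]
    exact dvd_mul_right _ _
  · rw [coeff_map]
    exact hz

theorem isSemisimpleRing_AlgDp {K : Type*} [Field K] [CharZero K] {s m n : ℕ} (hm : 1 ≤ m)
    (hms : m ≤ s) (hn : s + m + 1 ≤ 2 * n) :
    IsSemisimpleRing (AlgDp (Par K s) m n (genV K s)) ∧
      Module.Finite (Par K s) (AlgDp (Par K s) m n (genV K s)) := by
  obtain ⟨m, rfl⟩ : ∃ m', m = m' + 1 := ⟨m - 1, by omega⟩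
  obtain ⟨n, rfl⟩ : ∃ n', n = n' + 1 := ⟨n - 1, by omega⟩
  have hs : 1 ≤ s := by omega
  have hC : IsField (AlgC (Par K s) (m + 1) n (genV K s)) := isField_AlgC hms hs (by omega)
  have hCf : Module.Finite (Par K s) (AlgC (Par K s) (m + 1) n (genV K s)) :=
    finite_AlgC hs (by omega)
  have hCs : IsSemisimpleRing (AlgC (Par K s) (m + 1) n (genV K s)) := by
    let _ := hC.toField
    infer_instance
  obtain ⟨hB, hBf⟩ := isSemisimpleRing_AlgB (K := K) (s := s) (m := m) (n := n)
    (by omega) hs (by omega)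
  have hy0 : Ideal.Quotient.mk (Ideal.span {yDp (Par K s) (m + 1) (n + 1) (genV K s) 0})
      (yDp (Par K s) (m + 1) (n + 1) (genV K s) 0) = 0 :=
    Ideal.Quotient.eq_zero_iff_mem.2 (Ideal.mem_span_singleton_self _)
  have hz0 : Ideal.Quotient.mk (Ideal.span {(QDp (Par K s) (m + 1) (n + 1) (genV K s)).coeff 0})
      ((QDp (Par K s) (m + 1) (n + 1) (genV K s)).coeff 0) = 0 :=
    Ideal.Quotient.eq_zero_iff_mem.2 (Ideal.mem_span_singleton_self _)
  obtain ⟨φ, hφ1, hφ2⟩ := surj_Dp_B (S := AlgDp (Par K s) (m + 1) (n + 1) (genV K s) ⧸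
    Ideal.span {yDp (Par K s) (m + 1) (n + 1) (genV K s) 0}) (Ideal.Quotient.mk _)
    Ideal.Quotient.mk_surjective hy0
  obtain ⟨ψ, hψ1, hψ2⟩ := surj_Dp_C (S := AlgDp (Par K s) (m + 1) (n + 1) (genV K s) ⧸
    Ideal.span {(QDp (Par K s) (m + 1) (n + 1) (genV K s)).coeff 0}) (Ideal.Quotient.mk _)
    Ideal.Quotient.mk_surjective hz0
  have hab : yDp (Par K s) (m + 1) (n + 1) (genV K s) 0 *
      (QDp (Par K s) (m + 1) (n + 1) (genV K s)).coeff 0 = 0 := by
    have h1 := coeff_relDp (F := Par K s) (m := m + 1) (n := n + 1) (v := genV K s)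
    have h2 : (monicPoly (m + 1) (yDp (Par K s) (m + 1) (n + 1) (genV K s))).coeff 0 =
        yDp (Par K s) (m + 1) (n + 1) (genV K s) 0 :=
      coeff_monicPoly (yDp (Par K s) (m + 1) (n + 1) (genV K s)) 0
    rwa [h2] at h1
  have hcop := isCoprime_Dp_gen _ hms (by omega)
    (relDp (F := Par K s) (m := m + 1) (n := n + 1) (v := genV K s))
  exact semisimple_finite_of_crt hab hcop φ hφ2 hφ1 ψ hψ2 hψ1

end Pool.Agent.Helper72.Iso
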