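import Mathlib

/-!
# Bulk-deformed quantum cohomology algebras of isotropic Grassmannians

For a monic polynomial `P` of degree `m` (with roots the Chern roots of `S^*`), `bar m P` is the
monic polynomial with the opposite roots.
-/

open Polynomial

namespace Pool.Agent.Helper72.Iso

section Basic

variable {A : Type*} [CommRing A]

/-- The polynomial `p(-X)`. -/
noncomputable def neg (p : A[X]) : A[X] := p.comp (-X)

/-- `(-1)^m P(-X)`: if `P = ∏ (X - x_i)` is monic of degree `m`, this is `∏ (X + x_i)`. -/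
noncomputable def bar (m : ℕ) (P : A[X]) : A[X] := (-1) ^ m * neg P

/-- Symplectic type (type `C`):
`2 X^(2n+1) - v(X) P⁻(X) + (-1)^m v(-X) P(X)`, with `P⁻ = bar m P`. -/
noncomputable def polyC (m n : ℕ) (v P : A[X]) : A[X] :=
  2 * X ^ (2 * n + 1) - v * bar m P + (-1) ^ m * (neg v * P)

/-- Odd orthogonal type (type `B`):
`2 X^(2n) - v(X) P⁻(X) - (-1)^m v(-X) P(X)`. -/
noncomputable def polyB (m n : ℕ) (v P : A[X]) : A[X] :=
  2 * X ^ (2 * n) - v * bar m P - (-1) ^ m * (neg v * P)

/-- The monic polynomial `X^m + ∑ y_i X^i`. -/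
noncomputable def monicPoly (m : ℕ) (y : Fin m → A) : A[X] := X ^ m + ∑ i : Fin m, C (y i) * X ^ (i : ℕ)

/-- The polynomial `∑ v_i X^i` of degree less than `s`. -/
noncomputable def ofCoeffs {s : ℕ} (v : Fin s → A) : A[X] := ∑ i : Fin s, C (v i) * X ^ (i : ℕ)

end Basic

section Algebras

variable (F : Type*) [Field F]

/-- The universal polynomial `X^m + ∑ y_i X^i` over `F[y_0, …, y_{m-1}]`. -/
noncomputable abbrev genPoly (m : ℕ) : (MvPolynomial (Fin m) F)[X] := monicPoly m MvPolynomial.X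

/-- The ideal of `F[y_0, …, y_{m-1}]` expressing that `P P⁻` divides `polyC m n v P`
for `P = X^m + ∑ y_i X^i`: it is generated by the coefficients of the remainder. -/
noncomputable def idealC (m n : ℕ) (v : F[X]) : Ideal (MvPolynomial (Fin m) F) :=
  Ideal.span (Set.range fun j =>
    (polyC m n (v.map MvPolynomial.C) (genPoly F m) %ₘ (genPoly F m * bar m (genPoly F m))).coeff j)

/-- The ideal of `F[y_0, …, y_{m-1}]` expressing that `P P⁻` divides `polyB m n v P`. -/
noncomputable def idealB (m n : ℕ) (v : F[X]) : Ideal (MvPolynomial (Fin m) F) :=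
  Ideal.span (Set.range fun j =>
    (polyB m n (v.map MvPolynomial.C) (genPoly F m) %ₘ (genPoly F m * bar m (genPoly F m))).coeff j)

/-- The algebra of type `C`. -/
abbrev AlgC (m n : ℕ) (v : F[X]) : Type _ := MvPolynomial (Fin m) F ⧸ idealC F m n v

/-- The algebra of type `B`. -/
abbrev AlgB (m n : ℕ) (v : F[X]) : Type _ := MvPolynomial (Fin m) F ⧸ idealB F m n v

/-- The polynomial `D(Z) = Z^r + z_{r-1} Z^(r-1) + ⋯ + z_1 Z + (-1)^r ε²`, where `ε = z_0`. -/
noncomputable def eulerPoly {A : Type*} [CommRing A] (r : ℕ) (z : Fin r → A) : A[X] :=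
  X ^ r + ∑ i : Fin r, (if (i : ℕ) = 0 then C ((-1) ^ r * z i ^ 2) else C (z i) * X ^ (i : ℕ))

/-- The ideal of `F[y_0, …, y_{m-1}, z_0, …, z_{r-1}]` generated by the coefficients of
`2 P P⁻ D(X²) - 2 X^(2(m+r)) + X (v(X) P⁻(X) - (-1)^m v(-X) P(X))` and by the products
`y_0 z_0`. -/
noncomputable def idealD (m r : ℕ) (v : F[X]) : Ideal (MvPolynomial (Fin m ⊕ Fin r) F) :=
  let P : (MvPolynomial (Fin m ⊕ Fin r) F)[X] := monicPoly m fun i => MvPolynomial.X (Sum.inl i)
  let D : (MvPolynomial (Fin m ⊕ Fin r) F)[X] := eulerPoly r fun i => MvPolynomial.X (Sum.inr i)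
  let w : (MvPolynomial (Fin m ⊕ Fin r) F)[X] := v.map MvPolynomial.C
  Ideal.span (Set.range fun j =>
      (2 * (P * bar m P * D.comp (X ^ 2)) - 2 * X ^ (2 * (m + r)) +
        X * (w * bar m P - (-1) ^ m * (neg w * P))).coeff j) ⊔
    Ideal.span {a | ∃ (i : Fin m) (k : Fin r), (i : ℕ) = 0 ∧ (k : ℕ) = 0 ∧
      a = MvPolynomial.X (Sum.inl i) * MvPolynomial.X (Sum.inr k)}

/-- The algebra of type `D`. -/
abbrev AlgD (m r : ℕ) (v : F[X]) : Type _ := MvPolynomial (Fin m ⊕ Fin r) F ⧸ idealD F m r v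

end Algebras

section Generic

variable (K : Type*) [Field K] (s : ℕ)

/-- The field `K(v_0, …, v_{s-1})` of rational functions in the bulk parameters. -/
abbrev Par : Type _ := FractionRing (MvPolynomial (Fin s) K)

/-- The polynomial `v(X) = v_0 + v_1 X + ⋯ + v_{s-1} X^(s-1)` with independent coefficients. -/
noncomputable def genV : (Par K s)[X] :=
  ofCoeffs fun i => algebraMap (MvPolynomial (Fin s) K) (Par K s) (MvPolynomial.X i)

end Generic

end Pool.Agent.Helper72.Iso
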