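import Pool.Agent.Helper72.Iso.Defs

/-!
# Type `D`: the invariant part
-/

open Polynomial

namespace Pool.Agent.Helper72.Iso

section

variable {A : Type*} [CommRing A]

/-- Even orthogonal type (type `D`), invariant part:
`2 X^(2n) - X (v(X) P⁻(X) - (-1)^m v(-X) P(X))`. -/
noncomputable def polyD (m n : ℕ) (v P : A[X]) : A[X] :=
  2 * X ^ (2 * n) - X * (v * bar m P - (-1) ^ m * (neg v * P))

end

variable (F : Type*) [Field F]

/-- The ideal of `F[y_0, …, y_{m-1}]` expressing that `P P⁻` divides `polyD m n v P`
for `P = X^m + ∑ y_i X^i`, and that the product of the constant terms of `P` and of the quotient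
vanishes. -/
noncomputable def idealDp (m n : ℕ) (v : F[X]) : Ideal (MvPolynomial (Fin m) F) :=
  Ideal.span (Set.range fun j =>
      (polyD m n (v.map MvPolynomial.C) (genPoly F m) %ₘ
        (genPoly F m * bar m (genPoly F m))).coeff j) ⊔
    Ideal.span {(genPoly F m).coeff 0 * (polyD m n (v.map MvPolynomial.C) (genPoly F m) /ₘ
      (genPoly F m * bar m (genPoly F m))).coeff 0}

/-- The invariant part of the algebra of type `D`. -/
abbrev AlgDp (m n : ℕ) (v : F[X]) : Type _ := MvPolynomial (Fin m) F ⧸ idealDp F m n v

end Pool.Agent.Helper72.Iso
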