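import Pool.Agent.Helper72.Iso.Defs

/-!
Odd symplectic Grassmannians.
-/

open Polynomial

namespace Pool.Agent.Helper72.Iso

variable (F : Type*) [Field F]

/-- The ideal of `F[y_0, …, y_{m-1}]` expressing that `P P⁻` divides `polyB m (n + 1) v P` and that
the quotient `Q` satisfies `P(0) Q(0) + 2 v(0) = 0`. -/
noncomputable def idealS (m n : ℕ) (v : F[X]) : Ideal (MvPolynomial (Fin m) F) :=
  idealB F m (n + 1) v ⊔ Ideal.span {(genPoly F m).coeff 0 *
    (polyB m (n + 1) (v.map MvPolynomial.C) (genPoly F m) /ₘ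
      (genPoly F m * bar m (genPoly F m))).coeff 0 + 2 * (v.map MvPolynomial.C).coeff 0}

/-- The algebra of the odd symplectic Grassmannian `IG(m, 2n+1)`. -/
abbrev AlgS (m n : ℕ) (v : F[X]) : Type _ := MvPolynomial (Fin m) F ⧸ idealS F m n v

end Pool.Agent.Helper72.Iso
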