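import Pool.Agent.Helper72.Iso.Lin

/-!
The determinant of the linear system is nonzero when `P(X)` and `P(-X)` are coprime.
-/

open Polynomial

namespace Pool.Agent.Helper72.Iso

theorem eq_zero_of_parity {A : Type*} [CommRing A] [NoZeroDivisors A] (h2 : (2 : A) ≠ 0) {e : A}
    (he : e * e = 1) {δ m : ℕ} (hδ : δ < 2) (hd : (-1 : A) ^ δ = -e) {S : A[X]}
    (hdeg : S.degree < (2 * m : ℕ)) (hpar : neg S = -(C e * S))
    (h : ∀ i < m, S.coeff (2 * i + δ) = 0) : S = 0 := by
  ext k
  rw [coeff_zero]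
  rcases lt_or_ge k (2 * m) with hk | hk
  · by_cases hkδ : k % 2 = δ
    · have hi : k / 2 < m := by omega
      have hk2 : 2 * (k / 2) + δ = k := by omega
      have := h (k / 2) hi
      rwa [hk2] at this
    · have h1 := congrArg (fun p : A[X] => p.coeff k) hpar
      simp only [Polynomial.coeff_neg, coeff_C_mul] at h1
      rw [Pool.Agent.Helper72.Iso.coeff_neg] at h1
      have h4 : (-1 : A) ^ k = e := by
        have h5 : (-1 : A) ^ k * (-1) ^ δ = -1 := by
          rw [← pow_add]
          exact Odd.neg_one_pow (by rw [Nat.odd_iff]; omega)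
        rw [hd] at h5
        have h6 : (-1 : A) ^ k * e = 1 := by linear_combination -h5
        calc (-1 : A) ^ k = (-1 : A) ^ k * e * e := by rw [mul_assoc, he, mul_one]
          _ = e := by rw [h6, one_mul]
      rw [h4] at h1
      have h7 : e * (2 * S.coeff k) = 0 := by linear_combination h1
      have h8 : 2 * S.coeff k = 0 := by
        have := congrArg (e * ·) h7
        simpa [← mul_assoc, he] using this
      exact (mul_eq_zero.1 h8).resolve_left h2
  · exact coeff_eq_zero_of_degree_lt (hdeg.trans_le (by exact_mod_cast hk))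

theorem det_linMat_ne_zero {E : Type*} [Field E] (h2 : (2 : E) ≠ 0) {e : E} (he : e * e = 1)
    {m δ : ℕ} (hδ : δ < 2) (hd : (-1 : E) ^ δ = -e) {P : E[X]} (hP : P.Monic)
    (hm : P.natDegree = m) (hcop : IsCoprime P (neg P)) : (linMat e m δ P).det ≠ 0 := by
  intro hdet
  obtain ⟨w, hw0, hw⟩ := Matrix.exists_mulVec_eq_zero_iff.2 hdet
  set W : E[X] := ofCoeffs w with hW
  -- the combination of the `termP`
  have hS : polyG e m 0 W P - 2 * X ^ 0 = ∑ k : Fin m, C (w k) * termP e m k P := by
    rw [hW, polyG_ofCoeffs]; ring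
  have hS' : (∑ k : Fin m, C (w k) * termP e m k P) = 0 := by
    refine eq_zero_of_parity h2 he hδ hd (m := m) ?_ ?_ ?_
    · refine lt_of_le_of_lt (degree_sum_le _ _) ?_
      rw [Finset.sup_lt_iff (WithBot.bot_lt_coe _)]
      intro k _
      have h1 : (C (w k) * termP e m k P).natDegree ≤ m + k :=
        (natDegree_C_mul_le _ _).trans (natDegree_termP_le e hm.le)
      refine lt_of_le_of_lt degree_le_natDegree ?_
      exact_mod_cast lt_of_le_of_lt h1 (by omega)
    · rw [neg_sum, Finset.mul_sum, ← Finset.sum_neg_distrib]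
      refine Finset.sum_congr rfl fun j _ => ?_
      rw [neg_mul, neg_C, neg_termP he]; ring
    · intro i hi
      have h1 := congrFun hw ⟨i, hi⟩
      simp only [Matrix.mulVec, dotProduct, linMat, Matrix.of_apply, Pi.zero_apply] at h1
      rw [finsetSum_coeff, ← h1]
      exact Finset.sum_congr rfl fun k _ => by rw [coeff_C_mul, mul_comm]
  rw [hS', polyG, bar] at hS
  have h3 : W * neg P = C e * (neg W * P) := by
    have h5 : ((-1 : E[X]) ^ m) * (-1) ^ m = 1 := by
      rw [← mul_pow]; simp
    linear_combination (-(-1) ^ m) * hS + (C e * (neg W * P) - W * neg P) * h5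
  have h4 : P ∣ W := by
    have h5 : P ∣ W * neg P := by rw [h3]; exact ⟨C e * neg W, by ring⟩
    exact (hcop.dvd_of_dvd_mul_right h5)
  have h6 : W = 0 := by
    by_contra hne
    have h7 := degree_le_of_dvd h4 hne
    have h8 := degree_ofCoeffs_lt w
    rw [← hW] at h8
    rw [degree_eq_natDegree hP.ne_zero, hm] at h7
    exact absurd (lt_of_le_of_lt h7 h8) (lt_irrefl _)
  apply hw0
  ext k
  have h9 := coeff_ofCoeffs w (k : ℕ)
  rw [dif_pos k.2, ← hW, h6, coeff_zero] at h9
  exact h9.symm

/-- `(X + 1)^m` is coprime to its reflection. -/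
theorem exists_coprime (E : Type*) [Field E] (h2 : (2 : E) ≠ 0) (m : ℕ) :
    ∃ P : E[X], P.Monic ∧ P.natDegree = m ∧ IsCoprime P (neg P) := by
  refine ⟨(X + C 1) ^ m, (monic_X_add_C 1).pow m, ?_, ?_⟩
  · rw [natDegree_pow, natDegree_X_add_C, mul_one]
  · rw [neg_pow, neg_add, neg_X, neg_C]
    refine IsCoprime.pow ?_
    refine ⟨C (2⁻¹), C (2⁻¹), ?_⟩
    have : (C (2⁻¹ : E) * C 2) = 1 := by rw [← C_mul, inv_mul_cancel₀ h2, C_1]
    have h3 : (C 2 : E[X]) = C 1 + C 1 := by rw [← C_add]; norm_num
    rw [h3] at this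
    linear_combination this

end Pool.Agent.Helper72.Iso
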