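import Pool.Agent.Helper72.Iso.Det

/-!
Embedding of algebras satisfying the relations into a rational function field.
-/

open Polynomial

namespace Pool.Agent.Helper72.Iso

variable {K : Type*} [Field K] {m t : ℕ}

/-- `K[v_m, …, v_{m+t-1}, y_0, …, y_{m-1}]` -/
abbrev Uni (K : Type*) [Field K] (t m : ℕ) : Type _ := MvPolynomial (Fin t ⊕ Fin m) K

/-- the universal monic polynomial over `Uni` -/
noncomputable abbrev PU (K : Type*) [Field K] (t m : ℕ) : (Uni K t m)[X] :=
  monicPoly m fun i => MvPolynomial.X (Sum.inr i)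

/-- the Cramer solution: numerators -/
noncomputable def numU (K : Type*) [Field K] (e : K) (N δ t m : ℕ) : Fin m → Uni K t m :=
  (linMat (MvPolynomial.C e) m δ (PU K t m)).adjugate.mulVec
    (-linVec (MvPolynomial.C e) m N t δ (fun j => MvPolynomial.X (Sum.inl j)) (PU K t m))

/-- the determinant -/
noncomputable def detU (K : Type*) [Field K] (e : K) (δ t m : ℕ) : Uni K t m :=
  (linMat (MvPolynomial.C e) m δ (PU K t m)).det

section

variable {A : Type*} [CommRing A] [Algebra K A]

/-- Cramer's rule in any `K`-algebra with a solution of the relation. -/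
theorem cramer (e : K) {N δ : ℕ} (v : Fin (m + t) → A) (y : Fin m → A)
    (h : monicPoly m y * bar m (monicPoly m y) ∣
      polyG (algebraMap K A e) m N (ofCoeffs v) (monicPoly m y)) (k : Fin m) :
    MvPolynomial.aeval (Sum.elim (fun j => v (Fin.natAdd m j)) y) (detU K e δ t m) *
        v (Fin.castAdd t k) =
      MvPolynomial.aeval (Sum.elim (fun j => v (Fin.natAdd m j)) y) (numU K e N δ t m k) := by
  nontriviality A
  set ψ : Uni K t m →+* A :=
    (MvPolynomial.aeval (Sum.elim (fun j => v (Fin.natAdd m j)) y) : Uni K t m →ₐ[K] A).toRingHom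
    with hψ
  have hψ' : ∀ u, MvPolynomial.aeval (Sum.elim (fun j => v (Fin.natAdd m j)) y) u = ψ u :=
    fun u => rfl
  have hP : (PU K t m).map ψ = monicPoly m y := by
    rw [PU, map_monicPoly]
    congr 1
    ext i
    simp [hψ]
  have he : ψ (MvPolynomial.C e) = algebraMap K A e := by
    simp [hψ]
  have hdet : (linMat (algebraMap K A e) m δ (monicPoly m y)) =
      (linMat (MvPolynomial.C e) m δ (PU K t m)).map ψ := by
    rw [map_linMat, he, hP]
  have hvec : linVec (algebraMap K A e) m N t δ (fun j => v (Fin.natAdd m j)) (monicPoly m y) =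
      fun i => ψ (linVec (MvPolynomial.C e) m N t δ (fun j => MvPolynomial.X (Sum.inl j))
        (PU K t m) i) := by
    ext i
    rw [map_linVec ψ _ m N t δ _ (monic_monicPoly _) (natDegree_monicPoly _), he, hP]
    congr 1
    ext j
    simp [hψ]
  have h1 := linMat_mulVec (δ := δ) (monic_monicPoly y) (natDegree_monicPoly y) h
  rw [hdet, hvec] at h1
  have h2 := congrArg (fun u => (((linMat (MvPolynomial.C e) m δ (PU K t m)).map ψ).adjugate.mulVec
    u) k) h1
  simp only [Matrix.mulVec_mulVec, Matrix.adjugate_mul] at h2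
  rw [Matrix.smul_mulVec, Matrix.one_mulVec, Pi.smul_apply, smul_eq_mul] at h2
  rw [hψ', hψ', detU, numU, RingHom.map_det, RingHom.mapMatrix_apply, h2]
  -- map of the adjugate
  rw [show ((linMat (MvPolynomial.C e) m δ (PU K t m)).map ψ).adjugate =
    ((linMat (MvPolynomial.C e) m δ (PU K t m)).adjugate).map ψ from
      (RingHom.map_adjugate ψ _).symm]
  simp [Matrix.mulVec, dotProduct, map_sum]

/-- Every polynomial expression in all the parameters and in `y` becomes, after multiplication by a
power of the determinant, a polynomial expression in the high parameters and `y`. -/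
theorem exists_reduce (e : K) {N δ : ℕ} (v : Fin (m + t) → A) (y : Fin m → A)
    (h : monicPoly m y * bar m (monicPoly m y) ∣
      polyG (algebraMap K A e) m N (ofCoeffs v) (monicPoly m y))
    (g : MvPolynomial (Fin (m + t) ⊕ Fin m) K) :
    ∃ (r : ℕ) (G : Uni K t m),
      MvPolynomial.aeval (Sum.elim (fun j => v (Fin.natAdd m j)) y) (detU K e δ t m) ^ r *
          MvPolynomial.aeval (Sum.elim v y) g =
        MvPolynomial.aeval (Sum.elim (fun j => v (Fin.natAdd m j)) y) G := by
  induction g using MvPolynomial.induction_on with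
  | C a => exact ⟨0, MvPolynomial.C a, by simp⟩
  | add p q hp hq =>
    obtain ⟨r, G, hG⟩ := hp
    obtain ⟨r', G', hG'⟩ := hq
    refine ⟨r + r', detU K e δ t m ^ r' * G + detU K e δ t m ^ r * G', ?_⟩
    simp only [map_add, map_mul, map_pow]
    rw [← hG, ← hG']
    ring
  | mul_X p i hp =>
    obtain ⟨r, G, hG⟩ := hp
    rcases i with i | i
    · induction i using Fin.addCases with
      | left k =>
        refine ⟨r + 1, G * numU K e N δ t m k, ?_⟩
        have h1 := cramer (δ := δ) e v y h k
        simp only [map_mul, MvPolynomial.aeval_X, Sum.elim_inl]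
        rw [← hG, ← h1]
        ring
      | right j =>
        refine ⟨r, G * MvPolynomial.X (Sum.inl j), ?_⟩
        simp only [map_mul, MvPolynomial.aeval_X, Sum.elim_inl]
        rw [← hG]
        ring
    · refine ⟨r, G * MvPolynomial.X (Sum.inr i), ?_⟩
      simp only [map_mul, MvPolynomial.aeval_X, Sum.elim_inr]
      rw [← hG]
      ring

theorem map_detU (e : K) (δ : ℕ) (x : Fin t → A) (y : Fin m → A) :
    MvPolynomial.aeval (Sum.elim x y) (detU K e δ t m) =
      (linMat (algebraMap K A e) m δ (monicPoly m y)).det := by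
  set ψ : Uni K t m →+* A := (MvPolynomial.aeval (Sum.elim x y) : Uni K t m →ₐ[K] A).toRingHom
    with hψ
  have hP : (PU K t m).map ψ = monicPoly m y := by
    rw [PU, map_monicPoly]
    congr 1
    ext i
    simp [hψ]
  have he : ψ (MvPolynomial.C e) = algebraMap K A e := by
    simp [hψ]
  change ψ _ = _
  rw [detU, RingHom.map_det, RingHom.mapMatrix_apply, map_linMat, he, hP]

end

theorem detU_ne_zero (h2 : (2 : K) ≠ 0) {e : K} (he : e * e = 1) {δ : ℕ} (hδ : δ < 2)
    (hd : (-1 : K) ^ δ = -e) : detU K e δ t m ≠ 0 := by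
  intro h0
  obtain ⟨P, hP, hm, hcop⟩ := exists_coprime K h2 m
  have h1 := map_detU (A := K) e δ (fun _ : Fin t => (0 : K)) (fun i : Fin m => P.coeff i)
  rw [h0, map_zero, monicPoly_coeff hP hm] at h1
  exact det_linMat_ne_zero h2 (e := e) he hδ hd hP hm hcop h1.symm

/-- the field `K(v_m, …, y_0, …)` -/
abbrev RF (K : Type*) [Field K] (t m : ℕ) : Type _ := FractionRing (Uni K t m)

/-- the universal `y` in `RF` -/
noncomputable def yR (K : Type*) [Field K] (t m : ℕ) (i : Fin m) : RF K t m :=
  algebraMap (Uni K t m) (RF K t m) (MvPolynomial.X (Sum.inr i))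

/-- the high parameters in `RF` -/
noncomputable def xR (K : Type*) [Field K] (t m : ℕ) (j : Fin t) : RF K t m :=
  algebraMap (Uni K t m) (RF K t m) (MvPolynomial.X (Sum.inl j))

theorem aeval_xR_yR (g : Uni K t m) :
    MvPolynomial.aeval (Sum.elim (xR K t m) (yR K t m)) g = algebraMap _ (RF K t m) g := by
  have : (MvPolynomial.aeval (Sum.elim (xR K t m) (yR K t m)) : Uni K t m →ₐ[K] RF K t m) =
      IsScalarTower.toAlgHom K (Uni K t m) (RF K t m) := by
    refine MvPolynomial.algHom_ext fun i => ?_
    rcases i with i | i <;> simp [xR, yR]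
  rw [this]; rfl

/-- the parameters in `RF`: Cramer's rule -/
noncomputable def wR (K : Type*) [Field K] (e : K) (N δ t m : ℕ) : Fin (m + t) → RF K t m :=
  Fin.addCases (fun k => algebraMap (Uni K t m) (RF K t m) (numU K e N δ t m k) /
      algebraMap (Uni K t m) (RF K t m) (detU K e δ t m)) (fun j => xR K t m j)

theorem dvd_wR [CharZero K] {e : K} (he : e * e = 1) {N δ : ℕ} (hδ : δ < 2)
    (hN : (-1 : K) ^ N = -e) (hd : (-1 : K) ^ δ = -e) :
    monicPoly m (yR K t m) * bar m (monicPoly m (yR K t m)) ∣
      polyG (algebraMap K (RF K t m) e) m N (ofCoeffs (wR K e N δ t m))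
        (monicPoly m (yR K t m)) := by
  set κ := algebraMap (Uni K t m) (RF K t m) with hκ
  have hdet : κ (detU K e δ t m) ≠ 0 := by
    rw [hκ]
    exact (map_ne_zero_iff _ (IsFractionRing.injective (Uni K t m) (RF K t m))).2
      (detU_ne_zero two_ne_zero he hδ hd)
  have hC : κ (MvPolynomial.C e) = algebraMap K (RF K t m) e :=
    (IsScalarTower.algebraMap_apply K (Uni K t m) (RF K t m) e).symm
  have hP : (PU K t m).map κ = monicPoly m (yR K t m) := by
    rw [PU, map_monicPoly]; rfl
  have e1 : ∀ z : K, algebraMap K (RF K t m) z = algebraMap K (RF K t m) z := fun z => rfl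
  have hinj := (algebraMap K (RF K t m)).injective
  refine dvd_of_linMat_mulVec (two_ne_zero) (e := algebraMap K (RF K t m) e) ?_ hδ ?_ ?_
    (monic_monicPoly _) (natDegree_monicPoly _) ?_
  · rw [← map_mul, he, map_one]
  · have := congrArg (algebraMap K (RF K t m)) hN
    simpa using this
  · have := congrArg (algebraMap K (RF K t m)) hd
    simpa using this
  · have hM : linMat (algebraMap K (RF K t m) e) m δ (monicPoly m (yR K t m)) =
        (linMat (MvPolynomial.C e) m δ (PU K t m)).map κ := by
      rw [map_linMat, hC, hP]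
    have hV : linVec (algebraMap K (RF K t m) e) m N t δ
        (fun j => wR K e N δ t m (Fin.natAdd m j)) (monicPoly m (yR K t m)) =
        fun i => κ (linVec (MvPolynomial.C e) m N t δ (fun j => MvPolynomial.X (Sum.inl j))
          (PU K t m) i) := by
      ext i
      rw [map_linVec κ _ m N t δ _ (monic_monicPoly _) (natDegree_monicPoly _), hC, hP]
      congr 1
      ext j
      simp only [wR, Fin.addCases_right, xR, hκ]
    rw [hM, hV]
    have hw : (fun k : Fin m => wR K e N δ t m (Fin.castAdd t k)) =
        (κ (detU K e δ t m))⁻¹ • fun k => κ (numU K e N δ t m k) := by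
      ext k
      simp only [wR, Fin.addCases_left, Pi.smul_apply, smul_eq_mul, hκ]
      rw [div_eq_inv_mul]
    rw [hw, Matrix.mulVec_smul]
    have hnum : (fun k => κ (numU K e N δ t m k)) =
        ((linMat (MvPolynomial.C e) m δ (PU K t m)).map κ).adjugate.mulVec
          (-fun i => κ (linVec (MvPolynomial.C e) m N t δ (fun j => MvPolynomial.X (Sum.inl j))
            (PU K t m) i)) := by
      ext k
      rw [show ((linMat (MvPolynomial.C e) m δ (PU K t m)).map κ).adjugate =
        ((linMat (MvPolynomial.C e) m δ (PU K t m)).adjugate).map κ from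
          (RingHom.map_adjugate κ _).symm]
      simp [numU, Matrix.mulVec, dotProduct, map_sum]
    rw [hnum, Matrix.mulVec_mulVec, Matrix.mul_adjugate, Matrix.smul_mulVec, Matrix.one_mulVec,
      show ((linMat (MvPolynomial.C e) m δ (PU K t m)).map κ).det = κ (detU K e δ t m) from
        (RingHom.map_det κ _).symm, smul_smul, inv_mul_cancel₀ hdet, one_smul]

end Pool.Agent.Helper72.Iso
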