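import Pool.Agent.Helper72.Iso.DefsS
import Pool.Agent.Helper72.Iso.BBB

/-!
The algebra of the odd symplectic Grassmannian is a field.
-/

open Polynomial

namespace Pool.Agent.Helper72.Iso

theorem q_rel {A : Type*} [CommRing A] {m n : ℕ} (hn : 1 ≤ n) {v P Q : A[X]}
    (hQ : polyB m n v P = P * bar m P * Q) :
    P.coeff 0 * (P.coeff 0 * Q.coeff 0 + 2 * v.coeff 0) = 0 := by
  have h1 := congrArg (eval 0) hQ
  have h3 : (0 : A) ^ (2 * n) = 0 := zero_pow (by omega)
  have h4 : ((-1 : A) ^ m) * (-1) ^ m = 1 := by rw [← mul_pow]; simp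
  simp only [polyB, bar, eval_sub, eval_mul, eval_pow, eval_X, eval_neg, h3,
    eval_neg, eval_one, mul_zero, zero_sub, _root_.neg_zero, ← coeff_zero_eq_eval_zero,
    Polynomial.eval_neg] at h1
  linear_combination (-(-1) ^ m) * h1 - (P.coeff 0 * (P.coeff 0 * Q.coeff 0 + 2 * v.coeff 0)) * h4

section

variable {F : Type*} [Field F] {m n : ℕ} {v : F[X]}

/-- the generators of `AlgS` -/
noncomputable def yS (F : Type*) [Field F] (m n : ℕ) (v : F[X]) (i : Fin m) : AlgS F m n v :=
  Ideal.Quotient.mk _ (MvPolynomial.X i)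

/-- the generic quotient `Q` -/
noncomputable def quoB (F : Type*) [Field F] (m n : ℕ) (v : F[X]) : (MvPolynomial (Fin m) F)[X] :=
  polyB m n (v.map MvPolynomial.C) (genPoly F m) /ₘ (genPoly F m * bar m (genPoly F m))

/-- evaluation of the generic quotient at a point of `AlgB` -/
theorem polyB_eq_quoB {A : Type*} [CommRing A] (ψ : MvPolynomial (Fin m) F →+* A)
    (h : ∀ a ∈ idealB F m n v, ψ a = 0) :
    polyB m n (v.map (ψ.comp MvPolynomial.C)) (monicPoly m fun i => ψ (MvPolynomial.X i)) =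
      (monicPoly m fun i => ψ (MvPolynomial.X i)) *
        bar m (monicPoly m fun i => ψ (MvPolynomial.X i)) * (quoB F m n v).map ψ := by
  have hP : (genPoly F m).map ψ = monicPoly m fun i => ψ (MvPolynomial.X i) := map_monicPoly _ _ _
  have hM := monic_mul_bar (monic_monicPoly (m := m) (A := MvPolynomial (Fin m) F)
    MvPolynomial.X) (natDegree_monicPoly _)
  have h1 := modByMonic_add_div (polyB m n (v.map MvPolynomial.C) (genPoly F m))
    (genPoly F m * bar m (genPoly F m))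
  have h2 : (polyB m n (v.map MvPolynomial.C) (genPoly F m) %ₘ
      (genPoly F m * bar m (genPoly F m))).map ψ = 0 := by
    ext j
    rw [coeff_map, coeff_zero]
    exact h _ (Ideal.subset_span ⟨j, rfl⟩)
  have h3 := congrArg (Polynomial.map ψ) h1
  rw [Polynomial.map_add, h2, zero_add, Polynomial.map_mul, Polynomial.map_mul, map_bar,
    map_polyB, hP, Polynomial.map_map] at h3
  exact h3.symm

theorem mk_idealS_of_mem {a : MvPolynomial (Fin m) F} (ha : a ∈ idealB F m (n + 1) v) :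
    Ideal.Quotient.mk (idealS F m n v) a = 0 :=
  Ideal.Quotient.eq_zero_iff_mem.2 (le_sup_left (a := idealB F m (n + 1) v) ha)

theorem relS_aux : polyB m (n + 1) (v.map (algebraMap F (AlgS F m n v)))
      (monicPoly m (yS F m n v)) =
    monicPoly m (yS F m n v) * bar m (monicPoly m (yS F m n v)) *
      (quoB F m (n + 1) v).map (Ideal.Quotient.mk (idealS F m n v)) :=
  polyB_eq_quoB (Ideal.Quotient.mk (idealS F m n v)) fun _ ha => mk_idealS_of_mem ha

theorem aeval_yS_surjective : Function.Surjective (MvPolynomial.aeval (R := F) (yS F m n v)) := by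
  intro a
  obtain ⟨p, rfl⟩ := Ideal.Quotient.mk_surjective a
  refine ⟨p, ?_⟩
  have : (MvPolynomial.aeval (yS F m n v) : MvPolynomial (Fin m) F →ₐ[F] _) =
      Ideal.Quotient.mkₐ F (idealS F m n v) := by
    refine MvPolynomial.algHom_ext fun i => ?_
    simp [yS]
  rw [this]; rfl

theorem isUnit_yS (hm : 0 < m) (h2 : IsUnit (2 : F)) (hv : v.coeff 0 ≠ 0) :
    IsUnit (yS F m n v ⟨0, hm⟩) := by
  have h1 : Ideal.Quotient.mk (idealS F m n v) ((genPoly F m).coeff 0 *
      (quoB F m (n + 1) v).coeff 0 + 2 * (v.map MvPolynomial.C).coeff 0) = 0 :=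
    Ideal.Quotient.eq_zero_iff_mem.2 (le_sup_right (a := idealB F m (n + 1) v)
      (Ideal.mem_span_singleton_self _))
  rw [map_add, map_mul, map_mul, genPoly, coeff_monicPoly _ ⟨0, hm⟩, coeff_map, map_ofNat] at h1
  have h3 : Ideal.Quotient.mk (idealS F m n v) (MvPolynomial.C (v.coeff 0)) =
    algebraMap F (AlgS F m n v) (v.coeff 0) := rfl
  have h4 : IsUnit (2 * algebraMap F (AlgS F m n v) (v.coeff 0)) := by
    have h5 := (h2.mul (isUnit_iff_ne_zero.2 hv)).map (algebraMap F (AlgS F m n v))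
    rwa [map_mul, map_ofNat] at h5
  rw [h3] at h1
  refine isUnit_of_mul_isUnit_left (y := Ideal.Quotient.mk (idealS F m n v)
    ((quoB F m (n + 1) v).coeff 0)) ?_
  rw [yS, eq_neg_of_add_eq_zero_left h1]
  exact h4.neg

/-- ring homomorphisms out of `AlgS` -/
theorem exists_ringHom_S {A : Type*} [CommRing A] (ι : F →+* A) (y : Fin m → A) (Q : A[X])
    (h : polyB m (n + 1) (v.map ι) (monicPoly m y) =
      monicPoly m y * bar m (monicPoly m y) * Q)
    (h0 : (monicPoly m y).coeff 0 * Q.coeff 0 + 2 * (v.map ι).coeff 0 = 0) :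
    ∃ φ : AlgS F m n v →+* A, (∀ f, φ (algebraMap F _ f) = ι f) ∧ ∀ i, φ (yS F m n v i) = y i := by
  obtain ⟨φ, hφ, hφy⟩ := exists_ringHom_B (F := F) (m := m) (n := n + 1) (v := v) ι y ⟨Q, h⟩
  set ψ : MvPolynomial (Fin m) F →+* A := φ.comp (Ideal.Quotient.mk _) with hψ
  have hψy : ∀ i, ψ (MvPolynomial.X i) = y i := hφy
  have hψC : ∀ f, ψ (MvPolynomial.C f) = ι f := hφ
  have hψB : ∀ a ∈ idealB F m (n + 1) v, ψ a = 0 := by
    intro a ha
    rw [hψ, RingHom.comp_apply, Ideal.Quotient.eq_zero_iff_mem.2 ha, map_zero]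
  have h1 := polyB_eq_quoB ψ hψB
  have hC : ψ.comp MvPolynomial.C = ι := RingHom.ext hψC
  have hyy : (fun i => ψ (MvPolynomial.X i)) = y := funext hψy
  rw [hyy, hC, h] at h1
  have hQ : Q = (quoB F m (n + 1) v).map ψ := by
    nontriviality A
    exact (monic_mul_bar (monic_monicPoly y) (natDegree_monicPoly y)).isRegular.left h1
  have hgP : ψ ((genPoly F m).coeff 0) = (monicPoly m y).coeff 0 := by
    rw [← coeff_map, genPoly, map_monicPoly, hyy]
  have hvC : ψ ((v.map MvPolynomial.C).coeff 0) = (v.map ι).coeff 0 := by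
    rw [← coeff_map, Polynomial.map_map, hC]
  have hI : ∀ a ∈ idealS F m n v, ψ a = 0 := by
    intro a ha
    obtain ⟨b, hb, c, hc, rfl⟩ := Submodule.mem_sup.1 ha
    obtain ⟨d, rfl⟩ := Ideal.mem_span_singleton'.1 hc
    have h4 : ψ (coeff (polyB m (n + 1) (v.map MvPolynomial.C) (genPoly F m) /ₘ
      (genPoly F m * bar m (genPoly F m))) 0) = Q.coeff 0 := by
      rw [hQ, coeff_map]; rfl
    rw [map_add, hψB b hb, map_mul, map_add, map_mul, map_mul, hgP, map_ofNat, hvC, h4, h0,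
      mul_zero, add_zero]
  refine ⟨Ideal.Quotient.lift _ ψ hI, fun f => ?_, fun i => ?_⟩
  · exact (Ideal.Quotient.lift_mk _ ψ hI).trans (hψC f)
  · exact (Ideal.Quotient.lift_mk _ ψ hI).trans (hψy i)

/-- ring homomorphisms out of `AlgS` to a domain -/
theorem exists_ringHom_S_domain {A : Type*} [CommRing A] [IsDomain A] (hm : 0 < m) (ι : F →+* A)
    (y : Fin m → A) (hy : y ⟨0, hm⟩ ≠ 0)
    (h : monicPoly m y * bar m (monicPoly m y) ∣ polyB m (n + 1) (v.map ι) (monicPoly m y)) :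
    ∃ φ : AlgS F m n v →+* A, (∀ f, φ (algebraMap F _ f) = ι f) ∧ ∀ i, φ (yS F m n v i) = y i := by
  obtain ⟨Q, hQ⟩ := h
  refine exists_ringHom_S ι y Q hQ ?_
  have h2 := q_rel (by omega) hQ
  refine (mul_eq_zero.1 h2).resolve_left ?_
  rw [coeff_monicPoly _ ⟨0, hm⟩]
  exact hy

end

section

variable {K : Type*} [Field K] [CharZero K]

theorem isField_AlgS_aux {m t n : ℕ} (hm : 0 < m) (hn : m + t + m ≤ 2 * (n + 1)) :
    IsField (AlgS (Par K (m + t)) m n (genV K (m + t))) ∧
      Module.Finite (Par K (m + t)) (AlgS (Par K (m + t)) m n (genV K (m + t))) := by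
  have hs : 1 ≤ m + t := by omega
  have hex := exists_ringHom_S_domain (F := Par K (m + t)) (v := genV K (m + t)) (n := n)
    (m := m) hm (iB hs hn) (yR K t m)
    ((algebraicIndependent_xy (K := K) (t := t) (m := m)).ne_zero (Sum.inr _)) (relB_RF hs hn)
  have hrel : monicPoly m (yS (Par K (m + t)) m n (genV K (m + t))) *
      bar m (monicPoly m (yS (Par K (m + t)) m n (genV K (m + t)))) ∣ _ :=
    ⟨_, relS_aux (F := Par K (m + t)) (v := genV K (m + t)) (n := n) (m := m)⟩
  have hy := aeval_yS_surjective (F := Par K (m + t)) (v := genV K (m + t)) (n := n) (m := m)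
  obtain ⟨θ, hθ, hθy⟩ := hex
  refine ⟨?_, finite_of_relB (yS _ _ _ _) hy hrel hs hn⟩
  refine isField_of_relB hs hn hm (yS _ _ _ _) hy hrel ?_ θ hθ hθy
  refine isUnit_yS hm (isUnit_iff_ne_zero.2 two_ne_zero) ?_
  rw [genV_eq, coeff_ofCoeffs, dif_pos (by omega)]
  exact (algebraicIndependent_vF (K := K) (m + t)).ne_zero _

/-- **Odd symplectic Grassmannians**: for `1 ≤ m ≤ s` and `s + m ≤ 2 n + 2` the algebra over
`K(v_0, …, v_{s-1})` is a field. -/
theorem isField_AlgS {s m n : ℕ} (hm : 1 ≤ m) (hms : m ≤ s) (hn : s + m ≤ 2 * (n + 1)) :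
    IsField (AlgS (Par K s) m n (genV K s)) ∧
      Module.Finite (Par K s) (AlgS (Par K s) m n (genV K s)) := by
  obtain ⟨t, rfl⟩ := Nat.exists_eq_add_of_le hms
  exact isField_AlgS_aux hm hn

end

end Pool.Agent.Helper72.Iso
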