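import Pool.Agent.Helper72.Iso.Glue
import Pool.Agent.Helper72.Iso.Odd
import Pool.Agent.Helper72.Iso.DDp

/-!
Semisimplicity of algebras generated by elements satisfying the relations.
-/

open Polynomial TensorProduct
open Pool.Agent.Helper18.Dub

namespace Pool.Agent.Helper72.Iso

theorem isSemisimpleRing_of_gen {F W A B : Type} [Field F] [CharZero F] [CommRing A] [Algebra F A]
    [Module.Finite F A] (hA : IsSemisimpleRing A) [Field W] [CommRing B] [Algebra W B]
    (ι : F →+* W) (φ : A →+* B) (hφ : ∀ f, φ (algebraMap F A f) = algebraMap W B (ι f))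
    (S : Set B) (hS : S ⊆ Set.range φ) (hgen : Algebra.adjoin W S = ⊤) : IsSemisimpleRing B := by
  let _ : Algebra F W := ι.toAlgebra
  let _ : Algebra F B := ((algebraMap W B).comp ι).toAlgebra
  have : IsScalarTower F W B := IsScalarTower.of_algebraMap_eq fun _ => rfl
  let φ' : A →ₐ[F] B := { φ with commutes' := hφ }
  let Φ : W ⊗[F] A →ₐ[W] B := Algebra.TensorProduct.lift (Algebra.ofId W B) φ'
    (fun _ _ => Commute.all _ _)
  have h1 := isSemisimpleRing_tensor F W A hA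
  have h2 : Function.Surjective Φ := by
    rw [← AlgHom.range_eq_top, eq_top_iff, ← hgen]
    refine Algebra.adjoin_le fun b hb => ?_
    obtain ⟨a, rfl⟩ := hS hb
    refine ⟨1 ⊗ₜ a, ?_⟩
    change Φ (1 ⊗ₜ a) = φ a
    rw [Algebra.TensorProduct.lift_tmul, map_one, one_mul]
    rfl
  exact RingHom.isSemisimpleRing_of_surjective Φ.toRingHom h2

section

variable {s m n : ℕ} {W B : Type} [Field W] [Algebra ℂ W] [CommRing B] [Algebra W B]

theorem map_genV_comp {v : Fin s → W} (hv : AlgebraicIndependent ℂ v) :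
    (genV ℂ s).map ((algebraMap W B).comp (iotaR hv)) =
      ofCoeffs fun i => algebraMap W B (v i) := by
  rw [genV_map]
  simp only [RingHom.comp_apply, iotaR_vF]

theorem isSemisimpleRing_of_C (hms : m ≤ s) (hs : 1 ≤ s) (hn : s + m ≤ 2 * n + 1) {v : Fin s → W}
    (hv : AlgebraicIndependent ℂ v) (y : Fin m → B) (hgen : Algebra.adjoin W (Set.range y) = ⊤)
    (hrel : monicPoly m y * bar m (monicPoly m y) ∣
      polyC m n (ofCoeffs fun i => algebraMap W B (v i)) (monicPoly m y)) :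
    IsSemisimpleRing B := by
  rw [← map_genV_comp hv] at hrel
  obtain ⟨φ, hφ, hφy⟩ := exists_ringHom_C (F := Par ℂ s) (v := genV ℂ s) (m := m) (n := n)
    ((algebraMap W B).comp (iotaR hv)) y hrel
  have hfin := finite_AlgC (K := ℂ) (m := m) (n := n) hs hn
  exact isSemisimpleRing_of_gen (isSemisimpleRing_of_isField (isField_AlgC (K := ℂ) hms hs hn))
    (iotaR hv) φ hφ (Set.range y) (by rintro _ ⟨i, rfl⟩; exact ⟨_, hφy i⟩) hgen

theorem isSemisimpleRing_of_S (hm : 1 ≤ m) (hms : m ≤ s) (hn : s + m ≤ 2 * (n + 1))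
    {v : Fin s → W} (hv : AlgebraicIndependent ℂ v) (y : Fin m → B)
    (hgen : Algebra.adjoin W (Set.range y) = ⊤) (Q : B[X])
    (hrel : polyB m (n + 1) (ofCoeffs fun i => algebraMap W B (v i)) (monicPoly m y) =
      monicPoly m y * bar m (monicPoly m y) * Q)
    (hrel0 : (monicPoly m y).coeff 0 * Q.coeff 0 +
      2 * (ofCoeffs fun i => algebraMap W B (v i)).coeff 0 = 0) :
    IsSemisimpleRing B := by
  rw [← map_genV_comp hv] at hrel hrel0
  obtain ⟨φ, hφ, hφy⟩ := exists_ringHom_S (F := Par ℂ s) (v := genV ℂ s) (m := m) (n := n)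
    ((algebraMap W B).comp (iotaR hv)) y Q hrel hrel0
  have hfin := isField_AlgS (K := ℂ) hm hms hn
  have := hfin.2
  exact isSemisimpleRing_of_gen (isSemisimpleRing_of_isField hfin.1)
    (iotaR hv) φ hφ (Set.range y) (by rintro _ ⟨i, rfl⟩; exact ⟨_, hφy i⟩) hgen

theorem isSemisimpleRing_of_B (hms : m ≤ s) (hs : 1 ≤ s) (hn : s + m ≤ 2 * n) {v : Fin s → W}
    (hv : AlgebraicIndependent ℂ v) (y : Fin m → B) (hgen : Algebra.adjoin W (Set.range y) = ⊤)
    (hrel : monicPoly m y * bar m (monicPoly m y) ∣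
      polyB m n (ofCoeffs fun i => algebraMap W B (v i)) (monicPoly m y)) :
    IsSemisimpleRing B := by
  rw [← map_genV_comp hv] at hrel
  obtain ⟨φ, hφ, hφy⟩ := exists_ringHom_B (F := Par ℂ s) (v := genV ℂ s) (m := m) (n := n)
    ((algebraMap W B).comp (iotaR hv)) y hrel
  obtain ⟨h1, h2⟩ := isSemisimpleRing_AlgB (K := ℂ) hms hs hn
  exact isSemisimpleRing_of_gen h1
    (iotaR hv) φ hφ (Set.range y) (by rintro _ ⟨i, rfl⟩; exact ⟨_, hφy i⟩) hgen

theorem isSemisimpleRing_of_D (hm : 1 ≤ m) (hms : m ≤ s) (hn : s + m + 1 ≤ 2 * n)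
    {v : Fin s → W} (hv : AlgebraicIndependent ℂ v) (y : Fin m → B)
    (hgen : Algebra.adjoin W (Set.range y) = ⊤) (Q : B[X])
    (hrel : polyD m n (ofCoeffs fun i => algebraMap W B (v i)) (monicPoly m y) =
      monicPoly m y * bar m (monicPoly m y) * Q)
    (hrel0 : (monicPoly m y).coeff 0 * Q.coeff 0 = 0) :
    IsSemisimpleRing B := by
  rw [← map_genV_comp hv] at hrel
  obtain ⟨φ, hφ, hφy⟩ := exists_ringHom_Dp (F := Par ℂ s) (v := genV ℂ s) (m := m) (n := n)
    ((algebraMap W B).comp (iotaR hv)) y Q hrel hrel0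
  obtain ⟨h1, h2⟩ := isSemisimpleRing_AlgDp (K := ℂ) hm hms hn
  exact isSemisimpleRing_of_gen h1
    (iotaR hv) φ hφ (Set.range y) (by rintro _ ⟨i, rfl⟩; exact ⟨_, hφy i⟩) hgen

end

end Pool.Agent.Helper72.Iso
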