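import Pool.Agent.Helper18.Dub.Bridge
import Pool.Agent.Helper72.Iso.BBB

/-!
From a point of the big quantum cohomology to generic semisimplicity.
-/

open Polynomial TensorProduct
open Pool.Agent.Helper18.Dub

namespace Pool.Agent.Helper72.Iso

/-- The big quantum cohomology algebra at a `W`-valued point `σ` of `Spec ℂ[[t]]`, as the algebra
generated by the matrices of the operators `φ_a •`. -/
noncomputable def bigQH {ι : Type} [Fintype ι] [DecidableEq ι] (X : FanoGW ι) {W : Type} [Field W]
    (σ : MvPowerSeries ι ℂ →+* W) : Subalgebra W (Matrix ι ι W) :=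
  Algebra.adjoin W (Set.range fun a => (X.mulMat a).map σ)

theorem isGenericallySemisimple_of_point {ι : Type} [Fintype ι] [DecidableEq ι] (X : FanoGW ι)
    {W : Type} [Field W] [CharZero W] (σ : MvPowerSeries ι ℂ →+* W)
    (h : IsSemisimpleRing (bigQH X σ)) : X.IsGenericallySemisimple := by
  rw [X.isGenericallySemisimple_iff]
  refine X.QH.genericallySemisimple_of_specialization σ ?_
  rw [AlgStr.isSemisimple_iff]
  exact h

theorem formallyUnramified_of_isReduced (F A : Type) [Field F] [CharZero F] [CommRing A]
    [Algebra F A] [Module.Finite F A] [IsReduced A] : Algebra.FormallyUnramified F A := by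
  have : IsArtinianRing A := .of_finite F A
  have h (I : MaximalSpectrum A) : Algebra.FormallyEtale F (A ⧸ I.asIdeal) := by
    let _ := Ideal.Quotient.field I.asIdeal
    exact Algebra.FormallyEtale.of_isSeparable F (A ⧸ I.asIdeal)
  have h2 : Algebra.FormallyEtale F (Π (m : MaximalSpectrum A), (A ⧸ m.asIdeal)) :=
    Algebra.FormallyEtale.pi_iff _ |>.2 h
  have h3 : Algebra.FormallyEtale F A :=
    .of_equiv ((IsArtinianRing.equivPi A).restrictScalars F).symm
  infer_instance

theorem isSemisimpleRing_tensor (F W A : Type) [Field F] [CharZero F] [Field W] [Algebra F W]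
    [CommRing A] [Algebra F A] [Module.Finite F A] (hA : IsSemisimpleRing A) :
    IsSemisimpleRing (W ⊗[F] A) := by
  have h1 : IsReduced A := inferInstance
  have h2 := formallyUnramified_of_isReduced F A
  have h3 : IsReduced (W ⊗[F] A) := Algebra.FormallyUnramified.isReduced_of_field W (W ⊗[F] A)
  exact (isSemisimpleRing_iff_isReduced W (W ⊗[F] A)).2 h3

end Pool.Agent.Helper72.Iso
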