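import Pool.Agent.Helper18.Dub.GWDefs
import Pool.Agent.Helper72.Iso.DefsS
import Pool.Agent.Helper72.Iso.DefsD

/-!
# Definitions for the statement on isotropic Grassmannians
-/

open Polynomial
open Pool.Agent.Helper18.Dub

namespace Pool.Agent.Helper72.Iso

section Relations

variable {B : Type} [CommRing B]

/-- Symplectic type, `IG(m, 2n)`: `P P⁻` divides `2 X^(2n+1) - V P⁻ + (-1)^m V(-X) P`. -/
def RelationC (m n : ℕ) (V P : B[X]) : Prop := P * bar m P ∣ polyC m n V P

/-- Odd symplectic type, `IG(m, 2n+1)`: `2 X^(2n+2) - V P⁻ - (-1)^m V(-X) P = P P⁻ Q` with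
`P(0) Q(0) + 2 V(0) = 0`. -/
def RelationS (m n : ℕ) (V P : B[X]) : Prop :=
  ∃ Q, polyB m (n + 1) V P = P * bar m P * Q ∧ P.coeff 0 * Q.coeff 0 + 2 * V.coeff 0 = 0

/-- Odd orthogonal type, `OG(m, 2n+1)`: `P P⁻` divides `2 X^(2n) - V P⁻ - (-1)^m V(-X) P`. -/
def RelationB (m n : ℕ) (V P : B[X]) : Prop := P * bar m P ∣ polyB m n V P

/-- Even orthogonal type, `OG(m, 2n)`: `2 X^(2n) - X (V P⁻ - (-1)^m V(-X) P) = P P⁻ Q` with
`P(0) Q(0) = 0`. -/
def RelationD (m n : ℕ) (V P : B[X]) : Prop :=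
  ∃ Q, polyD m n V P = P * bar m P * Q ∧ P.coeff 0 * Q.coeff 0 = 0

end Relations

section Universal

variable (s m n : ℕ)

/-- The algebra of type `C` over `F = ℂ(v_0, …, v_{s-1})` is a finite field extension of `F`. -/
def FieldC : Prop := IsField (AlgC (Par ℂ s) m n (genV ℂ s)) ∧
  Module.Finite (Par ℂ s) (AlgC (Par ℂ s) m n (genV ℂ s))

/-- The algebra of odd symplectic type over `F` is a finite field extension of `F`. -/
def FieldS : Prop := IsField (AlgS (Par ℂ s) m n (genV ℂ s)) ∧
  Module.Finite (Par ℂ s) (AlgS (Par ℂ s) m n (genV ℂ s))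

/-- The algebra of type `B` over `F` is semisimple and finite. -/
def SemisimpleB : Prop := IsSemisimpleRing (AlgB (Par ℂ s) m n (genV ℂ s)) ∧
  Module.Finite (Par ℂ s) (AlgB (Par ℂ s) m n (genV ℂ s))

/-- The algebra of type `D` over `F` is semisimple and finite. -/
def SemisimpleD : Prop := IsSemisimpleRing (AlgDp (Par ℂ s) m n (genV ℂ s)) ∧
  Module.Finite (Par ℂ s) (AlgDp (Par ℂ s) m n (genV ℂ s))

end Universal

section Point

variable {κ ν : Type} [Fintype κ] [DecidableEq κ] [Fintype ν] [DecidableEq ν]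

/-- The invariant part of the big quantum cohomology algebra at a `W`-valued point `σ` of
`Spec ℂ[[t_a : a ∈ κ]]`: the algebra generated by the matrices of the operators `φ_a •`,
`a ∈ κ`, at points in the span of the classes `φ_a`, `a ∈ κ`. -/
noncomputable def bigQHinv (X : FanoGW (κ ⊕ ν)) {W : Type} [Field W]
    (σ : MvPowerSeries κ ℂ →+* W) : Subalgebra W (Matrix (κ ⊕ ν) (κ ⊕ ν) W) :=
  Algebra.adjoin W (Set.range fun a : κ => (X.resMat (Sum.inl a)).map σ)

/-- A `W`-valued point `σ`, `W` a field containing `ℂ`, of the span of the classes `φ_a`,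
`a ∈ κ`, at which the invariant part of the big quantum cohomology is a commutative algebra `B`
generated by `m` elements `y_i`, together with `s` elements `v_i` of `W` algebraically independent
over `ℂ`. -/
structure BulkPoint (X : FanoGW (κ ⊕ ν)) (s m : ℕ) where
  W : Type
  B : Type
  [field : Field W]
  [algW : Algebra ℂ W]
  [commRing : CommRing B]
  [algB : Algebra W B]
  σ : MvPowerSeries κ ℂ →+* W
  e : bigQHinv X σ ≃ₐ[W] B
  v : Fin s → W
  indep : AlgebraicIndependent ℂ v
  y : Fin m → B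
  gen : Algebra.adjoin W (Set.range y) = ⊤

attribute [instance] BulkPoint.field BulkPoint.algW BulkPoint.commRing BulkPoint.algB

namespace BulkPoint

variable {X : FanoGW (κ ⊕ ν)} {s m : ℕ} (p : BulkPoint X s m)

/-- `V = v_0 + v_1 X + ⋯ + v_{s-1} X^(s-1)` -/
noncomputable def V : p.B[X] := ofCoeffs fun i => algebraMap p.W p.B (p.v i)

/-- `P = X^m + y_{m-1} X^(m-1) + ⋯ + y_0` -/
noncomputable def P : p.B[X] := monicPoly m p.y

end BulkPoint

end Point

end Pool.Agent.Helper72.Iso
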