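import Pool.Agent.Helper72.Iso.Glue
import Pool.Agent.Helper72.Iso.Stmt

/-!
The invariant part of the big quantum cohomology at a point.
-/

open Pool.Agent.Helper18.Dub

namespace Pool.Agent.Helper72.Iso

theorem isGenericallySemisimple_of_invPoint {κ ν : Type} [Fintype κ] [DecidableEq κ] [Fintype ν]
    [DecidableEq ν] (X : FanoGW (κ ⊕ ν)) {o : κ} (ho : X.one = Sum.inl o)
    (hspan : FanoGW.proj κ ν ∈ Submodule.span ℂ {g | X.IsSymmetry g})
    {W : Type} [Field W] [CharZero W] (σ : MvPowerSeries κ ℂ →+* W)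
    (h : IsSemisimpleRing (bigQHinv X σ)) : X.IsGenericallySemisimple := by
  have h1 : IsSemisimpleRing (X.QHres.map σ).invPart := by
    rw [AlgStr.invPart, AlgStr.isSemisimple_adjoin_iff]
    exact h
  have hcl : ∀ a b k, (X.QHres.map σ).m (Sum.inl a) (Sum.inl b) (Sum.inr k) = 0 := by
    intro a b k
    show σ (X.QHres.m (Sum.inl a) (Sum.inl b) (Sum.inr k)) = _
    rw [FanoGW.closed ho hspan, map_zero]
  have h2 : IsReduced (X.QHres.map σ).invPart := inferInstance
  rw [AlgStr.isReduced_invPart_iff _ (o := o) ho hcl, FanoGW.sub_map_eq ho hspan] at h2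
  have h3 : (FanoGW.QHinv ho hspan).GenericallySemisimple :=
    (FanoGW.QHinv ho hspan).genericallySemisimple_of_specialization σ
      ((isSemisimpleRing_iff_isReduced W _).2 h2)
  rw [X.isGenericallySemisimple_iff]
  exact X.big_of_generic ((FanoGW.generic_iff_inv ho hspan).2 h3)

end Pool.Agent.Helper72.Iso
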