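import Pool.Agent.Helper72.Iso.Emb

/-!
Algebraic independence of the Cramer parameters.
-/

open Polynomial

namespace Pool.Agent.Helper72.Iso

open scoped IntermediateField.algebraAdjoinAdjoin

variable {K : Type*} [Field K] {m t : ℕ}

theorem algebraicIndependent_xy : AlgebraicIndependent K
    (Sum.elim (xR K t m) (yR K t m)) := by
  rw [algebraicIndependent_iff_injective_aeval]
  intro a b h
  rw [aeval_xR_yR, aeval_xR_yR] at h
  exact IsFractionRing.injective (Uni K t m) (RF K t m) h

theorem algebraicIndependent_of_algebraic {w : Fin (m + t) → RF K t m}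
    (hx : ∀ j, w (Fin.natAdd m j) = xR K t m j)
    (hy : ∀ i, IsAlgebraic (IntermediateField.adjoin K (Set.range w)) (yR K t m i)) :
    AlgebraicIndependent K w := by
  classical
  set F' := IntermediateField.adjoin K (Set.range w) with hF'
  have hU : ∀ g : Uni K t m, IsAlgebraic F' (algebraMap (Uni K t m) (RF K t m) g) := by
    intro g
    rw [← aeval_xR_yR]
    induction g using MvPolynomial.induction_on with
    | C a =>
      rw [MvPolynomial.aeval_C, IsScalarTower.algebraMap_apply K F' (RF K t m)]
      exact isAlgebraic_algebraMap _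
    | add p q hp hq => rw [map_add]; exact hp.add hq
    | mul_X p i hp =>
      rw [map_mul, MvPolynomial.aeval_X]
      refine hp.mul ?_
      rcases i with i | i
      · have h1 : xR K t m i ∈ F' := by
          rw [← hx i]
          exact IntermediateField.subset_adjoin _ _ ⟨_, rfl⟩
        exact isAlgebraic_algebraMap (⟨_, h1⟩ : F')
      · exact hy i
  have hL : Algebra.IsAlgebraic F' (RF K t m) := by
    refine ⟨fun z => ?_⟩
    obtain ⟨a, b, hb, rfl⟩ := IsFractionRing.div_surjective (A := Uni K t m) z
    rw [div_eq_mul_inv]
    exact (hU a).mul (hU b).inv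
  have hL' : Algebra.IsAlgebraic (Algebra.adjoin K (Set.range w)) (RF K t m) :=
    (IsFractionRing.comap_isAlgebraic_iff (A := Algebra.adjoin K (Set.range w)) (K := F')
      (C := RF K t m)).2 hL
  have hcard := (algebraicIndependent_xy (K := K) (t := t) (m := m)).lift_cardinalMk_le_trdeg
  refine (Algebra.IsAlgebraic.isTranscendenceBasis_of_lift_le_trdeg_of_finite K w ?_).1
  refine le_trans (le_of_eq ?_) hcard
  simp [add_comm]

end Pool.Agent.Helper72.Iso
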