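import Pool.Agent.Helper72.Iso.Basic

/-!
The relations are linear in the bulk parameters.
-/

open Polynomial

namespace Pool.Agent.Helper72.Iso

section Ring

variable {A B : Type*} [CommRing A] [CommRing B]

/-- contribution of `v_k` to `polyC` (`e = 1`) and to `polyB` (`e = -1`) -/
noncomputable def termP (e : A) (m k : ℕ) (P : A[X]) : A[X] :=
  -(X ^ k * bar m P) + C e * ((-1) ^ m * (neg (X ^ k) * P))

theorem map_termP (f : A →+* B) (e : A) (m k : ℕ) (P : A[X]) :
    (termP e m k P).map f = termP (f e) m k (P.map f) := by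
  simp [termP, map_bar]

/-- the general linear polynomial: `2 X^N - v P⁻ + e (-1)^m v(-X) P` -/
noncomputable def polyG (e : A) (m N : ℕ) (v P : A[X]) : A[X] :=
  2 * X ^ N - v * bar m P + C e * ((-1) ^ m * (neg v * P))

theorem polyC_eq (m n : ℕ) (v P : A[X]) : polyC m n v P = polyG 1 m (2 * n + 1) v P := by
  simp [polyC, polyG]

theorem polyB_eq (m n : ℕ) (v P : A[X]) : polyB m n v P = polyG (-1) m (2 * n) v P := by
  simp [polyB, polyG]; ring

theorem map_polyG (f : A →+* B) (e : A) (m N : ℕ) (v P : A[X]) :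
    (polyG e m N v P).map f = polyG (f e) m N (v.map f) (P.map f) := by
  simp [polyG, map_bar, map_neg_poly]

theorem neg_sum {ι : Type*} (s : Finset ι) (f : ι → A[X]) :
    neg (∑ i ∈ s, f i) = ∑ i ∈ s, neg (f i) := by
  classical
  induction s using Finset.induction_on with
  | empty => simp
  | insert a s ha ih => rw [Finset.sum_insert ha, Finset.sum_insert ha, neg_add, ih]

theorem polyG_ofCoeffs (e : A) (m N : ℕ) {s : ℕ} (v : Fin s → A) (P : A[X]) :
    polyG e m N (ofCoeffs v) P = 2 * X ^ N + ∑ k : Fin s, C (v k) * termP e m k P := by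
  have h1 : ofCoeffs v * bar m P = ∑ k : Fin s, C (v k) * (X ^ (k : ℕ) * bar m P) := by
    rw [ofCoeffs, Finset.sum_mul]
    exact Finset.sum_congr rfl fun k _ => by ring
  have h2 : neg (ofCoeffs v) * P = ∑ k : Fin s, C (v k) * (neg (X ^ (k : ℕ)) * P) := by
    rw [ofCoeffs, neg_sum, Finset.sum_mul]
    exact Finset.sum_congr rfl fun k _ => by rw [neg_mul, neg_C]; ring
  rw [polyG, h1, h2, Finset.mul_sum, Finset.mul_sum]
  simp only [termP, mul_add, Finset.sum_add_distrib, mul_neg, Finset.sum_neg_distrib]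
  have : ∀ k : Fin s, C (v k) * (C e * ((-1) ^ m * (neg (X ^ (k : ℕ)) * P))) =
      C e * ((-1) ^ m * (C (v k) * (neg (X ^ (k : ℕ)) * P))) := fun k => by ring
  simp only [this]
  ring

theorem natDegree_termP_le (e : A) {m k : ℕ} {P : A[X]} (hm : P.natDegree ≤ m) :
    (termP e m k P).natDegree ≤ m + k := by
  have h1 : (X ^ k * bar m P).natDegree ≤ m + k := by
    refine (natDegree_mul_le).trans ?_
    have : (bar m P).natDegree ≤ m := by
      rw [bar, show ((-1 : A[X]) ^ m * neg P) = C ((-1) ^ m) * neg P by simp]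
      exact (natDegree_C_mul_le _ _).trans (by rw [natDegree_neg_poly]; exact hm)
    have h2 := natDegree_X_pow_le (R := A) k
    omega
  have h2 : (C e * ((-1) ^ m * (neg (X ^ k) * P))).natDegree ≤ m + k := by
    refine (natDegree_C_mul_le _ _).trans ?_
    rw [show ((-1 : A[X]) ^ m) = C ((-1) ^ m) by simp]
    refine (natDegree_C_mul_le _ _).trans ?_
    refine (natDegree_mul_le).trans ?_
    rw [natDegree_neg_poly]
    have h2 := natDegree_X_pow_le (R := A) k
    omega
  rw [termP]
  exact (natDegree_add_le _ _).trans (max_le ((natDegree_neg _).trans_le h1) h2)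

theorem neg_bar (m : ℕ) (P : A[X]) : neg (bar m P) = (-1) ^ m * P := by
  rw [bar, neg_mul, neg_neg_poly, show ((-1 : A[X]) ^ m) = C ((-1) ^ m) by simp, neg_C]

theorem neg_mul_bar (m : ℕ) (P : A[X]) : neg (P * bar m P) = P * bar m P := by
  rw [neg_mul, neg_bar, bar]; ring

/-- the polynomials `termP e m k P`, `e = ±1`, have parity: `T(-X) = -e T(X)` -/
theorem neg_termP {e : A} (he : e * e = 1) (m k : ℕ) (P : A[X]) :
    neg (termP e m k P) = -(C e * termP e m k P) := by
  have hc : (C e * C e : A[X]) = 1 := by rw [← C_mul, he, C_1]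
  have h1 : neg ((-1 : A[X]) ^ m) = (-1) ^ m := by
    rw [show ((-1 : A[X]) ^ m) = C ((-1) ^ m) by simp, neg_C]
  rw [termP, neg_add, neg_uminus, neg_mul, neg_bar, neg_mul, neg_mul, neg_mul, neg_neg_poly, h1,
    neg_C, bar]
  linear_combination ((-1) ^ m * neg (X ^ k) * P) * hc


/-- Remainders are compatible with `X ↦ -X`. -/
theorem negX_modByMonic {p q : A[X]} (hq : q.Monic) (hneg : neg q = q) :
    neg (p %ₘ q) = neg p %ₘ q := by
  nontriviality A
  have h1 := modByMonic_add_div p q
  have h2 : neg (p %ₘ q) + q * neg (p /ₘ q) = neg p := by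
    rw [← congrArg neg h1, neg_add, neg_mul, hneg]
  have h3 : (neg (p %ₘ q)).degree < q.degree := by
    have h4 := degree_modByMonic_lt p hq
    refine lt_of_le_of_lt ?_ h4
    refine (degree_le_iff_coeff_zero _ _).2 fun k hk => ?_
    rw [coeff_neg, coeff_eq_zero_of_degree_lt hk, mul_zero]
  exact ((div_modByMonic_unique _ _ hq ⟨h2, h3⟩).2).symm

/-- The relation `P P⁻ ∣ polyG` in terms of remainders. -/
theorem dvd_polyG_iff {e : A} {m N : ℕ} {s : ℕ} (v : Fin s → A) {P : A[X]}
    (hP : P.Monic) (hm : P.natDegree = m) :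
    P * bar m P ∣ polyG e m N (ofCoeffs v) P ↔
      polyG e m N (ofCoeffs v) P %ₘ (P * bar m P) = 0 :=
  (modByMonic_eq_zero_iff_dvd (monic_mul_bar hP hm)).symm

section split

variable {m t : ℕ}

/-- the high part of `polyG` -/
noncomputable def highG (e : A) (m N t : ℕ) (w : Fin t → A) (P : A[X]) : A[X] :=
  2 * X ^ N + ∑ j : Fin t, C (w j) * termP e m (m + j) P

theorem polyG_split (e : A) (N : ℕ) (v : Fin (m + t) → A) (P : A[X]) :
    polyG e m N (ofCoeffs v) P = (∑ k : Fin m, C (v (Fin.castAdd t k)) * termP e m k P) +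
      highG e m N t (fun j => v (Fin.natAdd m j)) P := by
  rw [polyG_ofCoeffs, Fin.sum_univ_add, highG]
  simp only [Fin.val_castAdd, Fin.val_natAdd]
  ring

theorem map_highG (f : A →+* B) (e : A) (m N t : ℕ) (w : Fin t → A) (P : A[X]) :
    (highG e m N t w P).map f = highG (f e) m N t (fun j => f (w j)) (P.map f) := by
  simp [highG, Polynomial.map_sum, map_termP]

theorem neg_highG {e : A} (he : e * e = 1) (m N t : ℕ) (hN : (-1 : A) ^ N = -e) (w : Fin t → A)
    (P : A[X]) : neg (highG e m N t w P) = -(C e * highG e m N t w P) := by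
  rw [highG, neg_add, neg_mul, neg_two, neg_pow, neg_X, neg_sum]
  have h1 : (-X : A[X]) ^ N = -(C e * X ^ N) := by
    rw [← neg_one_mul, mul_pow, show ((-1 : A[X]) ^ N) = C ((-1) ^ N) by simp, hN]
    simp
  rw [h1, mul_add, Finset.mul_sum, _root_.neg_add, ← Finset.sum_neg_distrib]
  congr 1
  · ring
  · refine Finset.sum_congr rfl fun j _ => ?_
    rw [neg_mul, neg_C, neg_termP he]; ring

/-- The parity index: coefficients `2 i + 1` (type C) or `2 i` (type B). -/
noncomputable def linMat (e : A) (m δ : ℕ) (P : A[X]) : Matrix (Fin m) (Fin m) A :=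
  Matrix.of fun i k => (termP e m k P).coeff (2 * i + δ)

theorem map_linMat (f : A →+* B) (e : A) (m δ : ℕ) (P : A[X]) :
    (linMat e m δ P).map f = linMat (f e) m δ (P.map f) := by
  ext i k
  simp [linMat, ← map_termP, coeff_map]

/-- the right-hand side of the linear system -/
noncomputable def linVec (e : A) (m N t δ : ℕ) (w : Fin t → A) (P : A[X]) : Fin m → A :=
  fun i => (highG e m N t w P %ₘ (P * bar m P)).coeff (2 * i + δ)

theorem map_linVec (f : A →+* B) (e : A) (m N t δ : ℕ) (w : Fin t → A) {P : A[X]}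
    (hP : P.Monic) (hm : P.natDegree = m) (i : Fin m) :
    f (linVec e m N t δ w P i) = linVec (f e) m N t δ (fun j => f (w j)) (P.map f) i := by
  rw [linVec, linVec, ← map_highG, ← map_bar, ← Polynomial.map_mul,
    ← map_modByMonic _ (monic_mul_bar hP hm), coeff_map]

theorem polyG_mod (e : A) (N : ℕ) (v : Fin (m + t) → A) {P : A[X]}
    (hP : P.Monic) (hm : P.natDegree = m) :
    polyG e m N (ofCoeffs v) P %ₘ (P * bar m P) =
      (∑ k : Fin m, C (v (Fin.castAdd t k)) * termP e m k P) +
        highG e m N t (fun j => v (Fin.natAdd m j)) P %ₘ (P * bar m P) := by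
  nontriviality A
  rw [polyG_split, add_modByMonic]
  congr 1
  have hM := monic_mul_bar hP hm
  rw [(modByMonic_eq_self_iff hM).2]
  have hdeg : (P * bar m P).natDegree = 2 * m := by
    rw [hP.natDegree_mul (monic_bar hP hm), hm, natDegree_bar hP hm]; ring
  rw [degree_eq_natDegree hM.ne_zero, hdeg]
  refine lt_of_le_of_lt (degree_sum_le _ _) ?_
  rw [Finset.sup_lt_iff (WithBot.bot_lt_coe _)]
  intro k _
  have h1 : (C (v (Fin.castAdd t k)) * termP e m k P).natDegree ≤ m + k :=
    (natDegree_C_mul_le _ _).trans (natDegree_termP_le e hm.le)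
  refine lt_of_le_of_lt degree_le_natDegree ?_
  exact_mod_cast lt_of_le_of_lt h1 (by omega)

/-- If the relation holds, the low parameters satisfy the linear system. -/
theorem linMat_mulVec {e : A} {N δ : ℕ} {v : Fin (m + t) → A} {P : A[X]}
    (hP : P.Monic) (hm : P.natDegree = m) (h : P * bar m P ∣ polyG e m N (ofCoeffs v) P) :
    (linMat e m δ P).mulVec (fun k => v (Fin.castAdd t k)) =
      -linVec e m N t δ (fun j => v (Fin.natAdd m j)) P := by
  rw [dvd_polyG_iff v hP hm, polyG_mod e N v hP hm] at h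
  ext i
  have h1 := congrArg (fun p : A[X] => p.coeff (2 * i + δ)) h
  simp only [coeff_add, finsetSum_coeff, coeff_C_mul, coeff_zero] at h1
  rw [Pi.neg_apply, linVec, eq_neg_iff_add_eq_zero, ← h1]
  congr 1
  simp only [Matrix.mulVec, dotProduct, linMat, Matrix.of_apply]
  exact Finset.sum_congr rfl fun k _ => mul_comm _ _

/-- Conversely, a solution of the linear system satisfies the relation (`2` regular). -/
theorem dvd_of_linMat_mulVec [NoZeroDivisors A] (h2 : (2 : A) ≠ 0) {e : A} (he : e * e = 1)
    {N δ : ℕ} (hδ : δ < 2) (hN : (-1 : A) ^ N = -e) (hd : (-1 : A) ^ δ = -e)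
    {v : Fin (m + t) → A} {P : A[X]} (hP : P.Monic) (hm : P.natDegree = m)
    (h : (linMat e m δ P).mulVec (fun k => v (Fin.castAdd t k)) =
      -linVec e m N t δ (fun j => v (Fin.natAdd m j)) P) :
    P * bar m P ∣ polyG e m N (ofCoeffs v) P := by
  nontriviality A
  rw [dvd_polyG_iff v hP hm, polyG_mod e N v hP hm]
  set S : A[X] := (∑ k : Fin m, C (v (Fin.castAdd t k)) * termP e m k P) +
        highG e m N t (fun j => v (Fin.natAdd m j)) P %ₘ (P * bar m P) with hS
  have hM := monic_mul_bar hP hm
  have hdegM : (P * bar m P).natDegree = 2 * m := by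
    rw [hP.natDegree_mul (monic_bar hP hm), hm, natDegree_bar hP hm]; ring
  -- degree
  have hdeg : S.degree < (2 * m : ℕ) := by
    rw [hS, ← polyG_mod e N v hP hm, ← hdegM, ← degree_eq_natDegree hM.ne_zero]
    exact degree_modByMonic_lt _ hM
  -- parity
  have hpar : neg S = -(C e * S) := by
    rw [hS, neg_add, negX_modByMonic hM (neg_mul_bar m P), neg_highG he m N t hN, neg_sum, mul_add,
      _root_.neg_add, Finset.mul_sum, ← Finset.sum_neg_distrib]
    congr 1
    · refine Finset.sum_congr rfl fun j _ => ?_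
      rw [neg_mul, neg_C, neg_termP he]; ring
    · have h3 : ∀ H : A[X], -(C e * H) = (-e) • H := fun H => by
        rw [smul_eq_C_mul, C_neg]; ring
      rw [h3, h3, smul_modByMonic]
  ext k
  rw [coeff_zero]
  rcases lt_or_ge k (2 * m) with hk | hk
  · by_cases hkδ : k % 2 = δ
    · -- the coefficients given by the linear system
      have hi : k / 2 < m := by omega
      have h1 := congrFun h ⟨k / 2, hi⟩
      rw [Pi.neg_apply, linVec, eq_neg_iff_add_eq_zero] at h1
      have hk2 : 2 * (k / 2) + δ = k := by omega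
      rw [hS, coeff_add, finsetSum_coeff]
      simp only [Matrix.mulVec, dotProduct, linMat, Matrix.of_apply, hk2] at h1
      rw [← h1]
      congr 1
      exact Finset.sum_congr rfl fun k _ => by rw [coeff_C_mul, mul_comm]
    · have h1 := congrArg (fun p : A[X] => p.coeff k) hpar
      simp only [Polynomial.coeff_neg, coeff_C_mul] at h1
      rw [Pool.Agent.Helper72.Iso.coeff_neg] at h1
      have h4 : (-1 : A) ^ k = e := by
        have h5 : (-1 : A) ^ k * (-1) ^ δ = -1 := by
          rw [← pow_add]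
          exact Odd.neg_one_pow (by rw [Nat.odd_iff]; omega)
        rw [hd] at h5
        have h6 : (-1 : A) ^ k * e = 1 := by linear_combination -h5
        calc (-1 : A) ^ k = (-1 : A) ^ k * e * e := by rw [mul_assoc, he, mul_one]
          _ = e := by rw [h6, one_mul]
      rw [h4] at h1
      have h7 : e * (2 * S.coeff k) = 0 := by linear_combination h1
      have h8 : 2 * S.coeff k = 0 := by
        have := congrArg (e * ·) h7
        simpa [← mul_assoc, he] using this
      exact (mul_eq_zero.1 h8).resolve_left h2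
  · exact coeff_eq_zero_of_degree_lt (hdeg.trans_le (by exact_mod_cast hk))

end split

end Ring

end Pool.Agent.Helper72.Iso
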