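import Pool.Agent.Helper72.Iso.Basic

/-!
# Transcendence degree lemma
-/

open Polynomial

namespace Pool.Agent.Helper72.Iso

theorem card_le_of_mem_adjoin {K E : Type*} [Field K] [Field E] [Algebra K E] {s : ℕ}
    {v : Fin s → E} (hv : AlgebraicIndependent K v) (S : Finset E)
    (h : ∀ i, v i ∈ IntermediateField.adjoin K (S : Set E)) : s ≤ S.card := by
  set L := IntermediateField.adjoin K (S : Set E) with hL
  let v' : Fin s → L := fun i => ⟨v i, h i⟩
  have hv' : AlgebraicIndependent K v' := by
    rw [← AlgHom.algebraicIndependent_iff L.val Subtype.val_injective]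
    exact hv
  let s' : Set L := Subtype.val ⁻¹' (S : Set E)
  have htop : IntermediateField.adjoin K s' = ⊤ := by
    apply IntermediateField.map_injective L.val
    rw [IntermediateField.adjoin_map, ← AlgHom.fieldRange_eq_map, IntermediateField.fieldRange_val]
    have : (L.val '' s' : Set E) = (S : Set E) := by
      ext x
      constructor
      · rintro ⟨y, hy, rfl⟩; exact hy
      · intro hx
        exact ⟨⟨x, IntermediateField.subset_adjoin K _ hx⟩, hx, rfl⟩
    rw [this]
  have halg : Algebra.IsAlgebraic (Algebra.adjoin K s') L := by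
    rw [← IntermediateField.isAlgebraic_adjoin_iff_top, htop, Algebra.isAlgebraic_iff_isIntegral]
    exact Algebra.isIntegral_of_surjective IntermediateField.topEquiv.surjective
  have h1 := Algebra.IsAlgebraic.trdeg_le_cardinalMk K s'
  have h2 := hv'.lift_cardinalMk_le_trdeg
  have h3 : Cardinal.mk s' ≤ S.card := by
    have : Function.Injective (fun x : s' => (⟨x.1.1, x.2⟩ : (S : Set E))) := by
      intro x y hxy
      have := congrArg Subtype.val hxy
      exact Subtype.ext (Subtype.ext this)
    have h4 := Cardinal.mk_le_of_injective this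
    simpa using h4
  have h5 : (Cardinal.lift.{_, 0} (Cardinal.mk (Fin s))) ≤ Cardinal.lift.{0, _} (S.card : Cardinal) :=
    h2.trans (Cardinal.lift_le.2 (h1.trans h3))
  simpa using h5

section proj

variable {E : Type*} [Field E]

/-- coefficientwise application of an additive map -/
noncomputable def cw (π : E →+ E) (p : E[X]) : E[X] := ∑ i ∈ p.support, monomial i (π (p.coeff i))

theorem coeff_cw (π : E →+ E) (p : E[X]) (k : ℕ) : (cw π p).coeff k = π (p.coeff k) := by
  rw [cw, finsetSum_coeff]
  simp only [coeff_monomial]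
  by_cases h : k ∈ p.support
  · rw [Finset.sum_eq_single k]
    · simp
    · intro b _ hb
      rw [if_neg hb]
    · intro h'; exact absurd h h'
  · rw [Finset.sum_eq_zero]
    · rw [notMem_support_iff.1 h, map_zero]
    · intro x hx
      rw [if_neg]
      rintro rfl
      exact h hx

theorem cw_add (π : E →+ E) (p q : E[X]) : cw π (p + q) = cw π p + cw π q := by
  ext k; simp [coeff_cw]

theorem cw_sub (π : E →+ E) (p q : E[X]) : cw π (p - q) = cw π p - cw π q := by
  ext k; simp [coeff_cw]

theorem cw_neg (π : E →+ E) (p : E[X]) : cw π (neg p) = neg (cw π p) := by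
  ext k
  rw [coeff_cw, coeff_neg, coeff_neg, coeff_cw]
  rcases Nat.even_or_odd k with h | h
  · rw [h.neg_one_pow, one_mul, one_mul]
  · rw [h.neg_one_pow, neg_one_mul, neg_one_mul, map_neg]

theorem cw_mul (π : E →+ E) (L : Set E) (hπ : ∀ a, ∀ b ∈ L, π (a * b) = π a * b) (p q : E[X])
    (hq : ∀ i, q.coeff i ∈ L) : cw π (p * q) = cw π p * q := by
  ext k
  rw [coeff_cw, coeff_mul, coeff_mul, map_sum]
  refine Finset.sum_congr rfl fun x _ => ?_
  rw [hπ _ _ (hq _), coeff_cw]

theorem cw_mul' (π : E →+ E) (L : Set E) (hπ : ∀ a, ∀ b ∈ L, π (a * b) = π a * b) (p q : E[X])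
    (hq : ∀ i, q.coeff i ∈ L) : cw π (q * p) = q * cw π p := by
  rw [mul_comm, cw_mul π L hπ p q hq, mul_comm]

end proj

theorem tr_false {K E : Type*} [Field K] [CharZero K] [Field E] [Algebra K E] {s : ℕ}
    {v : Fin s → E} (hv : AlgebraicIndependent K v) {R : E[X]} (hR : R.Monic)
    (hs : R.natDegree + 2 ≤ s) (hcop : IsCoprime R (neg R)) {N : ℕ} {c : K} {Q : E[X]}
    (h : C (algebraMap K E c) * X ^ N + (neg (ofCoeffs v) * R - ofCoeffs v * neg R) =
      X ^ 3 * (R * neg R) * Q) : False := by
  classical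
  have hchar : CharZero E := charZero_of_injective_algebraMap (algebraMap K E).injective
  set ρ := R.natDegree with hρ
  set S : Finset E := (Finset.range ρ).image (fun i => R.coeff i) ∪
    (Finset.univ.filter (fun i : Fin s => ρ + 2 ≤ (i : ℕ))).image v with hS
  have hScard : S.card + ρ + 2 ≤ ρ + s := by
    have h1 : ((Finset.range ρ).image (fun i => R.coeff i)).card ≤ ρ :=
      Finset.card_image_le.trans (by simp)
    have h2 : ((Finset.univ.filter (fun i : Fin s => ρ + 2 ≤ (i : ℕ))).image v).card ≤
        s - (ρ + 2) := by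
      refine Finset.card_image_le.trans ?_
      have h3 : (Finset.univ.filter (fun i : Fin s => ρ + 2 ≤ (i : ℕ))).card =
          ((Finset.univ.filter (fun i : Fin s => ρ + 2 ≤ (i : ℕ))).image
            (fun i : Fin s => (i : ℕ))).card :=
        (Finset.card_image_of_injective _ Fin.val_injective).symm
      rw [h3]
      have h4 : ((Finset.univ.filter (fun i : Fin s => ρ + 2 ≤ (i : ℕ))).image
            (fun i : Fin s => (i : ℕ))) ⊆ Finset.Ico (ρ + 2) s := by
        intro x hx
        rw [Finset.mem_image] at hx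
        obtain ⟨i, hi, rfl⟩ := hx
        rw [Finset.mem_filter] at hi
        rw [Finset.mem_Ico]
        exact ⟨hi.2, i.2⟩
      exact (Finset.card_le_card h4).trans (by simp)
    have h3 := Finset.card_union_le ((Finset.range ρ).image (fun i => R.coeff i))
      ((Finset.univ.filter (fun i : Fin s => ρ + 2 ≤ (i : ℕ))).image v)
    rw [← hS] at h3
    omega
  set K1 := IntermediateField.adjoin K (S : Set E) with hK1
  have hSK1 : ∀ x ∈ S, x ∈ K1 := fun x hx => IntermediateField.subset_adjoin K _ hx
  obtain ⟨π, hπ⟩ := (Algebra.linearMap K1 E).exists_leftInverse_of_injective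
    (LinearMap.ker_eq_bot.2 (algebraMap K1 E).injective)
  let π' : E →+ E := (algebraMap K1 E : K1 →+* E).toAddMonoidHom.comp π.toAddMonoidHom
  have hπ'def : ∀ x, π' x = ((π x : K1) : E) := fun x => rfl
  have hπ'mem : ∀ x, π' x ∈ K1 := fun x => (π x).2
  have hπ'id : ∀ x ∈ K1, π' x = x := by
    intro x hx
    have := LinearMap.congr_fun hπ ⟨x, hx⟩
    rw [hπ'def]
    have h2 : π x = ⟨x, hx⟩ := this
    rw [h2]
  have hπ'mul : ∀ a, ∀ b ∈ (K1 : Set E), π' (a * b) = π' a * b := by
    intro a b hb
    have h1 : a * b = (⟨b, hb⟩ : K1) • a := by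
      rw [Algebra.smul_def, mul_comm]; rfl
    rw [hπ'def, h1, map_smul, hπ'def, smul_eq_mul, mul_comm]
    rfl
  -- coefficients of R
  have hRmem : ∀ i, R.coeff i ∈ (K1 : Set E) := by
    intro i
    rcases lt_trichotomy i ρ with hi | hi | hi
    · exact hSK1 _ (Finset.mem_union_left _ (Finset.mem_image_of_mem _ (Finset.mem_range.2 hi)))
    · rw [hi, show R.coeff ρ = 1 from hR]; exact one_mem K1
    · rw [coeff_eq_zero_of_natDegree_lt hi]; exact zero_mem K1
  have hnRmem : ∀ i, (neg R).coeff i ∈ (K1 : Set E) := by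
    intro i
    rw [coeff_neg]
    exact mul_mem (pow_mem (neg_mem (one_mem _)) _) (hRmem i)
  have hmulmem : ∀ p q : E[X], (∀ i, p.coeff i ∈ (K1 : Set E)) → (∀ i, q.coeff i ∈ (K1 : Set E)) →
      ∀ i, (p * q).coeff i ∈ (K1 : Set E) := by
    intro p q hp hq i
    rw [coeff_mul]
    exact sum_mem fun x _ => mul_mem (hp _) (hq _)
  have hXmem : ∀ N i, ((X : E[X]) ^ N).coeff i ∈ (K1 : Set E) := by
    intro N i
    rw [coeff_X_pow]
    split_ifs
    · exact one_mem K1
    · exact zero_mem K1
  have hcmem : ∀ i, (C (algebraMap K E c) * X ^ N).coeff i ∈ (K1 : Set E) := by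
    intro i
    rw [coeff_C_mul, coeff_X_pow]
    refine mul_mem (IntermediateField.algebraMap_mem K1 c) ?_
    split_ifs
    · exact one_mem K1
    · exact zero_mem K1
  have hcwid : ∀ p : E[X], (∀ i, p.coeff i ∈ (K1 : Set E)) → cw π' p = p := by
    intro p hp
    ext k
    rw [coeff_cw, hπ'id _ (hp k)]
  set V := ofCoeffs v with hV
  have hproj : C (algebraMap K E c) * X ^ N + (neg (cw π' V) * R - cw π' V * neg R) =
      X ^ 3 * (R * neg R) * cw π' Q := by
    have h1 := congrArg (cw π') h
    rw [cw_add, cw_sub, cw_mul π' K1 hπ'mul _ R hRmem, cw_mul π' K1 hπ'mul _ (neg R) hnRmem,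
      cw_mul' π' K1 hπ'mul Q _ (hmulmem _ _ (hXmem 3) (hmulmem _ _ hRmem hnRmem)), cw_neg,
      hcwid _ hcmem] at h1
    exact h1
  set w := V - cw π' V with hw
  have hwid : neg w * R - w * neg R = X ^ 3 * (R * neg R) * (Q - cw π' Q) := by
    rw [hw, neg_sub]
    linear_combination h - hproj
  have hwcoeff : ∀ k, ρ + 2 ≤ k → w.coeff k = 0 := by
    intro k hk
    rw [hw, coeff_sub, coeff_cw, hV, coeff_ofCoeffs]
    split_ifs with hks
    · rw [hπ'id, sub_self]
      exact hSK1 _ (Finset.mem_union_right _ (Finset.mem_image_of_mem _ (by simp [hk])))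
    · rw [map_zero, sub_self]
  have hwdeg : w.natDegree ≤ ρ + 1 := by
    refine natDegree_le_iff_coeff_eq_zero.2 fun k hk => hwcoeff k (by omega)
  have hR0 : R ≠ 0 := hR.ne_zero
  have hnR0 : neg R ≠ 0 := by
    intro h0
    apply hR0
    rw [← neg_neg_poly R, h0, neg_zero]
  have hQ : Q - cw π' Q = 0 := by
    by_contra hQ0
    have h1 : (X ^ 3 * (R * neg R) * (Q - cw π' Q)).natDegree =
        3 + (ρ + ρ) + (Q - cw π' Q).natDegree := by
      rw [natDegree_mul (mul_ne_zero (pow_ne_zero _ X_ne_zero) (mul_ne_zero hR0 hnR0)) hQ0,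
        natDegree_mul (pow_ne_zero _ X_ne_zero) (mul_ne_zero hR0 hnR0), natDegree_mul hR0 hnR0,
        natDegree_neg_poly, natDegree_X_pow]
    have h2 : (neg w * R - w * neg R).natDegree ≤ 2 * ρ + 1 := by
      refine (natDegree_sub_le _ _).trans (max_le ?_ ?_)
      · refine natDegree_mul_le.trans ?_
        rw [natDegree_neg_poly]; omega
      · refine natDegree_mul_le.trans ?_
        rw [natDegree_neg_poly]; omega
    rw [hwid, h1] at h2
    omega
  rw [hQ, mul_zero] at hwid
  have hdvd : R ∣ w * neg R := ⟨neg w, by linear_combination -hwid⟩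
  obtain ⟨t, ht⟩ := hcop.dvd_of_dvd_mul_right hdvd
  have hnt : neg t = t := by
    rw [ht, neg_mul] at hwid
    have h1 : (R * neg R) * (neg t - t) = 0 := by linear_combination hwid
    rcases mul_eq_zero.1 h1 with h2 | h2
    · exact absurd h2 (mul_ne_zero hR0 hnR0)
    · exact sub_eq_zero.1 h2
  have ht1 : t.natDegree ≤ 1 := by
    by_cases ht0 : t = 0
    · rw [ht0]; simp
    · have := hwdeg
      rw [ht, natDegree_mul hR0 ht0] at this
      omega
  have htC : t = C (t.coeff 0) := by
    refine eq_C_of_natDegree_le_zero ?_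
    refine natDegree_le_iff_coeff_eq_zero.2 fun k hk => ?_
    rcases eq_or_ne k 1 with rfl | hk1
    · have := congrArg (fun p => coeff p 1) hnt
      simp only [coeff_neg, pow_one] at this
      have h2 : (2 : E) * t.coeff 1 = 0 := by linear_combination -this
      exact (mul_eq_zero.1 h2).resolve_left two_ne_zero
    · exact coeff_eq_zero_of_natDegree_lt (by omega)
  have hfin := card_le_of_mem_adjoin hv (insert (t.coeff 0) S) (fun i => by
    have h1 : V.coeff i = v i := by rw [hV, coeff_ofCoeffs, dif_pos i.2]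
    have h2 : V = cw π' V + R * C (t.coeff 0) := by
      rw [← htC, ← ht, hw]; ring
    have h3 : v i = π' (v i) + R.coeff i * t.coeff 0 := by
      have := congrArg (fun p => coeff p (i : ℕ)) h2
      simp only [coeff_add, coeff_cw, coeff_mul_C, h1] at this
      exact this
    rw [h3]
    have hmono : K1 ≤ IntermediateField.adjoin K ((insert (t.coeff 0) S : Finset E) : Set E) := by
      refine IntermediateField.adjoin.mono _ _ _ ?_
      intro x hx
      exact Finset.mem_coe.2 (Finset.mem_insert_of_mem hx)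
    refine add_mem (hmono (hπ'mem _)) (mul_mem (hmono (hRmem _)) ?_)
    exact IntermediateField.subset_adjoin K _ (by simp))
  have := Finset.card_insert_le (t.coeff 0) S
  omega

end Pool.Agent.Helper72.Iso
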